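import Pool.Agent.H414.DF.Spec

/-!
# ASSIGNMENT (project DF of helper414), by helper261
-/

set_option autoImplicit false

namespace Pool.Agent.H414.DF

open Finset

namespace Asg

theorem aux {α β : Type} [DecidableEq α] [DecidableEq β] (A : Finset α) (u : β) (a₀ : α → β)
    (f : β → ℕ) (T : Finset β) : u ∉ T → ∀ Φ : Finset α, Φ ⊆ A → (∀ x ∈ Φ, a₀ x ∉ T) →
    ∑ t ∈ T, (f t - (A.filter fun x => a₀ x = t).card) ≤ Φ.card →
    ∃ a : α → β, (∀ t ∈ T, (A.filter fun x => a x = t).card = f t) ∧
      (A.filter fun x => a x ≠ a₀ x).card ≤ ∑ t ∈ T,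
        ((f t - (A.filter fun x => a₀ x = t).card) + ((A.filter fun x => a₀ x = t).card - f t)) ∧
      (∀ x, x ∉ A → a x = a₀ x) ∧
      ∀ x ∈ A, a x = a₀ x ∨ (a₀ x ∈ T ∧ a x = u) ∨ (x ∈ Φ ∧ a x ∈ T) := by
  induction T using Finset.induction_on with
  | empty =>
    intro _ Φ _ _ _
    refine ⟨a₀, fun t ht => absurd ht (Finset.notMem_empty t), ?_, fun _ _ => rfl,
      fun _ _ => Or.inl rfl⟩
    simp
  | insert s T hs ih =>
    intro hu Φ hΦA hΦ hcard
    rw [Finset.sum_insert hs] at hcard
    have hus : u ≠ s := fun h => hu (h ▸ Finset.mem_insert_self _ _)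
    have huT : u ∉ T := fun h => hu (Finset.mem_insert_of_mem h)
    set N := (A.filter fun x => a₀ x = s).card with hN
    -- the elements which are sent to `s`
    obtain ⟨S, hSΦ, hSc⟩ := Finset.exists_subset_card_eq (s := Φ) (n := f s - N) (by omega)
    -- the elements which are sent to `u`
    obtain ⟨E, hEA, hEc⟩ := Finset.exists_subset_card_eq (s := A.filter fun x => a₀ x = s)
      (n := N - f s) (by omega)
    have hE0 : ∀ x ∈ E, x ∈ A ∧ a₀ x = s := fun x hx => Finset.mem_filter.1 (hEA hx)
    have hS0 : ∀ x ∈ S, x ∈ A ∧ a₀ x ∉ insert s T := fun x hx =>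
      ⟨hΦA (hSΦ hx), hΦ x (hSΦ hx)⟩
    have hcard' : (Φ \ S).card = Φ.card - (f s - N) := by
      rw [Finset.card_sdiff_of_subset hSΦ, hSc]
    obtain ⟨a₁, h1, h2, h3, h4⟩ := ih huT (Φ \ S) (Finset.sdiff_subset.trans hΦA)
      (fun x hx => fun h => hΦ x (Finset.mem_sdiff.1 hx).1 (Finset.mem_insert_of_mem h))
      (by rw [hcard']; omega)
    -- `a₁ = a₀` where `a₀ = s`, and on `S`
    have e1 : ∀ x ∈ A, (a₁ x = s ↔ a₀ x = s) := by
      intro x hx
      constructor
      · intro h
        rcases h4 x hx with h5 | h5 | h5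
        · rw [← h5, h]
        · exact absurd (h5.2.symm.trans h) hus
        · exact absurd (h ▸ h5.2) hs
      · intro h
        rcases h4 x hx with h5 | h5 | h5
        · rw [h5, h]
        · exact absurd (h ▸ h5.1) hs
        · exact absurd (h ▸ Finset.mem_insert_self s T) (hΦ x (Finset.mem_sdiff.1 h5.1).1)
    have e2 : ∀ x ∈ S, a₁ x = a₀ x := by
      intro x hx
      rcases h4 x (hS0 x hx).1 with h5 | h5 | h5
      · exact h5
      · exact absurd (Finset.mem_insert_of_mem h5.1) (hS0 x hx).2
      · exact absurd hx (Finset.mem_sdiff.1 h5.1).2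
    have hdis : ∀ x ∈ S, x ∉ E := fun x hx hE => (hS0 x hx).2 (by
      rw [(hE0 x hE).2]; exact Finset.mem_insert_self _ _)
    let a : α → β := fun x => if x ∈ S then s else if x ∈ E then u else a₁ x
    have aS : ∀ x ∈ S, a x = s := fun x hx => if_pos hx
    have aE : ∀ x ∈ E, a x = u := fun x hx => by
      have : x ∉ S := fun h => hdis x h hx
      show (if x ∈ S then s else if x ∈ E then u else a₁ x) = u
      rw [if_neg this, if_pos hx]
    have aO : ∀ x, x ∉ S → x ∉ E → a x = a₁ x := fun x hx hx' => by
      show (if x ∈ S then s else if x ∈ E then u else a₁ x) = a₁ x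
      rw [if_neg hx, if_neg hx']
    refine ⟨a, ?_, ?_, ?_, ?_⟩
    · intro t ht
      rcases Finset.mem_insert.1 ht with rfl | ht
      · have h5 : (A.filter fun x => a x = t) = S ∪ ((A.filter fun x => a₀ x = t) \ E) := by
          ext x
          rw [Finset.mem_filter, Finset.mem_union, Finset.mem_sdiff, Finset.mem_filter]
          constructor
          · rintro ⟨hxA, hx⟩
            by_cases hxS : x ∈ S
            · exact Or.inl hxS
            · by_cases hxE : x ∈ E
              · exact absurd ((aE x hxE).symm.trans hx) hus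
              · rw [aO x hxS hxE] at hx
                exact Or.inr ⟨⟨hxA, (e1 x hxA).1 hx⟩, hxE⟩
          · rintro (hxS | ⟨⟨hxA, hx⟩, hxE⟩)
            · exact ⟨(hS0 x hxS).1, aS x hxS⟩
            · have hxS : x ∉ S := fun h => (hS0 x h).2 (by
                rw [hx]; exact Finset.mem_insert_self _ _)
              exact ⟨hxA, by rw [aO x hxS hxE]; exact (e1 x hxA).2 hx⟩
        have h6 : Disjoint S ((A.filter fun x => a₀ x = t) \ E) := by
          rw [Finset.disjoint_left]
          intro x hx hx'
          have := (Finset.mem_filter.1 (Finset.mem_sdiff.1 hx').1).2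
          exact (hS0 x hx).2 (by rw [this]; exact Finset.mem_insert_self _ _)
        rw [h5, Finset.card_union_of_disjoint h6, Finset.card_sdiff_of_subset hEA, hSc, hEc, ← hN]
        omega
      · have hts : t ≠ s := fun h => hs (h ▸ ht)
        rw [← h1 t ht]
        congr 1
        refine Finset.filter_congr fun x hx => ?_
        by_cases hxS : x ∈ S
        · rw [aS x hxS, e2 x hxS]
          constructor
          · intro h; exact absurd h.symm hts
          · intro h
            exact absurd (h ▸ Finset.mem_insert_of_mem ht) (hS0 x hxS).2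
        · by_cases hxE : x ∈ E
          · rw [aE x hxE, (e1 x hx).2 (hE0 x hxE).2]
            constructor
            · intro h; exact absurd (h ▸ ht) huT
            · intro h; exact absurd h.symm hts
          · rw [aO x hxS hxE]
    · have h5 : (A.filter fun x => a x ≠ a₀ x) ⊆ (A.filter fun x => a₁ x ≠ a₀ x) ∪ (S ∪ E) := by
        intro x hx
        rw [Finset.mem_filter] at hx
        rw [Finset.mem_union, Finset.mem_union, Finset.mem_filter]
        by_cases hxS : x ∈ S
        · exact Or.inr (Or.inl hxS)
        · by_cases hxE : x ∈ E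
          · exact Or.inr (Or.inr hxE)
          · rw [aO x hxS hxE] at hx
            exact Or.inl hx
      have h6 := (Finset.card_le_card h5).trans (Finset.card_union_le _ _)
      have h7 := Finset.card_union_le S E
      rw [Finset.sum_insert hs]
      omega
    · intro x hx
      rw [aO x (fun h => hx (hS0 x h).1) (fun h => hx (hE0 x h).1)]
      exact h3 x hx
    · intro x hx
      by_cases hxS : x ∈ S
      · exact Or.inr (Or.inr ⟨hSΦ hxS, by rw [aS x hxS]; exact Finset.mem_insert_self _ _⟩)
      · by_cases hxE : x ∈ E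
        · refine Or.inr (Or.inl ⟨?_, aE x hxE⟩)
          rw [(hE0 x hxE).2]
          exact Finset.mem_insert_self _ _
        · rw [aO x hxS hxE]
          rcases h4 x hx with h5 | h5 | h5
          · exact Or.inl h5
          · exact Or.inr (Or.inl ⟨Finset.mem_insert_of_mem h5.1, h5.2⟩)
          · exact Or.inr (Or.inr ⟨(Finset.mem_sdiff.1 h5.1).1, Finset.mem_insert_of_mem h5.2⟩)

end Asg

theorem asg : S_ASG := by
  classical
  intro α β _ A T u a₀ f n hu hn hA
  -- the numbers
  have hsum : ∑ t ∈ T, ((f t - (A.filter fun x => a₀ x = t).card) +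
      ((A.filter fun x => a₀ x = t).card - f t)) ≤ n := by
    have h1 : ((∑ t ∈ T, ((f t - (A.filter fun x => a₀ x = t).card) +
      ((A.filter fun x => a₀ x = t).card - f t)) : ℕ) : ℤ) =
      ∑ t ∈ T, |(((A.filter fun x => a₀ x = t).card : ℕ) : ℤ) - f t| := by
      rw [Nat.cast_sum]
      refine Finset.sum_congr rfl fun t _ => ?_
      rcases le_total (f t) (A.filter fun x => a₀ x = t).card with h | h
      · rw [abs_of_nonneg (by omega)]
        omega
      · rw [abs_of_nonpos (by omega)]
        omega
    have h2 := hn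
    rw [← h1] at h2
    exact_mod_cast h2
  have hpart : ∑ t ∈ T, (A.filter fun x => a₀ x = t).card + (A.filter fun x => a₀ x ∉ T).card =
      A.card := by
    have h1 : (A.filter fun x => a₀ x ∈ T).card = ∑ t ∈ T, (A.filter fun x => a₀ x = t).card := by
      have hmt : ∀ x ∈ A.filter (fun x => a₀ x ∈ T), a₀ x ∈ T :=
        fun x hx => (Finset.mem_filter.1 hx).2
      rw [Finset.card_eq_sum_card_fiberwise hmt]
      refine Finset.sum_congr rfl fun t ht => ?_
      rw [Finset.filter_filter]
      congr 1
      refine Finset.filter_congr fun x _ => ?_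
      constructor
      · exact fun h => h.2
      · exact fun h => ⟨h ▸ ht, h⟩
    rw [← h1]
    exact Finset.card_filter_add_card_filter_not _
  have hle : ∑ t ∈ T, (A.filter fun x => a₀ x = t).card +
      ∑ t ∈ T, (f t - (A.filter fun x => a₀ x = t).card) ≤ ∑ t ∈ T, f t +
      ∑ t ∈ T, ((f t - (A.filter fun x => a₀ x = t).card) +
      ((A.filter fun x => a₀ x = t).card - f t)) := by
    rw [← Finset.sum_add_distrib, ← Finset.sum_add_distrib]
    refine Finset.sum_le_sum fun t _ => ?_
    omega
  obtain ⟨a, h1, h2, h3, h4⟩ := Asg.aux A u a₀ f T hu (A.filter fun x => a₀ x ∉ T)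
    (Finset.filter_subset _ _) (fun x hx => (Finset.mem_filter.1 hx).2) (by omega)
  refine ⟨a, h1, h2.trans hsum, h3, fun x hx => ?_⟩
  rcases h4 x hx with h | h | h
  · exact Or.inl h
  · exact Or.inr (Or.inl h.2)
  · exact Or.inr (Or.inr h.2)

end Pool.Agent.H414.DF
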