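import Pool.Agent.H414.DF.Spec

/-!
The bias (helper588, for helper414).
-/

set_option autoImplicit false
set_option linter.unusedSectionVars false

namespace Pool.Agent.H414.DF

open Finset
open Pool.Agent.H414.LT (primesUpTo blk kk)

namespace Bias

theorem e2_pos (x : ℝ) : 0 < e2 x := Real.rpow_pos_of_pos (by norm_num) x

theorem e2_add (x y : ℝ) : e2 (x + y) = e2 x * e2 y := Real.rpow_add (by norm_num) x y

theorem e2_mono {x y : ℝ} (h : x ≤ y) : e2 x ≤ e2 y :=
  Real.rpow_le_rpow_of_exponent_le (by norm_num) h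

theorem e2_zero : e2 0 = 1 := Real.rpow_zero 2

theorem e2_rpow (x y : ℝ) : e2 x ^ y = e2 (x * y) := (Real.rpow_mul (by norm_num) x y).symm

theorem e2_pow (x : ℝ) (n : ℕ) : e2 x ^ n = e2 (n * x) := by
  rw [← Real.rpow_natCast, e2_rpow, mul_comm]

theorem e2_nat (n : ℕ) : e2 n = 2 ^ n := Real.rpow_natCast 2 n

theorem one_le_e2 {x : ℝ} (h : 0 ≤ x) : 1 ≤ e2 x := by
  rw [← e2_zero]
  exact e2_mono h

theorem th_pos (r : ℕ) : 0 < th r := by
  unfold th
  positivity

theorem th_mul (r : ℕ) : th r * (4 * (r : ℝ) + 1) = 1 := by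
  unfold th
  field_simp

theorem th_le {r : ℕ} (hr : 1 ≤ r) : th r ≤ 1 / 5 := by
  unfold th
  have h : (1 : ℝ) ≤ r := by exact_mod_cast hr
  rw [div_le_div_iff₀ (by positivity) (by norm_num)]
  linarith

section l2

variable {α : Type} [Fintype α] (G : α → ℂ)

theorem l2_nonneg : 0 ≤ l2 G := Real.sqrt_nonneg _

theorem l2_sq : l2 G ^ 2 = ∑ x, ‖G x‖ ^ 2 :=
  Real.sq_sqrt (Finset.sum_nonneg fun _ _ => by positivity)

theorem norm_le_l2 (x : α) : ‖G x‖ ≤ l2 G := by
  unfold l2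
  refine Real.le_sqrt_of_sq_le ?_
  exact Finset.single_le_sum (f := fun x => ‖G x‖ ^ 2) (fun _ _ => by positivity)
    (Finset.mem_univ x)

end l2

variable {r : ℕ} {w : ℕ → (Fin r → ℤ) → ℝ} {C : ℝ}

theorem C_nonneg (hw : IsW r w C) : 0 ≤ C := by
  have h1 := (hw.nonneg 0 0).trans (hw.sup 0 0)
  by_contra h
  rw [not_le] at h
  have := mul_neg_of_neg_of_pos h (e2_pos (-(((0 : ℕ) : ℝ) * r / 2)))
  linarith

/-- the mean of `G` -/
theorem norm_mean (hw : IsW r w C) {q : ℕ} [NeZero q] (G : (Fin r → ZMod q) → ℂ) {L : ℝ}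
    (hL : ∀ γ, ‖G γ‖ ≤ L) (k : ℕ) :
    ‖∑ a ∈ box r (2 ^ k), (w k a : ℂ) * G (red q a)‖ ≤ L := by
  calc ‖∑ a ∈ box r (2 ^ k), (w k a : ℂ) * G (red q a)‖
      ≤ ∑ a ∈ box r (2 ^ k), w k a * L := by
        refine norm_sum_le_of_le _ fun a _ => ?_
        rw [norm_mul, Complex.norm_real, Real.norm_of_nonneg (hw.nonneg k a)]
        exact mul_le_mul_of_nonneg_left (hL _) (hw.nonneg k a)
    _ = L := by rw [← Finset.sum_mul, hw.sum k, one_mul]

/-- expansion of the bias -/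
theorem expand {q : ℕ} [NeZero q] (G : (Fin r → ZMod q) → ℂ) (k : ℕ) {t : Fin r → ℤ}
    (ht : t ∈ box r (2 ^ k)) :
    ∑ a ∈ box r (2 ^ k), (kap w k t a : ℂ) * G (red q a) =
      G (red q t) -
        ∑ a ∈ box r (2 ^ k), ((w k a * Kr r (Q r k) (a - t) : ℝ) : ℂ) * G (red q a) +
        (Lt w k t : ℂ) * ∑ a ∈ box r (2 ^ k), (w k a : ℂ) * G (red q a) := by
  have h1 : ∑ a ∈ box r (2 ^ k), (if a = t then (1 : ℂ) else 0) * G (red q a) = G (red q t) := by
    rw [Finset.sum_eq_single t]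
    · rw [if_pos rfl, one_mul]
    · intro b _ hb
      rw [if_neg hb, zero_mul]
    · intro h
      exact absurd ht h
  rw [← h1, Finset.mul_sum, ← Finset.sum_sub_distrib, ← Finset.sum_add_distrib]
  refine Finset.sum_congr rfl fun a _ => ?_
  unfold kap
  by_cases h : a = t
  · simp only [if_pos h]
    push_cast
    ring
  · simp only [if_neg h]
    push_cast
    ring

/-- the second moment of `G` -/
theorem mean_sq (hw : IsW r w C) {q : ℕ} [NeZero q] (G : (Fin r → ZMod q) → ℂ) (k : ℕ)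
    (hq : (q : ℝ) ≤ e2 (k / 2)) :
    ∑ a ∈ box r (2 ^ k), w k a * ‖G (red q a)‖ ^ 2 ≤ C / (q : ℝ) ^ r * l2 G ^ 2 := by
  rw [← Finset.sum_fiberwise (box r (2 ^ k)) (red q) (fun a => w k a * ‖G (red q a)‖ ^ 2), l2_sq,
    Finset.mul_sum]
  refine Finset.sum_le_sum fun c _ => ?_
  have h1 : ∑ a ∈ (box r (2 ^ k)).filter (fun a => red q a = c), w k a * ‖G (red q a)‖ ^ 2 =
      (∑ a ∈ (box r (2 ^ k)).filter (fun a => red q a = c), w k a) * ‖G c‖ ^ 2 := by
    rw [Finset.sum_mul]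
    refine Finset.sum_congr rfl fun a ha => ?_
    rw [(Finset.mem_filter.1 ha).2]
  rw [h1]
  exact mul_le_mul_of_nonneg_right (hw.cls k q hq c) (by positivity)

theorem cauchy (hw : IsW r w C) {q : ℕ} [NeZero q] (G : (Fin r → ZMod q) → ℂ) (k : ℕ)
    (t : Fin r → ℤ) (hq : (q : ℝ) ≤ e2 (k / 2)) {M : ℝ}
    (hM : ∑ a ∈ box r (2 ^ k), w k a * Kr r (Q r k) (a - t) ^ 2 ≤ M) :
    ‖∑ a ∈ box r (2 ^ k), ((w k a * Kr r (Q r k) (a - t) : ℝ) : ℂ) * G (red q a)‖ ^ 2 ≤
      M * (C / (q : ℝ) ^ r * l2 G ^ 2) := by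
  have h1 : ‖∑ a ∈ box r (2 ^ k), ((w k a * Kr r (Q r k) (a - t) : ℝ) : ℂ) * G (red q a)‖ ≤
      ∑ a ∈ box r (2 ^ k), (√(w k a) * |Kr r (Q r k) (a - t)|) * (√(w k a) * ‖G (red q a)‖) := by
    refine norm_sum_le_of_le _ fun a _ => ?_
    have h2 : √(w k a) * √(w k a) = w k a := Real.mul_self_sqrt (hw.nonneg k a)
    rw [norm_mul, Complex.norm_real, Real.norm_eq_abs, abs_mul, abs_of_nonneg (hw.nonneg k a)]
    refine le_of_eq ?_
    calc w k a * |Kr r (Q r k) (a - t)| * ‖G (red q a)‖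
        = (√(w k a) * √(w k a)) * |Kr r (Q r k) (a - t)| * ‖G (red q a)‖ := by rw [h2]
      _ = _ := by ring
  have h3 := Finset.sum_mul_sq_le_sq_mul_sq (box r (2 ^ k))
    (fun a => √(w k a) * |Kr r (Q r k) (a - t)|) (fun a => √(w k a) * ‖G (red q a)‖)
  have h4 : ∑ a ∈ box r (2 ^ k), (√(w k a) * |Kr r (Q r k) (a - t)|) ^ 2 ≤ M := by
    refine le_trans (le_of_eq ?_) hM
    refine Finset.sum_congr rfl fun a _ => ?_
    rw [mul_pow, Real.sq_sqrt (hw.nonneg k a), sq_abs]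
  have h5 : ∑ a ∈ box r (2 ^ k), (√(w k a) * ‖G (red q a)‖) ^ 2 ≤
      C / (q : ℝ) ^ r * l2 G ^ 2 := by
    refine le_trans (le_of_eq ?_) (mean_sq hw G k hq)
    refine Finset.sum_congr rfl fun a _ => ?_
    rw [mul_pow, Real.sq_sqrt (hw.nonneg k a)]
  refine (pow_le_pow_left₀ (norm_nonneg _) h1 2).trans (h3.trans ?_)
  exact mul_le_mul h4 h5 (Finset.sum_nonneg fun _ _ => by positivity)
    ((Finset.sum_nonneg fun _ _ => by positivity).trans h4)

/-- `q ≤ 2 ^ (k / 2)` -/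
theorem q_le {k q : ℕ} (h : q ^ 3 ≤ 2 ^ (k + 1)) : (q : ℝ) ≤ e2 (k / 2) := by
  rcases Nat.lt_or_ge k 2 with hk | hk
  · have hq : q ≤ 1 := by
      by_contra hlt
      have h1 : 2 ^ 3 ≤ q ^ 3 := Nat.pow_le_pow_left (by omega) 3
      have h2 : 2 ^ (k + 1) ≤ 2 ^ 2 := Nat.pow_le_pow_right (by norm_num) (by omega)
      omega
    have h3 : (q : ℝ) ≤ 1 := by exact_mod_cast hq
    exact h3.trans (one_le_e2 (by positivity))
  · have h1 : ((q : ℝ)) ^ 3 ≤ (e2 (k / 2)) ^ 3 := by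
      rw [e2_pow]
      calc ((q : ℝ)) ^ 3 ≤ ((2 ^ (k + 1) : ℕ) : ℝ) := by exact_mod_cast h
        _ = e2 ((k + 1 : ℕ) : ℝ) := by rw [e2_nat]; push_cast; rfl
        _ ≤ _ := by
            refine e2_mono ?_
            have : (2 : ℝ) ≤ k := by exact_mod_cast hk
            push_cast
            linarith
    exact (pow_le_pow_iff_left₀ (Nat.cast_nonneg q) (e2_pos _).le (by norm_num)).1 h1

end Bias

open Bias

theorem bias (hDEL : S_DEL) (hLT : S_LT) (hMOM : S_MOM) (hTAU : S_TAU) : S_BIAS := by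
  intro r w C hr hw ε hε
  obtain ⟨C1, h1⟩ := hLT r w C hr hw
  obtain ⟨C2, h2⟩ := hDEL r w C hr hw
  obtain ⟨C3, h3⟩ := hTAU (ε / 2) (half_pos hε)
  obtain ⟨C4, h4⟩ := hMOM r w C hr hw (2 * ε) (by positivity)
  have hC := C_nonneg hw
  have hr1 : (1 : ℝ) ≤ r := by exact_mod_cast hr
  have hth := th_pos r
  have hth5 := th_le hr
  refine ⟨1 + |C1| + |C2| + C3 ^ 2 * e2 ε + √(|C4| * C), fun k q _ G t ht hq => ?_⟩
  set L := l2 G with hLdef
  have hL0 : 0 ≤ L := l2_nonneg G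
  have hGL : ∀ γ, ‖G γ‖ ≤ L := norm_le_l2 G
  set s := e2 (k * th r) with hs
  have hk0 : (0 : ℝ) ≤ k := Nat.cast_nonneg k
  have hs1 : 1 ≤ s := one_le_e2 (by positivity)
  have hs0 : 0 < s := by linarith
  have hq1 : (1 : ℝ) ≤ q := by exact_mod_cast Nat.one_le_iff_ne_zero.2 (NeZero.ne q)
  have hq0 : (0 : ℝ) < q := by linarith
  set ρ := ((q : ℝ) / s) ^ ((r : ℝ) + 1 / 2) with hρ
  have hρ0 : 0 < ρ := Real.rpow_pos_of_pos (by positivity) _
  set E := e2 (ε * k) with hE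
  have hE1 : 1 ≤ E := one_le_e2 (by positivity)
  have hE0 : 0 ≤ E := by linarith
  have hC1 : 0 ≤ |C1| := abs_nonneg _
  have hC2 : 0 ≤ |C2| := abs_nonneg _
  have hC3 : 0 ≤ C3 ^ 2 * e2 ε := mul_nonneg (sq_nonneg _) (e2_pos _).le
  have hC4 : 0 ≤ √(|C4| * C) := Real.sqrt_nonneg _
  -- the small terms
  have he2k : e2 (-(2 * k)) ≤ 1 := by
    rw [← e2_zero]
    exact e2_mono (by linarith)
  have hLt : |Lt w k t| ≤ |C1| * e2 (-(2 * k)) :=
    (h1 k t).trans (mul_le_mul_of_nonneg_right (le_abs_self _) (e2_pos _).le)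
  have hmean := norm_mean hw G hGL k
  have hLtB : ‖(Lt w k t : ℂ) * ∑ a ∈ box r (2 ^ k), (w k a : ℂ) * G (red q a)‖ ≤
      |C1| * e2 (-(2 * k)) * L := by
    rw [norm_mul, Complex.norm_real, Real.norm_eq_abs]
    exact mul_le_mul hLt hmean (norm_nonneg _) (mul_nonneg hC1 (e2_pos _).le)
  rw [expand G k ht]
  set A := ∑ a ∈ box r (2 ^ k), ((w k a * Kr r (Q r k) (a - t) : ℝ) : ℂ) * G (red q a) with hA
  set B := (Lt w k t : ℂ) * ∑ a ∈ box r (2 ^ k), (w k a : ℂ) * G (red q a) with hB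
  -- reduction to `L > 0`
  rcases eq_or_lt_of_le hL0 with hL | hL
  · have hG0 : ∀ γ, G γ = 0 := fun γ => norm_le_zero_iff.1 ((hGL γ).trans (le_of_eq hL.symm))
    have hA0 : A = 0 := Finset.sum_eq_zero fun a _ => by rw [hG0, mul_zero]
    have hB0 : B = 0 := by
      rw [hB, Finset.sum_eq_zero fun a _ => by rw [hG0, mul_zero], mul_zero]
    rw [hG0, hA0, hB0, ← hL]
    simp
  -- `S_DEL` for `G`
  have hDEL' : (q : ℝ) * s ≤ e2 (9 * k / 20) →
      (q ≤ Q r k → ‖A - G (red q t)‖ ≤ |C2| * e2 (-(2 * k)) * L) ∧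
      ‖A‖ ≤ ((q.divisors.card : ℝ) ^ 2 + |C2|) * L := by
    intro hqs
    obtain ⟨h5, h6⟩ := h2 k q t (fun γ => G γ / L) hqs (fun γ => by
      rw [norm_div, Complex.norm_real, Real.norm_of_nonneg hL0]
      exact div_le_one_of_le₀ (hGL γ) hL0)
    have h7 : ∑ a ∈ box r (2 ^ k), ((w k a * Kr r (Q r k) (a - t) : ℝ) : ℂ) *
        (G (red q a) / L) = A / L := by
      rw [hA, Finset.sum_div]
      exact Finset.sum_congr rfl fun a _ => by rw [mul_div_assoc]
    rw [h7] at h5 h6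
    refine ⟨fun hqQ => ?_, ?_⟩
    · have h8 := h5 hqQ
      rw [← sub_div, norm_div, Complex.norm_real, Real.norm_of_nonneg hL0, div_le_iff₀ hL] at h8
      refine h8.trans (mul_le_mul_of_nonneg_right ?_ hL0)
      exact mul_le_mul_of_nonneg_right (le_abs_self _) (e2_pos _).le
    · rw [norm_div, Complex.norm_real, Real.norm_of_nonneg hL0, div_le_iff₀ hL] at h6
      refine h6.trans (mul_le_mul_of_nonneg_right ?_ hL0)
      linarith [le_abs_self C2]
  rcases Nat.lt_or_ge (Q r k) q with hqQ | hqQ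
  · -- `q > Q`
    have hqs : s ≤ q := by
      have h5 : s < (Q r k : ℝ) + 1 := Nat.lt_floor_add_one s
      have h6 : ((Q r k + 1 : ℕ) : ℝ) ≤ q := by exact_mod_cast hqQ
      push_cast at h6
      linarith
    have hρ1 : 1 ≤ ρ := Real.one_le_rpow ((one_le_div hs0).2 hqs) (by positivity)
    have hEρ : 1 ≤ E * ρ := by nlinarith
    rcases le_or_gt ((q : ℝ) ^ 4) (s ^ 5) with hcase | hcase
    · -- (B)
      have h5 : (q : ℝ) * s ≤ e2 (9 * k / 20) := by
        have h6 : ((q : ℝ) * s) ^ 4 ≤ (e2 (9 * k / 20)) ^ 4 := by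
          calc ((q : ℝ) * s) ^ 4 = (q : ℝ) ^ 4 * s ^ 4 := by ring
            _ ≤ s ^ 5 * s ^ 4 := mul_le_mul_of_nonneg_right hcase (by positivity)
            _ = s ^ 9 := by ring
            _ = e2 (((9 : ℕ) : ℝ) * (k * th r)) := by rw [hs, e2_pow]
            _ ≤ e2 (((4 : ℕ) : ℝ) * (9 * k / 20)) := by
                refine e2_mono ?_
                push_cast
                nlinarith
            _ = _ := by rw [e2_pow]
        exact (pow_le_pow_iff_left₀ (by positivity) (e2_pos _).le (by norm_num)).1 h6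
      have h6 := (hDEL' h5).2
      have h7 : (q.divisors.card : ℝ) ^ 2 ≤ C3 ^ 2 * e2 ε * E := by
        have h8 := h3 q (Nat.one_le_iff_ne_zero.2 (NeZero.ne q))
        have h9 : (q : ℝ) ≤ e2 ((k : ℝ) + 1) := by
          have h10 : q ≤ 2 ^ (k + 1) := by
            refine le_trans ?_ hq
            calc q = q ^ 1 := (pow_one q).symm
              _ ≤ q ^ 3 := Nat.pow_le_pow_right (Nat.pos_of_ne_zero (NeZero.ne q)) (by norm_num)
          have h11 : e2 ((k : ℝ) + 1) = ((2 ^ (k + 1) : ℕ) : ℝ) := by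
            have h12 := e2_nat (k + 1)
            push_cast at h12 ⊢
            exact h12
          rw [h11]
          exact_mod_cast h10
        have h10 : ((q : ℝ) ^ (ε / 2)) ^ 2 ≤ e2 ε * E := by
          rw [← Real.rpow_natCast, ← Real.rpow_mul hq0.le]
          have h11 : ε / 2 * ((2 : ℕ) : ℝ) = ε := by push_cast; ring
          rw [h11]
          calc (q : ℝ) ^ ε ≤ (e2 ((k : ℝ) + 1)) ^ ε := Real.rpow_le_rpow hq0.le h9 hε.le
            _ = e2 ε * E := by
                rw [e2_rpow, hE, ← e2_add]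
                congr 1
                ring
        calc (q.divisors.card : ℝ) ^ 2 ≤ (C3 * (q : ℝ) ^ (ε / 2)) ^ 2 :=
              pow_le_pow_left₀ (Nat.cast_nonneg _) h8 2
          _ = C3 ^ 2 * ((q : ℝ) ^ (ε / 2)) ^ 2 := by ring
          _ ≤ C3 ^ 2 * (e2 ε * E) := mul_le_mul_of_nonneg_left h10 (sq_nonneg _)
          _ = _ := by ring
      have h8 : ‖G (red q t) - A + B‖ ≤
          (1 + |C1| + |C2| + C3 ^ 2 * e2 ε) * E * L := by
        calc ‖G (red q t) - A + B‖ ≤ ‖G (red q t)‖ + ‖A‖ + ‖B‖ :=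
              (norm_add_le _ _).trans (add_le_add (norm_sub_le _ _) le_rfl)
          _ ≤ L + ((q.divisors.card : ℝ) ^ 2 + |C2|) * L + |C1| * e2 (-(2 * k)) * L :=
              add_le_add (add_le_add (hGL _) h6) hLtB
          _ ≤ L + (C3 ^ 2 * e2 ε * E + |C2|) * L + |C1| * 1 * L := by
              gcongr
          _ = (1 + |C1| + |C2| + C3 ^ 2 * e2 ε * E) * L := by ring
          _ ≤ ((1 + |C1| + |C2|) * E + C3 ^ 2 * e2 ε * E) * L := by
              refine mul_le_mul_of_nonneg_right ?_ hL0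
              nlinarith
          _ = _ := by ring
      have hK0 : 0 ≤ 1 + |C1| + |C2| + C3 ^ 2 * e2 ε + √(|C4| * C) := by linarith
      calc ‖G (red q t) - A + B‖ ≤ (1 + |C1| + |C2| + C3 ^ 2 * e2 ε) * E * L := h8
        _ ≤ (1 + |C1| + |C2| + C3 ^ 2 * e2 ε + √(|C4| * C)) * E * L := by
            refine mul_le_mul_of_nonneg_right ?_ hL0
            refine mul_le_mul_of_nonneg_right ?_ hE0
            linarith
        _ = (1 + |C1| + |C2| + C3 ^ 2 * e2 ε + √(|C4| * C)) * E * 1 * L := by ring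
        _ ≤ (1 + |C1| + |C2| + C3 ^ 2 * e2 ε + √(|C4| * C)) * E * ρ * L := by
            refine mul_le_mul_of_nonneg_right ?_ hL0
            exact mul_le_mul_of_nonneg_left hρ1 (mul_nonneg hK0 hE0)
    · -- (C)
      have h5 := cauchy hw G k t (q_le hq) (h4 k t ht)
      have h6 : s ^ (3 * r + 2) ≤ (q : ℝ) ^ (3 * r + 1) := by
        have h7 : (s ^ (3 * r + 2)) ^ 4 ≤ ((q : ℝ) ^ (3 * r + 1)) ^ 4 := by
          calc (s ^ (3 * r + 2)) ^ 4 = s ^ (4 * (3 * r + 2)) := by rw [← pow_mul]; ring_nf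
            _ ≤ s ^ (5 * (3 * r + 1)) := pow_le_pow_right₀ hs1 (by omega)
            _ = (s ^ 5) ^ (3 * r + 1) := by rw [← pow_mul]
            _ ≤ ((q : ℝ) ^ 4) ^ (3 * r + 1) :=
                pow_le_pow_left₀ (by positivity) hcase.le _
            _ = ((q : ℝ) ^ (3 * r + 1)) ^ 4 := by rw [← pow_mul, ← pow_mul]; ring_nf
        exact (pow_le_pow_iff_left₀ (by positivity) (by positivity) (by norm_num)).1 h7
      have h7 : ρ ^ 2 = ((q : ℝ) / s) ^ (2 * r + 1) := by
        rw [hρ, ← Real.rpow_natCast, ← Real.rpow_mul (by positivity), ← Real.rpow_natCast]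
        congr 1
        push_cast
        ring
      have h8 : e2 (k * (2 * ε + (r + 1) * th r)) = E ^ 2 * s ^ (r + 1) := by
        rw [hE, hs, e2_pow, e2_pow, ← e2_add]
        congr 1
        push_cast
        ring
      have h9 : s ^ (r + 1) / (q : ℝ) ^ r ≤ ρ ^ 2 := by
        rw [h7, div_pow, div_le_div_iff₀ (by positivity) (by positivity), ← pow_add, ← pow_add]
        have ha : r + 1 + (2 * r + 1) = 3 * r + 2 := by ring
        have hb : 2 * r + 1 + r = 3 * r + 1 := by ring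
        rw [ha, hb]
        exact h6
      have h10 : ‖A‖ ^ 2 ≤ (√(|C4| * C) * E * ρ * L) ^ 2 := by
        calc ‖A‖ ^ 2 ≤ C4 * e2 (k * (2 * ε + (r + 1) * th r)) *
              (C / (q : ℝ) ^ r * L ^ 2) := h5
          _ ≤ |C4| * e2 (k * (2 * ε + (r + 1) * th r)) * (C / (q : ℝ) ^ r * L ^ 2) := by
              refine mul_le_mul_of_nonneg_right ?_ (by positivity)
              exact mul_le_mul_of_nonneg_right (le_abs_self _) (e2_pos _).le
          _ = (|C4| * C) * E ^ 2 * (s ^ (r + 1) / (q : ℝ) ^ r) * L ^ 2 := by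
              rw [h8]
              ring
          _ ≤ (|C4| * C) * E ^ 2 * ρ ^ 2 * L ^ 2 := by
              refine mul_le_mul_of_nonneg_right ?_ (by positivity)
              exact mul_le_mul_of_nonneg_left h9 (by positivity)
          _ = _ := by
              rw [mul_pow, mul_pow, mul_pow, Real.sq_sqrt (by positivity)]
      have h11 : ‖A‖ ≤ √(|C4| * C) * E * ρ * L :=
        (pow_le_pow_iff_left₀ (norm_nonneg _) (by positivity) (by norm_num)).1 h10
      calc ‖G (red q t) - A + B‖ ≤ ‖G (red q t)‖ + ‖A‖ + ‖B‖ :=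
            (norm_add_le _ _).trans (add_le_add (norm_sub_le _ _) le_rfl)
        _ ≤ L + √(|C4| * C) * E * ρ * L + |C1| * e2 (-(2 * k)) * L :=
            add_le_add (add_le_add (hGL _) h11) hLtB
        _ ≤ L + √(|C4| * C) * E * ρ * L + |C1| * 1 * L := by gcongr
        _ = (1 + |C1|) * 1 * L + √(|C4| * C) * E * ρ * L := by ring
        _ ≤ (1 + |C1|) * (E * ρ) * L + √(|C4| * C) * E * ρ * L := by
            refine add_le_add ?_ le_rfl
            refine mul_le_mul_of_nonneg_right ?_ hL0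
            exact mul_le_mul_of_nonneg_left hEρ (by linarith)
        _ ≤ (1 + |C1| + |C2| + C3 ^ 2 * e2 ε) * (E * ρ) * L + √(|C4| * C) * E * ρ * L := by
            refine add_le_add ?_ le_rfl
            refine mul_le_mul_of_nonneg_right ?_ hL0
            refine mul_le_mul_of_nonneg_right ?_ (mul_nonneg hE0 hρ0.le)
            linarith
        _ = _ := by ring
  · -- (A)
    have hqs : (q : ℝ) ≤ s := by
      have h5 : ((Q r k : ℕ) : ℝ) ≤ s := Nat.floor_le hs0.le
      have h6 : (q : ℝ) ≤ (Q r k : ℝ) := by exact_mod_cast hqQ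
      linarith
    have h5 : (q : ℝ) * s ≤ e2 (9 * k / 20) := by
      calc (q : ℝ) * s ≤ s * s := mul_le_mul_of_nonneg_right hqs hs0.le
        _ = e2 (k * th r + k * th r) := by rw [hs, e2_add]
        _ ≤ e2 (9 * k / 20) := by
            refine e2_mono ?_
            nlinarith
    have h6 := (hDEL' h5).1 hqQ
    have h7 : e2 (-(2 * k)) ≤ ρ := by
      calc e2 (-(2 * k)) ≤ e2 (-(k * th r) * ((r : ℝ) + 1 / 2)) := by
            refine e2_mono ?_
            have h8 := th_mul r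
            have h9 : th r * ((r : ℝ) + 1 / 2) ≤ 2 := by nlinarith
            nlinarith
        _ = (1 / s) ^ ((r : ℝ) + 1 / 2) := by
            have h8 : 1 / s = e2 (-(k * th r)) := by
              rw [hs, eq_comm, eq_div_iff (e2_pos _).ne', ← e2_add, neg_add_cancel, e2_zero]
            rw [h8, e2_rpow]
        _ ≤ ρ := Real.rpow_le_rpow (by positivity) (div_le_div_of_nonneg_right hq1 hs0.le)
            (by positivity)
    calc ‖G (red q t) - A + B‖ = ‖-(A - G (red q t)) + B‖ := by congr 1; ring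
      _ ≤ ‖A - G (red q t)‖ + ‖B‖ := by
          refine (norm_add_le _ _).trans (le_of_eq ?_)
          rw [norm_neg]
      _ ≤ |C2| * e2 (-(2 * k)) * L + |C1| * e2 (-(2 * k)) * L := add_le_add h6 hLtB
      _ = (|C1| + |C2|) * 1 * e2 (-(2 * k)) * L := by ring
      _ ≤ (|C1| + |C2|) * E * ρ * L := by
          refine mul_le_mul_of_nonneg_right ?_ hL0
          refine mul_le_mul ?_ h7 (e2_pos _).le (mul_nonneg (by linarith) hE0)
          exact mul_le_mul_of_nonneg_left hE1 (by linarith)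
      _ ≤ _ := by
          refine mul_le_mul_of_nonneg_right ?_ hL0
          refine mul_le_mul_of_nonneg_right ?_ hρ0.le
          refine mul_le_mul_of_nonneg_right ?_ hE0
          linarith

end Pool.Agent.H414.DF
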