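import Pool.Agent.H414.DF.Spec

set_option autoImplicit false

namespace Pool.Agent.H414.DF

open Finset
open Pool.Agent.H414.LT (primesUpTo blk kk)

namespace Cnt

theorem e2_pos (x : ℝ) : 0 < e2 x := Real.rpow_pos_of_pos (by norm_num) _

theorem e2_add (x y : ℝ) : e2 (x + y) = e2 x * e2 y := Real.rpow_add (by norm_num) _ _

theorem e2_mono {x y : ℝ} (h : x ≤ y) : e2 x ≤ e2 y :=
  Real.rpow_le_rpow_of_exponent_le (by norm_num) h

theorem e2_nat (n : ℕ) : e2 n = 2 ^ n := Real.rpow_natCast _ _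

theorem e2_zero : e2 0 = 1 := Real.rpow_zero _

theorem poly_bd (n : ℕ) (η : ℝ) (hη : 0 < η) :
    ∃ P : ℝ, 0 < P ∧ ∀ k : ℕ, (2 * (k : ℝ) + 1) ^ n ≤ P * e2 (k * η) := by
  have h1 : 1 < e2 η := by
    rw [← e2_zero]
    exact Real.rpow_lt_rpow_of_exponent_lt (by norm_num) hη
  have h2 := tendsto_pow_const_div_const_pow_of_one_lt n h1
  obtain ⟨B, hB⟩ := h2.bddAbove_range
  have hB' : ∀ k : ℕ, (k : ℝ) ^ n ≤ (|B| + 1) * e2 (k * η) := by
    intro k
    have h3 : (k : ℝ) ^ n / e2 η ^ k ≤ B := hB ⟨k, rfl⟩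
    have h4 : 0 < e2 η ^ k := pow_pos (e2_pos _) _
    rw [div_le_iff₀ h4] at h3
    have h5 : e2 (k * η) = e2 η ^ k := by
      unfold e2
      rw [mul_comm, Real.rpow_mul (by norm_num), Real.rpow_natCast]
    rw [h5]
    have h6 : B ≤ |B| + 1 := by linarith [le_abs_self B]
    nlinarith
  refine ⟨3 ^ n * (|B| + 1) + 1, by positivity, fun k => ?_⟩
  have hpos := e2_pos (k * η)
  rcases Nat.eq_zero_or_pos k with h0 | h0
  · subst h0
    simp only [Nat.cast_zero, mul_zero, zero_add, one_pow, zero_mul, e2_zero, mul_one]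
    have : (0 : ℝ) ≤ 3 ^ n * (|B| + 1) := by positivity
    linarith
  · have h7 : (1 : ℝ) ≤ k := by exact_mod_cast h0
    calc (2 * (k : ℝ) + 1) ^ n ≤ (3 * k) ^ n := pow_le_pow_left₀ (by positivity) (by linarith) n
      _ = 3 ^ n * (k : ℝ) ^ n := by rw [mul_pow]
      _ ≤ 3 ^ n * ((|B| + 1) * e2 (k * η)) := mul_le_mul_of_nonneg_left (hB' k) (by positivity)
      _ ≤ (3 ^ n * (|B| + 1) + 1) * e2 (k * η) := by nlinarith

theorem card_blk (k : ℕ) : ((blk k).card : ℝ) ≤ e2 k := by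
  rw [e2_nat]
  have h1 : (blk k).card ≤ 2 ^ k := by
    unfold blk
    refine (card_filter_le _ _).trans ?_
    rw [Nat.card_Ioc, pow_succ]
    omega
  exact_mod_cast h1

theorem mem_T {r k : ℕ} {t : Fin r → ℤ} (h : t ∈ T r k) (i : Fin r) : |t i| ≤ k := by
  unfold T box at h
  rw [Fintype.mem_piFinset] at h
  have h1 := h i
  rw [Finset.mem_Icc, Nat.sqrt_eq'] at h1
  exact abs_le.mpr h1

theorem card_T (r k : ℕ) : ((T r k).card : ℝ) = (2 * (k : ℝ) + 1) ^ r := by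
  unfold T box
  rw [Fintype.card_piFinset_const, Nat.sqrt_eq', Int.card_Icc]
  have h1 : ((k : ℤ) + 1 - -(k : ℤ)).toNat = 2 * k + 1 := by omega
  rw [h1]
  push_cast
  rfl

/-- the bound of `μ` in a block -/
theorem mu_bd {r : ℕ} {μ : ℕ → (Fin r → ℤ) → ℝ} (hr : 1 ≤ r) (hμ : IsRef r μ) {η C₁ : ℝ}
    (hη : 0 < η) (hC : ∀ p : ℕ, p.Prime → ∀ b, μ p b ≤ C₁ * (p : ℝ) ^ (η - r / 2)) (k : ℕ)
    (t : Fin r → ℤ) :
    |∑ p ∈ blk k, μ p t| ≤ |C₁| * e2 η * e2 (k * (1 / 2 + η)) := by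
  have hr' : (1 : ℝ) ≤ r := by exact_mod_cast hr
  have h1 : ∀ p ∈ blk k, |μ p t| ≤ |C₁| * e2 η * e2 (k * (η - 1 / 2)) := by
    intro p hp
    have hp' := hp
    unfold blk at hp'
    rw [mem_filter, Finset.mem_Ioc] at hp'
    obtain ⟨⟨h2, h3⟩, h4⟩ := hp'
    rw [abs_of_nonneg (hμ.nonneg p h4 t)]
    refine (hC p h4 t).trans ?_
    have hp0 : (0 : ℝ) < p := by exact_mod_cast h4.pos
    have h5 : (p : ℝ) ^ (η - r / 2) ≤ e2 η * e2 (k * (η - 1 / 2)) := by
      have e1 : (p : ℝ) ^ (η - r / 2) = (p : ℝ) ^ η * (p : ℝ) ^ (-((r : ℝ) / 2)) := by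
        rw [← Real.rpow_add hp0]; congr 1
      have e2' : (p : ℝ) ^ η ≤ e2 ((k + 1) * η) := by
        have h6 : (p : ℝ) ≤ e2 (k + 1) := by
          have : e2 ((k : ℝ) + 1) = ((2 ^ (k + 1) : ℕ) : ℝ) := by
            have := e2_nat (k + 1)
            push_cast at this ⊢
            exact this
          rw [this]
          exact_mod_cast h3
        have h7 : e2 (((k : ℝ) + 1) * η) = e2 (k + 1) ^ η := by
          unfold e2
          rw [Real.rpow_mul (by norm_num)]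
        rw [h7]
        exact Real.rpow_le_rpow hp0.le h6 hη.le
      have e3 : (p : ℝ) ^ (-((r : ℝ) / 2)) ≤ e2 (-(k / 2)) := by
        have h6 : e2 k ≤ (p : ℝ) := by
          rw [e2_nat]
          exact_mod_cast h2.le
        have h7 : e2 (-((k : ℝ) / 2)) = e2 k ^ (-(1 / 2) : ℝ) := by
          unfold e2
          rw [← Real.rpow_mul (by norm_num)]
          congr 1
          ring
        rw [h7]
        calc (p : ℝ) ^ (-((r : ℝ) / 2)) ≤ (p : ℝ) ^ (-(1 / 2) : ℝ) := by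
              refine Real.rpow_le_rpow_of_exponent_le ?_ (by linarith)
              exact_mod_cast h4.one_lt.le
          _ ≤ e2 k ^ (-(1 / 2) : ℝ) :=
              Real.rpow_le_rpow_of_nonpos (e2_pos _) h6 (by norm_num)
      rw [e1]
      calc (p : ℝ) ^ η * (p : ℝ) ^ (-((r : ℝ) / 2)) ≤ e2 ((k + 1) * η) * e2 (-(k / 2)) :=
            mul_le_mul e2' e3 (Real.rpow_nonneg hp0.le _) (e2_pos _).le
        _ = e2 η * e2 (k * (η - 1 / 2)) := by
            rw [← e2_add, ← e2_add]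
            congr 1
            ring
    calc C₁ * (p : ℝ) ^ (η - r / 2) ≤ |C₁| * (p : ℝ) ^ (η - r / 2) :=
          mul_le_mul_of_nonneg_right (le_abs_self _) (Real.rpow_nonneg hp0.le _)
      _ ≤ |C₁| * (e2 η * e2 (k * (η - 1 / 2))) := mul_le_mul_of_nonneg_left h5 (abs_nonneg _)
      _ = |C₁| * e2 η * e2 (k * (η - 1 / 2)) := by ring
  calc |∑ p ∈ blk k, μ p t| ≤ ∑ p ∈ blk k, |μ p t| := abs_sum_le_sum_abs _ _
    _ ≤ ∑ p ∈ blk k, |C₁| * e2 η * e2 (k * (η - 1 / 2)) := sum_le_sum h1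
    _ = ((blk k).card : ℝ) * (|C₁| * e2 η * e2 (k * (η - 1 / 2))) := by
        rw [sum_const, nsmul_eq_mul]
    _ ≤ e2 k * (|C₁| * e2 η * e2 (k * (η - 1 / 2))) := by
        refine mul_le_mul_of_nonneg_right (card_blk k) ?_
        have := e2_pos η
        have := e2_pos (k * (η - 1 / 2))
        positivity
    _ = |C₁| * e2 η * (e2 k * e2 (k * (η - 1 / 2))) := by ring
    _ = |C₁| * e2 η * e2 (k * (1 / 2 + η)) := by
        rw [← e2_add]
        congr 2
        ring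

/-- the exact formula -/
theorem formula {r : ℕ} (μ w : ℕ → (Fin r → ℤ) → ℝ) (m : ℕ → (Fin r → ℤ) → ℝ) (k₁ k : ℕ)
    (hk : k₁ ≤ k) (t : Fin r → ℤ) (ht : t ∈ T r k) (F : ℝ)
    (heq : ((blk k).card : ℝ) * (m k t * (1 - w k t * (Kr r (Q r k) 0 - Lt w k t))) = F) :
    ∑ p ∈ blk k, nu μ w m k₁ p t - F = ∑ p ∈ blk k, μ p t -
      ((blk k).card : ℝ) * ∑ t' ∈ (T r k).erase t,
        m k t' * (w k t * (Kr r (Q r k) (t - t') - Lt w k t')) := by
  have h1 : ∀ p ∈ blk k, nu μ w m k₁ p t = μ p t + ∑ t' ∈ T r k, m k t' * kap w k t' t := by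
    intro p hp
    have h2 := (Pool.Agent.H414.LT.mem_blk.mp hp).2
    unfold nu
    rw [h2, if_pos hk]
  rw [sum_congr rfl h1, sum_add_distrib, sum_const, nsmul_eq_mul, ← add_sum_erase _ _ ht]
  have h3 : kap w k t t = 1 - w k t * (Kr r (Q r k) 0 - Lt w k t) := by
    unfold kap
    rw [if_pos rfl, sub_self]
  have h4 : ∑ t' ∈ (T r k).erase t, m k t' * kap w k t' t =
      -∑ t' ∈ (T r k).erase t, m k t' * (w k t * (Kr r (Q r k) (t - t') - Lt w k t')) := by
    rw [← sum_neg_distrib]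
    refine sum_congr rfl fun t' ht' => ?_
    unfold kap
    rw [if_neg (fun h => (mem_erase.mp ht').1 h.symm)]
    ring
  rw [h3, h4, ← heq]
  ring

/-- the bound of the kernel -/
theorem ker_bd (hK : S_K) {r k : ℕ} (hr : 1 ≤ r) {t t' : Fin r → ℤ} (ht : t ∈ T r k)
    (ht' : t' ∈ T r k) (hne : t ≠ t') :
    |Kr r (Q r k) (t - t')| ≤ e2 (k * (r * th r)) * (2 * k) := by
  obtain ⟨j, hj⟩ : ∃ j, t j ≠ t' j := by
    by_contra h
    push Not at h
    exact hne (funext h)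
  have hj' : (t - t') j ≠ 0 := by
    rw [Pi.sub_apply]
    exact sub_ne_zero.mpr hj
  have h1 := (hK r (Q r k) (t - t') hr).2.1 j hj'
  have h2 : (((t - t') j).natAbs.divisors.card : ℝ) ≤ 2 * k := by
    have h3 : ((t - t') j).natAbs.divisors.card ≤ ((t - t') j).natAbs := Nat.card_divisors_le_self _
    have h4 : ((t - t') j).natAbs ≤ 2 * k := by
      have h5 := mem_T ht j
      have h6 := mem_T ht' j
      rw [abs_le] at h5 h6
      rw [Pi.sub_apply]
      omega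
    exact_mod_cast h3.trans h4
  have h7 : (Q r k : ℝ) ≤ e2 (k * th r) := Nat.floor_le (e2_pos _).le
  have h8 : (Q r k : ℝ) ^ r ≤ e2 (k * (r * th r)) := by
    have h9 : e2 (k * (r * th r)) = e2 (k * th r) ^ r := by
      unfold e2
      rw [← Real.rpow_natCast, ← Real.rpow_mul (by norm_num)]
      congr 1
      ring
    rw [h9]
    exact pow_le_pow_left₀ (by positivity) h7 r
  refine h1.trans (mul_le_mul h8 h2 (by positivity) (e2_pos _).le)

end Cnt

open Cnt in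
theorem cnt (hK : S_K) (hTAU : S_TAU) (hLT : S_LT) : S_CNT := by
  intro r μ w C δ f m k₀ C' hr hμ hw hδ hm k₁ hk₁ ε hε
  obtain ⟨C₁, hC₁⟩ := hμ.upper (ε / 2) (by positivity)
  obtain ⟨CL, hCL⟩ := hLT r w C hr hw
  obtain ⟨P, hP, hPk⟩ := poly_bd (r + 2) (ε / 2) (by positivity)
  have hr' : (1 : ℝ) ≤ r := by exact_mod_cast hr
  refine ⟨P * (|C₁| * e2 (ε / 2) + |C'| * |C| * (1 + |CL|)), fun k hk => ?_⟩
  have hk0 : k₀ ≤ k := hk₁.trans hk
  have hkr : (0 : ℝ) ≤ k := by positivity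
  have hth : 0 < th r := by unfold th; positivity
  -- the bound for one `t`
  have hone : ∀ t ∈ T r k, |∑ p ∈ blk k, nu μ w m k₁ p t - f k t| ≤
      (2 * (k : ℝ) + 1) ^ 2 * (|C₁| * e2 (ε / 2) + |C'| * |C| * (1 + |CL|)) *
        e2 (k * (1 / 2 + ε / 2)) := by
    intro t ht
    rw [formula μ w m k₁ k hk t ht _ (hm.eq k hk0 t ht)]
    have hA := mu_bd hr hμ (by positivity) hC₁ k t
    have hw0 := hw.nonneg k t
    have hwC : w k t ≤ |C| * e2 (-(k / 2)) := by
      refine (hw.sup k t).trans ?_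
      have h1 : e2 (-(k * r / 2)) ≤ e2 (-(k / 2)) := by
        refine e2_mono ?_
        nlinarith
      calc C * e2 (-(k * r / 2)) ≤ |C| * e2 (-(k * r / 2)) :=
            mul_le_mul_of_nonneg_right (le_abs_self _) (e2_pos _).le
        _ ≤ |C| * e2 (-(k / 2)) := mul_le_mul_of_nonneg_left h1 (abs_nonneg _)
    have hL : ∀ t', |Lt w k t'| ≤ |CL| := by
      intro t'
      refine (hCL k t').trans ?_
      have h1 : e2 (-(2 * k)) ≤ 1 := by
        rw [← e2_zero]
        exact e2_mono (by linarith)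
      calc CL * e2 (-(2 * k)) ≤ |CL| * e2 (-(2 * k)) :=
            mul_le_mul_of_nonneg_right (le_abs_self _) (e2_pos _).le
        _ ≤ |CL| * 1 := mul_le_mul_of_nonneg_left h1 (abs_nonneg _)
        _ = |CL| := mul_one _
    have he1 : 1 ≤ e2 (k * (r * th r)) := by
      rw [← e2_zero]
      exact e2_mono (by positivity)
    have hG : ∀ t' ∈ (T r k).erase t, |Kr r (Q r k) (t - t') - Lt w k t'| ≤
        e2 (k * (r * th r)) * (2 * k + |CL|) := by
      intro t' ht'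
      have h1 := ker_bd hK hr ht (mem_erase.mp ht').2 (fun h => (mem_erase.mp ht').1 h.symm)
      have h2 := hL t'
      have h3 : |Kr r (Q r k) (t - t') - Lt w k t'| ≤ |Kr r (Q r k) (t - t')| + |Lt w k t'| :=
        abs_sub _ _
      have h4 : |CL| ≤ e2 (k * (r * th r)) * |CL| := by
        nlinarith [abs_nonneg CL]
      calc |Kr r (Q r k) (t - t') - Lt w k t'| ≤ |Kr r (Q r k) (t - t')| + |Lt w k t'| := h3
        _ ≤ e2 (k * (r * th r)) * (2 * k) + e2 (k * (r * th r)) * |CL| :=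
            add_le_add h1 (h2.trans h4)
        _ = e2 (k * (r * th r)) * (2 * k + |CL|) := by ring
    have hsumm : ∑ t' ∈ (T r k).erase t, m k t' ≤ |C'| * (k + 1) * e2 (-(k * (r * th r))) := by
      calc ∑ t' ∈ (T r k).erase t, m k t' ≤ ∑ t' ∈ T r k, m k t' :=
            sum_le_sum_of_subset_of_nonneg (erase_subset _ _) (fun t' _ _ => hm.nonneg k t')
        _ ≤ C' * (k + 1) * e2 (-(k * (r * th r + δ))) := hm.sum k hk0
        _ ≤ |C'| * (k + 1) * e2 (-(k * (r * th r + δ))) := by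
            refine mul_le_mul_of_nonneg_right ?_ (e2_pos _).le
            exact mul_le_mul_of_nonneg_right (le_abs_self _) (by positivity)
        _ ≤ |C'| * (k + 1) * e2 (-(k * (r * th r))) := by
            refine mul_le_mul_of_nonneg_left (e2_mono ?_) (by positivity)
            nlinarith
    have hB : |((blk k).card : ℝ) * ∑ t' ∈ (T r k).erase t,
        m k t' * (w k t * (Kr r (Q r k) (t - t') - Lt w k t'))| ≤
        |C'| * |C| * ((k + 1) * (2 * k + |CL|)) * e2 (k / 2) := by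
      have h1 : |∑ t' ∈ (T r k).erase t,
          m k t' * (w k t * (Kr r (Q r k) (t - t') - Lt w k t'))| ≤
          (∑ t' ∈ (T r k).erase t, m k t') *
            ((|C| * e2 (-(k / 2))) * (e2 (k * (r * th r)) * (2 * k + |CL|))) := by
        rw [sum_mul]
        refine (abs_sum_le_sum_abs _ _).trans (sum_le_sum fun t' ht' => ?_)
        rw [abs_mul, abs_mul, abs_of_nonneg (hm.nonneg k t'), abs_of_nonneg hw0]
        refine mul_le_mul_of_nonneg_left ?_ (hm.nonneg k t')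
        exact mul_le_mul hwC (hG t' ht') (abs_nonneg _)
          (mul_nonneg (abs_nonneg _) (e2_pos _).le)
      have hpos2 : 0 ≤ (|C| * e2 (-(k / 2))) * (e2 (k * (r * th r)) * (2 * k + |CL|)) := by
        have := e2_pos (-((k : ℝ) / 2))
        have := e2_pos (k * (r * th r))
        positivity
      rw [abs_mul, abs_of_nonneg (by positivity : (0 : ℝ) ≤ ((blk k).card : ℝ))]
      calc ((blk k).card : ℝ) * |∑ t' ∈ (T r k).erase t,
          m k t' * (w k t * (Kr r (Q r k) (t - t') - Lt w k t'))| ≤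
          e2 k * ((|C'| * (k + 1) * e2 (-(k * (r * th r)))) *
            ((|C| * e2 (-(k / 2))) * (e2 (k * (r * th r)) * (2 * k + |CL|)))) := by
            refine mul_le_mul (card_blk k) (h1.trans ?_) (abs_nonneg _) (e2_pos _).le
            exact mul_le_mul_of_nonneg_right hsumm hpos2
        _ = |C'| * |C| * ((k + 1) * (2 * k + |CL|)) *
            (e2 k * e2 (-(k * (r * th r))) * e2 (-(k / 2)) * e2 (k * (r * th r))) := by ring
        _ = |C'| * |C| * ((k + 1) * (2 * k + |CL|)) * e2 (k / 2) := by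
            rw [← e2_add, ← e2_add, ← e2_add]
            congr 2
            ring
    have he2 : e2 (k / 2) ≤ e2 (k * (1 / 2 + ε / 2)) := by
      refine e2_mono ?_
      nlinarith
    have hE := e2_pos (k * (1 / 2 + ε / 2))
    have hCL0 := abs_nonneg CL
    have hpoly : ((k : ℝ) + 1) * (2 * k + |CL|) ≤ (2 * (k : ℝ) + 1) ^ 2 * (1 + |CL|) := by
      have h1 : (k : ℝ) + 1 ≤ 2 * k + 1 := by linarith
      have h2 : 2 * (k : ℝ) + |CL| ≤ (2 * k + 1) * (1 + |CL|) := by nlinarith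
      calc ((k : ℝ) + 1) * (2 * k + |CL|) ≤ (2 * k + 1) * ((2 * k + 1) * (1 + |CL|)) :=
            mul_le_mul h1 h2 (by positivity) (by positivity)
        _ = (2 * (k : ℝ) + 1) ^ 2 * (1 + |CL|) := by ring
    have hone1 : (1 : ℝ) ≤ (2 * (k : ℝ) + 1) ^ 2 := by nlinarith
    have hA0 : 0 ≤ |C₁| * e2 (ε / 2) := mul_nonneg (abs_nonneg _) (e2_pos _).le
    calc |∑ p ∈ blk k, μ p t - ((blk k).card : ℝ) * ∑ t' ∈ (T r k).erase t,
        m k t' * (w k t * (Kr r (Q r k) (t - t') - Lt w k t'))| ≤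
        |∑ p ∈ blk k, μ p t| + |((blk k).card : ℝ) * ∑ t' ∈ (T r k).erase t,
        m k t' * (w k t * (Kr r (Q r k) (t - t') - Lt w k t'))| := abs_sub _ _
      _ ≤ |C₁| * e2 (ε / 2) * e2 (k * (1 / 2 + ε / 2)) +
          |C'| * |C| * ((k + 1) * (2 * k + |CL|)) * e2 (k / 2) := add_le_add hA hB
      _ ≤ (2 * (k : ℝ) + 1) ^ 2 * (|C₁| * e2 (ε / 2)) * e2 (k * (1 / 2 + ε / 2)) +
          |C'| * |C| * ((2 * (k : ℝ) + 1) ^ 2 * (1 + |CL|)) * e2 (k * (1 / 2 + ε / 2)) := by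
          refine add_le_add ?_ ?_
          · refine mul_le_mul_of_nonneg_right ?_ hE.le
            nlinarith
          · refine mul_le_mul ?_ he2 (e2_pos _).le (by positivity)
            exact mul_le_mul_of_nonneg_left hpoly (by positivity)
      _ = _ := by ring
  have hPk' := hPk k
  have hX : 0 ≤ |C₁| * e2 (ε / 2) + |C'| * |C| * (1 + |CL|) := by
    have := e2_pos (ε / 2)
    positivity
  calc ∑ t ∈ T r k, |∑ p ∈ blk k, nu μ w m k₁ p t - f k t| ≤
      ∑ t ∈ T r k, (2 * (k : ℝ) + 1) ^ 2 * (|C₁| * e2 (ε / 2) + |C'| * |C| * (1 + |CL|)) *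
        e2 (k * (1 / 2 + ε / 2)) := sum_le_sum hone
    _ = (2 * (k : ℝ) + 1) ^ (r + 2) * ((|C₁| * e2 (ε / 2) + |C'| * |C| * (1 + |CL|)) *
        e2 (k * (1 / 2 + ε / 2))) := by
        rw [sum_const, nsmul_eq_mul, card_T, pow_add]
        ring
    _ ≤ (P * e2 (k * (ε / 2))) * ((|C₁| * e2 (ε / 2) + |C'| * |C| * (1 + |CL|)) *
        e2 (k * (1 / 2 + ε / 2))) :=
        mul_le_mul_of_nonneg_right hPk' (mul_nonneg hX (e2_pos _).le)
    _ = P * (|C₁| * e2 (ε / 2) + |C'| * |C| * (1 + |CL|)) *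
        (e2 (k * (ε / 2)) * e2 (k * (1 / 2 + ε / 2))) := by ring
    _ = P * (|C₁| * e2 (ε / 2) + |C'| * |C| * (1 + |CL|)) * e2 (k * (1 / 2 + ε)) := by
        rw [← e2_add]
        congr 2
        ring

end Pool.Agent.H414.DF
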