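import Pool.Agent.H414.DF.Spec

/-!
Project DF: Chinese remainders, `crt : S_CRT`.
-/

set_option autoImplicit false

namespace Pool.Agent.H414.DF

open Finset

namespace Crt

/-- the kernel: the numbers below `d q` which are divisible by `d` and by `q` -/
lemma ker_card (d q : ℕ) [NeZero d] [NeZero q] :
    ((univ : Finset (ZMod (d * q))).filter
      (fun x => (x.cast : ZMod d) = 0 ∧ (x.cast : ZMod q) = 0)).card = Nat.gcd d q := by
  have hd : 0 < d := Nat.pos_of_ne_zero (NeZero.ne d)
  have hq : 0 < q := Nat.pos_of_ne_zero (NeZero.ne q)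
  have hl : 0 < Nat.lcm d q := Nat.lcm_pos hd hq
  have hgl : Nat.gcd d q * Nat.lcm d q = d * q := Nat.gcd_mul_lcm d q
  have h1 : ∀ x : ZMod (d * q), ((x.cast : ZMod d) = 0 ∧ (x.cast : ZMod q) = 0) ↔
      Nat.lcm d q ∣ x.val := by
    intro x
    rw [ZMod.cast_eq_val, ZMod.cast_eq_val, ZMod.natCast_eq_zero_iff, ZMod.natCast_eq_zero_iff,
      Nat.lcm_dvd_iff]
  have h2 : ((univ : Finset (ZMod (d * q))).filter
      (fun x => (x.cast : ZMod d) = 0 ∧ (x.cast : ZMod q) = 0)).card =
      (range (Nat.gcd d q)).card := by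
    symm
    refine Finset.card_bij (fun k _ => ((k * Nat.lcm d q : ℕ) : ZMod (d * q))) ?_ ?_ ?_
    · intro k hk
      rw [mem_filter, h1]
      refine ⟨mem_univ _, ?_⟩
      rw [mem_range] at hk
      rw [ZMod.val_natCast_of_lt]
      · exact dvd_mul_left _ _
      · rw [← hgl]
        exact Nat.mul_lt_mul_of_pos_right hk hl
    · intro k hk k' hk' h
      rw [mem_range] at hk hk'
      have h3 := congrArg ZMod.val h
      rw [ZMod.val_natCast_of_lt, ZMod.val_natCast_of_lt] at h3
      · exact Nat.eq_of_mul_eq_mul_right hl h3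
      · rw [← hgl]
        exact Nat.mul_lt_mul_of_pos_right hk' hl
      · rw [← hgl]
        exact Nat.mul_lt_mul_of_pos_right hk hl
    · intro x hx
      rw [mem_filter, h1] at hx
      obtain ⟨k, hk⟩ := hx.2
      refine ⟨k, ?_, ?_⟩
      · rw [mem_range]
        have h3 := ZMod.val_lt x
        rw [hk, ← hgl, mul_comm (Nat.gcd d q)] at h3
        exact Nat.lt_of_mul_lt_mul_left h3
      · have h3 := ZMod.natCast_zmod_val x
        rw [hk, mul_comm (Nat.lcm d q) k] at h3
        exact h3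
  rw [h2, card_range]

/-- one coordinate: a solution exists -/
lemma exists_sol (d q : ℕ) [NeZero d] [NeZero q] (s : ℤ) (α : ZMod q)
    (h : (α.cast : ZMod (Nat.gcd d q)) = (s : ZMod (Nat.gcd d q))) :
    ∃ x : ZMod (d * q), (x.cast : ZMod d) = (s : ZMod d) ∧ (x.cast : ZMod q) = α := by
  have h1 : (Nat.gcd d q : ℤ) ∣ s - (α.val : ℤ) := by
    rw [← ZMod.intCast_eq_intCast_iff_dvd_sub, ← h, ZMod.cast_eq_val]
    push_cast
    rfl
  obtain ⟨m, hm⟩ := h1
  have h2 := Nat.gcd_eq_gcd_ab d q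
  obtain ⟨y, hy⟩ : ∃ y : ℤ, y = s - d * (Nat.gcdA d q * m) := ⟨_, rfl⟩
  have hy2 : y = α.val + q * (Nat.gcdB d q * m) := by
    rw [hy]
    have h3 : s = (α.val : ℤ) + (Nat.gcd d q : ℤ) * m := by linarith
    rw [h3, h2]
    ring
  refine ⟨(y : ZMod (d * q)), ?_, ?_⟩
  · rw [ZMod.cast_intCast (dvd_mul_right d q), hy]
    push_cast
    simp
  · rw [ZMod.cast_intCast (dvd_mul_left q d), hy2]
    push_cast
    simp

/-- one coordinate: the number of solutions -/
lemma one (d q : ℕ) [NeZero d] [NeZero q] (s : ℤ) (α : ZMod q) :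
    ((univ : Finset (ZMod (d * q))).filter
      (fun x => (x.cast : ZMod d) = (s : ZMod d) ∧ (x.cast : ZMod q) = α)).card =
      if (α.cast : ZMod (Nat.gcd d q)) = (s : ZMod (Nat.gcd d q)) then Nat.gcd d q else 0 := by
  split_ifs with h
  · obtain ⟨x0, hx1, hx2⟩ := exists_sol d q s α h
    rw [← ker_card d q]
    symm
    have hc1 : ∀ x : ZMod (d * q), (x.cast : ZMod d) = ZMod.castHom (dvd_mul_right d q) (ZMod d) x :=
      fun x => (ZMod.castHom_apply _).symm
    have hc2 : ∀ x : ZMod (d * q), (x.cast : ZMod q) = ZMod.castHom (dvd_mul_left q d) (ZMod q) x :=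
      fun x => (ZMod.castHom_apply _).symm
    rw [hc1] at hx1
    rw [hc2] at hx2
    refine Finset.card_bij (fun x _ => x + x0) ?_ ?_ ?_
    · intro x hx
      rw [mem_filter, hc1, hc2] at hx
      rw [mem_filter, hc1, hc2, map_add, map_add, hx.2.1, hx.2.2, zero_add, zero_add]
      exact ⟨mem_univ _, hx1, hx2⟩
    · intro x _ y _ hxy
      exact add_right_cancel hxy
    · intro x hx
      rw [mem_filter, hc1, hc2] at hx
      refine ⟨x - x0, ?_, sub_add_cancel x x0⟩
      rw [mem_filter, hc1, hc2, map_sub, map_sub, hx.2.1, hx.2.2, hx1, hx2, sub_self, sub_self]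
      exact ⟨mem_univ _, rfl, rfl⟩
  · rw [card_eq_zero, filter_eq_empty_iff]
    rintro x - ⟨h1, h2⟩
    apply h
    rw [← h2]
    have e1 : ((x.cast : ZMod q).cast : ZMod (Nat.gcd d q)) =
        (x.cast : ZMod (Nat.gcd d q)) := by
      rw [ZMod.cast_eq_val x, ZMod.cast_eq_val x, ZMod.cast_natCast (Nat.gcd_dvd_right d q)]
    have e2 : ((x.cast : ZMod d).cast : ZMod (Nat.gcd d q)) =
        (x.cast : ZMod (Nat.gcd d q)) := by
      rw [ZMod.cast_eq_val x, ZMod.cast_eq_val x, ZMod.cast_natCast (Nat.gcd_dvd_left d q)]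
    rw [e1, ← e2, h1, ZMod.cast_intCast (Nat.gcd_dvd_left d q)]

end Crt

theorem crt : S_CRT := by
  intro r d q _ _ t G
  classical
  -- sort by the reduction modulo `q`
  have h1 : ∑ γ : Fin r → ZMod (d * q), (if ∀ i, ((γ i).cast : ZMod d) = (t i : ZMod d) then
      G (fun i => (γ i).cast) else 0) =
      ∑ α : Fin r → ZMod q, ∑ γ : Fin r → ZMod (d * q),
        if ∀ i, ((γ i).cast : ZMod d) = (t i : ZMod d) ∧ ((γ i).cast : ZMod q) = α i then G α else 0 := by
    rw [Finset.sum_comm]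
    refine Finset.sum_congr rfl fun γ _ => ?_
    rw [Finset.sum_eq_single (fun i => ((γ i).cast : ZMod q))]
    · simp
    · intro α _ hα
      rw [if_neg]
      intro h
      exact hα (funext fun i => (h i).2.symm)
    · intro h
      exact absurd (mem_univ _) h
  rw [h1, Finset.mul_sum]
  refine Finset.sum_congr rfl fun α _ => ?_
  rw [← Finset.sum_filter, Finset.sum_const]
  have h2 : (univ : Finset (Fin r → ZMod (d * q))).filter
      (fun γ => ∀ i, ((γ i).cast : ZMod d) = (t i : ZMod d) ∧ ((γ i).cast : ZMod q) = α i) =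
      Fintype.piFinset fun i => (univ : Finset (ZMod (d * q))).filter
        (fun x => (x.cast : ZMod d) = (t i : ZMod d) ∧ (x.cast : ZMod q) = α i) := by
    ext γ
    simp only [mem_filter, mem_univ, true_and, Fintype.mem_piFinset]
  rw [h2, Fintype.card_piFinset]
  simp only [Crt.one]
  by_cases h : ∀ i, ((α i).cast : ZMod (Nat.gcd d q)) = (t i : ZMod (Nat.gcd d q))
  · rw [if_pos h]
    have h3 : ∏ i : Fin r, (if ((α i).cast : ZMod (Nat.gcd d q)) = (t i : ZMod (Nat.gcd d q)) then
        Nat.gcd d q else 0) = (Nat.gcd d q) ^ r := by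
      rw [Finset.prod_congr rfl (fun i _ => if_pos (h i)), Finset.prod_const, card_univ,
        Fintype.card_fin]
    rw [h3, nsmul_eq_mul]
    push_cast
    ring
  · rw [if_neg h, mul_zero]
    push Not at h
    obtain ⟨i, hi⟩ := h
    have h3 : ∏ i : Fin r, (if ((α i).cast : ZMod (Nat.gcd d q)) = (t i : ZMod (Nat.gcd d q)) then
        Nat.gcd d q else 0) = 0 :=
      Finset.prod_eq_zero (mem_univ i) (if_neg hi)
    rw [h3, zero_smul]

end Pool.Agent.H414.DF
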