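import Pool.Agent.H414.LT.St1

/-!
Definitions of the project DF: systems of `r` integers `a p 0, …, a p (r - 1)` with `(a p i) ^ 2 ≤ 4 p`
(the coefficients at `p` of `r` newforms of weight two, or the traces of Frobenius of `r` elliptic
curves), and what the Riemann hypothesis and Artin's conjecture for all the division fields say.

From `Pool.Agent.H414.LT`: `primesUpTo x` is the set of the primes `p ≤ x`, and `blk k` the set of the
primes `2 ^ k < p ≤ 2 ^ (k + 1)`.
-/

set_option autoImplicit false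

namespace Pool.Agent.H414.DF

open Finset
open Pool.Agent.H414.LT (primesUpTo blk)

/-- The vectors of `r` integers with `(b i) ^ 2 ≤ n` for all `i`. -/
noncomputable def box (r n : ℕ) : Finset (Fin r → ℤ) :=
  Fintype.piFinset fun _ => Icc (-(Nat.sqrt n : ℤ)) (Nat.sqrt n)

/-- The reduction of a vector of integers modulo `q`. -/
def red {r : ℕ} (q : ℕ) (b : Fin r → ℤ) : Fin r → ZMod q := fun i => (b i : ZMod q)

/-- `(∑ x, ‖G x‖ ^ 2) ^ (1 / 2)`. -/
noncomputable def l2 {α : Type} [Fintype α] (G : α → ℂ) : ℝ := √(∑ x, ‖G x‖ ^ 2)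

/-- `a p` is a vector of `r` integers with `(a p i) ^ 2 ≤ 4 p`, for all primes `p`. -/
def IsSystem (r : ℕ) (a : ℕ → Fin r → ℤ) : Prop := ∀ p : ℕ, p.Prime → a p ∈ box r (4 * p)

/-- Reference laws: `μ p` is a probability on the vectors of `r` integers with squares at most `4 p`,
which is at most `p ^ (- r / 2)` and, for the vectors of integers with squares at most `p`, at least
`p ^ (- r / 2)`, up to factors `p ^ ε`. -/
structure IsRef (r : ℕ) (μ : ℕ → (Fin r → ℤ) → ℝ) : Prop where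
  /-- probabilities -/
  nonneg : ∀ p : ℕ, p.Prime → ∀ b, 0 ≤ μ p b
  /-- the total mass is one -/
  sum : ∀ p : ℕ, p.Prime → ∑ b ∈ box r (4 * p), μ p b = 1
  /-- the upper bound -/
  upper : ∀ ε : ℝ, 0 < ε → ∃ C : ℝ, ∀ p : ℕ, p.Prime → ∀ b, μ p b ≤ C * (p : ℝ) ^ (ε - r / 2)
  /-- the lower bound -/
  lower : ∀ ε : ℝ, 0 < ε → ∃ c : ℝ, 0 < c ∧ ∀ p : ℕ, p.Prime → ∀ b ∈ box r p,
    c * (p : ℝ) ^ (-ε - r / 2) ≤ μ p b

/-- The bounds which the Riemann hypothesis and Artin's conjecture for the fields of the `q`-division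
points give (with respect to the laws `μ`), uniformly in `q`, with the twists `c i`. For functions `F` of
the determinant `p` and of the `r` traces modulo `q`, the number `q ^ r * l2 F` is, up to factors `q ^ ε`,
the square root of the sum of `|F| ^ 2` over the group `{g ∈ GL_2(ZMod q) ^ r : all determinants equal}`; for
the indicator function of a union `D` of conjugacy classes it is `|D| ^ (1 / 2)`. -/
def HasBound (r : ℕ) (μ : ℕ → (Fin r → ℤ) → ℝ) (c : ℕ → ℕ → ℂ) (a : ℕ → Fin r → ℤ) : Prop :=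
  ∀ (i : ℕ) (ε : ℝ), 0 < ε → ∃ C : ℝ, ∀ (q : ℕ) [NeZero q]
    (F : ZMod q × (Fin r → ZMod q) → ℂ) (x : ℕ),
    ‖∑ p ∈ primesUpTo x, c i p * (F (p, red q (a p)) -
      ∑ b ∈ box r (4 * p), (μ p b : ℂ) * F (p, red q b))‖ ≤
      C * (q : ℝ) ^ r * l2 F * ((x : ℝ) + 1) ^ (1 / 2 + ε)

end Pool.Agent.H414.DF
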