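import Pool.Agent.H414.DF.Spec

/-!
The kernel acts as `δ_t` on functions modulo `q ≤ Q` (helper997).
-/

set_option autoImplicit false

namespace Pool.Agent.H414.DF

open Finset
open Pool.Agent.H414.LT (primesUpTo blk kk)

namespace Del

theorem e2_pos (x : ℝ) : 0 < e2 x := Real.rpow_pos_of_pos (by norm_num) _

theorem e2_add (x y : ℝ) : e2 (x + y) = e2 x * e2 y := Real.rpow_add (by norm_num) _ _

theorem e2_mono {x y : ℝ} (h : x ≤ y) : e2 x ≤ e2 y :=
  Real.rpow_le_rpow_of_exponent_le (by norm_num) h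

theorem e2_zero : e2 0 = 1 := Real.rpow_zero _

theorem e2_pow (x : ℝ) (n : ℕ) : e2 x ^ n = e2 (x * n) := by
  unfold e2
  rw [Real.rpow_mul_natCast (by norm_num)]

variable {r : ℕ}

/-- the number of the classes modulo `q` over a class modulo `g` -/
theorem fiber_card {g q : ℕ} [NeZero g] [NeZero q] (h : g ∣ q) (t : Fin r → ZMod g) :
    ((univ : Finset (Fin r → ZMod q)).filter
      (fun α => ∀ i, ((α i).cast : ZMod g) = t i)).card * g ^ r = q ^ r := by
  classical
  let f : (Fin r → ZMod q) →+ (Fin r → ZMod g) :=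
    (ZMod.castHom h (ZMod g)).toAddMonoidHom.compLeft (Fin r)
  have hf : ∀ α i, f α i = ((α i).cast : ZMod g) := fun α i => rfl
  have hsurj : Function.Surjective f := by
    intro y
    choose x hx using fun i => ZMod.castHom_surjective h (y i)
    refine ⟨x, ?_⟩
    funext i
    exact hx i
  have hfil : ∀ y : Fin r → ZMod g, ((univ : Finset (Fin r → ZMod q)).filter
      (fun α => ∀ i, ((α i).cast : ZMod g) = y i)) =
      (univ : Finset (Fin r → ZMod q)).filter (fun α => f α = y) := by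
    intro y
    refine filter_congr fun α _ => ?_
    rw [funext_iff]
    rfl
  have hN : ∀ y : Fin r → ZMod g, ((univ : Finset (Fin r → ZMod q)).filter
      (fun α => f α = y)).card = ((univ : Finset (Fin r → ZMod q)).filter
      (fun α => f α = t)).card := fun y =>
    AddMonoidHom.card_fiber_eq_of_mem_range f (hsurj y) (hsurj t)
  have h1 := card_eq_sum_card_fiberwise (f := f) (s := (univ : Finset (Fin r → ZMod q)))
    (t := (univ : Finset (Fin r → ZMod g))) (fun _ _ => mem_coe.2 (mem_univ _))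
  rw [sum_congr rfl fun y _ => hN y, sum_const, card_univ, card_univ, Fintype.card_pi,
    Fintype.card_pi, prod_const, prod_const, card_univ, Fintype.card_fin, ZMod.card, ZMod.card,
    smul_eq_mul] at h1
  rw [hfil, mul_comm]
  exact h1.symm

/-- the means over the classes -/
noncomputable def HH {q : ℕ} [NeZero q] (t : Fin r → ℤ) (G : (Fin r → ZMod q) → ℂ) (g : ℕ) : ℂ :=
  if g ∣ q then ((g : ℂ) ^ r / (q : ℂ) ^ r) * ∑ α : Fin r → ZMod q,
    (if ∀ i, ((α i).cast : ZMod g) = (t i : ZMod g) then G α else 0) else 0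

theorem HH_le {q : ℕ} [NeZero q] (t : Fin r → ℤ) {G : (Fin r → ZMod q) → ℂ}
    (hG : ∀ γ, ‖G γ‖ ≤ 1) (g : ℕ) : ‖HH t G g‖ ≤ 1 := by
  unfold HH
  split_ifs with h
  swap
  · rw [norm_zero]
    exact zero_le_one
  have hq0 : q ≠ 0 := NeZero.ne q
  have hg0 : g ≠ 0 := by
    rintro rfl
    exact hq0 (zero_dvd_iff.1 h)
  have : NeZero g := ⟨hg0⟩
  have h1 : ‖∑ α : Fin r → ZMod q,
      (if ∀ i, ((α i).cast : ZMod g) = (t i : ZMod g) then G α else 0)‖ ≤
      (((univ : Finset (Fin r → ZMod q)).filter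
      (fun α => ∀ i, ((α i).cast : ZMod g) = (t i : ZMod g))).card : ℝ) := by
    rw [← sum_filter]
    refine (norm_sum_le _ _).trans ?_
    refine (sum_le_sum fun α _ => hG α).trans (le_of_eq ?_)
    rw [sum_const, nsmul_eq_mul, mul_one]
  have h2 := fiber_card (r := r) h (fun i => (t i : ZMod g))
  have h3 : (((univ : Finset (Fin r → ZMod q)).filter
      (fun α => ∀ i, ((α i).cast : ZMod g) = (t i : ZMod g))).card : ℝ) * (g : ℝ) ^ r =
      (q : ℝ) ^ r := by exact_mod_cast h2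
  rw [norm_mul, norm_div, norm_pow, norm_pow, Complex.norm_natCast, Complex.norm_natCast]
  have hq : (0 : ℝ) < (q : ℝ) ^ r := by
    have : (0 : ℝ) < q := by exact_mod_cast Nat.pos_of_ne_zero hq0
    positivity
  rw [div_mul_eq_mul_div, div_le_one hq, ← h3, mul_comm]
  exact mul_le_mul_of_nonneg_right h1 (by positivity)

theorem HH_q {q : ℕ} [NeZero q] (t : Fin r → ℤ) (G : (Fin r → ZMod q) → ℂ) :
    HH t G q = G (red q t) := by
  unfold HH
  have hq0 : (q : ℂ) ^ r ≠ 0 := pow_ne_zero _ (by exact_mod_cast NeZero.ne q)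
  rw [if_pos dvd_rfl, div_self hq0, one_mul]
  have h1 : ∀ α : Fin r → ZMod q, (if ∀ i, ((α i).cast : ZMod q) = (t i : ZMod q) then G α else 0) =
      if α = red q t then G α else 0 := by
    intro α
    have : (∀ i, ((α i).cast : ZMod q) = (t i : ZMod q)) ↔ α = red q t := by
      rw [funext_iff]
      refine forall_congr' fun i => ?_
      rw [ZMod.cast_id]
      rfl
    simp only [this]
  rw [sum_congr rfl fun α _ => h1 α, sum_ite_eq' univ (red q t) G, if_pos (mem_univ _)]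

/-- the sums over the classes of `t` modulo `d` -/
noncomputable def WW (w : ℕ → (Fin r → ℤ) → ℝ) (k : ℕ) {q : ℕ} (t : Fin r → ℤ)
    (G : (Fin r → ZMod q) → ℂ) (d : ℕ) : ℂ :=
  ∑ a ∈ box r (2 ^ k), (w k a : ℂ) * (if ∀ i, (d : ℤ) ∣ (a - t) i then G (red q a) else 0)

theorem WW_eq (hCRT : S_CRT) {w : ℕ → (Fin r → ℤ) → ℝ} {C : ℝ} (hw : IsW r w C) {k q : ℕ}
    [NeZero q] (t : Fin r → ℤ) {G : (Fin r → ZMod q) → ℂ} (hG : ∀ γ, ‖G γ‖ ≤ 1) {d : ℕ}
    (hd : 1 ≤ d) (hdq : (d : ℝ) * q ≤ e2 (9 * k / 20)) :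
    ‖(d : ℂ) ^ r * WW w k t G d - HH t G (Nat.gcd d q)‖ ≤ (d : ℝ) ^ r * (C * e2 (-(3 * k))) := by
  have : NeZero d := ⟨by omega⟩
  have hd0 : (d : ℂ) ≠ 0 := by exact_mod_cast NeZero.ne d
  have hq0 : (q : ℂ) ≠ 0 := by exact_mod_cast NeZero.ne q
  set GD : (Fin r → ZMod (d * q)) → ℂ := fun γ =>
    if ∀ i, ((γ i).cast : ZMod d) = (t i : ZMod d) then G (fun i => (γ i).cast) else 0 with hGD
  have h1 := hw.equi k (d * q) (by push_cast; exact hdq) GD (by
    intro γ
    rw [hGD]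
    simp only
    split_ifs
    · exact hG _
    · rw [norm_zero]
      exact zero_le_one)
  have h2 : ∑ a ∈ box r (2 ^ k), (w k a : ℂ) * GD (red (d * q) a) = WW w k t G d := by
    unfold WW
    refine sum_congr rfl fun a _ => ?_
    congr 1
    rw [hGD]
    simp only
    have e1 : ∀ i, ((red (d * q) a i).cast : ZMod d) = (a i : ZMod d) := fun i =>
      ZMod.cast_intCast (R := ZMod d) (dvd_mul_right d q) (a i)
    have e2' : (fun i => ((red (d * q) a i).cast : ZMod q)) = red q a := by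
      funext i
      exact ZMod.cast_intCast (R := ZMod q) (dvd_mul_left q d) (a i)
    have e3 : (∀ i, ((red (d * q) a i).cast : ZMod d) = (t i : ZMod d)) ↔
        ∀ i, (d : ℤ) ∣ (a - t) i := by
      refine forall_congr' fun i => ?_
      rw [e1, eq_comm, ZMod.intCast_eq_intCast_iff_dvd_sub, Pi.sub_apply]
    rw [e2']
    simp only [e3]
  have h3 : (∑ γ, GD γ) = ((Nat.gcd d q : ℕ) : ℂ) ^ r * ∑ α : Fin r → ZMod q,
      (if ∀ i, ((α i).cast : ZMod (Nat.gcd d q)) = (t i : ZMod (Nat.gcd d q)) then G α else 0) :=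
    hCRT r d q t G
  have h4 : (d : ℂ) ^ r * ((∑ γ, GD γ) / ((d * q : ℕ) : ℂ) ^ r) = HH t G (Nat.gcd d q) := by
    unfold HH
    rw [if_pos (Nat.gcd_dvd_right d q), h3]
    push_cast
    rw [mul_pow]
    have := pow_ne_zero r hd0
    have := pow_ne_zero r hq0
    field_simp
  rw [h2] at h1
  have h5 : (d : ℂ) ^ r * WW w k t G d - HH t G (Nat.gcd d q) =
      (d : ℂ) ^ r * (WW w k t G d - (∑ γ, GD γ) / ((d * q : ℕ) : ℂ) ^ r) := by
    rw [← h4]
    ring
  rw [h5, norm_mul, norm_pow, Complex.norm_natCast]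
  exact mul_le_mul_of_nonneg_left h1 (by positivity)

theorem expand (w : ℕ → (Fin r → ℤ) → ℝ) (k : ℕ) {q : ℕ} (t : Fin r → ℤ)
    (G : (Fin r → ZMod q) → ℂ) (κ : ℕ) :
    ∑ a ∈ box r (2 ^ k), ((w k a * Kr r κ (a - t) : ℝ) : ℂ) * G (red q a) =
      ∑ n ∈ Icc 1 κ, ∑ x ∈ n.divisorsAntidiagonal,
        ((ArithmeticFunction.moebius x.1 : ℤ) : ℂ) * ((x.2 : ℂ) ^ r * WW w k t G x.2) := by
  have h1 : ∀ a : Fin r → ℤ, ((w k a * Kr r κ (a - t) : ℝ) : ℂ) * G (red q a) =
      ∑ n ∈ Icc 1 κ, ∑ x ∈ n.divisorsAntidiagonal,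
        ((ArithmeticFunction.moebius x.1 : ℤ) : ℂ) * ((x.2 : ℂ) ^ r *
          ((w k a : ℂ) * (if ∀ i, (x.2 : ℤ) ∣ (a - t) i then G (red q a) else 0))) := by
    intro a
    unfold Kr
    push_cast
    rw [mul_sum, sum_mul]
    refine sum_congr rfl fun n _ => ?_
    rw [mul_sum, sum_mul]
    refine sum_congr rfl fun x _ => ?_
    split_ifs
    · push_cast
      ring
    · push_cast
      ring
  rw [sum_congr rfl fun a _ => h1 a, sum_comm]
  refine sum_congr rfl fun n _ => ?_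
  rw [sum_comm]
  refine sum_congr rfl fun x _ => ?_
  unfold WW
  rw [mul_sum, mul_sum]

end Del

open Del in
theorem del (_hK : S_K) (hCRT : S_CRT) (hMOB : S_MOB) : S_DEL := by
  intro r w C hr hw
  have hC : 0 ≤ C := by
    have h1 := (hw.nonneg 0 0).trans (hw.sup 0 0)
    by_contra h
    push Not at h
    have := e2_pos (-(((0 : ℕ) : ℝ) * r / 2))
    nlinarith
  refine ⟨C, ?_⟩
  intro k q _ t G hq hG
  have hr1 : (1 : ℝ) ≤ r := by exact_mod_cast hr
  have hth : 0 < th r := by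
    unfold th
    positivity
  have hk0 : (0 : ℝ) ≤ k := Nat.cast_nonneg k
  have hQle : (Q r k : ℝ) ≤ e2 (k * th r) := Nat.floor_le (e2_pos _).le
  have hdiv : ∀ n ∈ Icc 1 (Q r k), ∀ x ∈ n.divisorsAntidiagonal, 1 ≤ x.2 ∧ x.2 ≤ Q r k := by
    intro n hn x hx
    rw [mem_Icc] at hn
    have h1 := Nat.mem_divisorsAntidiagonal.1 hx
    have h2 : x.2 ∣ n := ⟨x.1, by rw [mul_comm]; exact h1.1.symm⟩
    exact ⟨Nat.pos_of_dvd_of_pos h2 (by omega), (Nat.le_of_dvd (by omega) h2).trans hn.2⟩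
  -- the error
  have herr : ‖∑ n ∈ Icc 1 (Q r k), ∑ x ∈ n.divisorsAntidiagonal,
        ((ArithmeticFunction.moebius x.1 : ℤ) : ℂ) * ((x.2 : ℂ) ^ r * WW w k t G x.2 -
          HH t G (Nat.gcd x.2 q))‖ ≤ C * e2 (-(2 * k)) := by
    have h1 : ∀ n ∈ Icc 1 (Q r k), ‖∑ x ∈ n.divisorsAntidiagonal,
        ((ArithmeticFunction.moebius x.1 : ℤ) : ℂ) * ((x.2 : ℂ) ^ r * WW w k t G x.2 -
          HH t G (Nat.gcd x.2 q))‖ ≤ (Q r k : ℝ) * ((Q r k : ℝ) ^ r * (C * e2 (-(3 * k)))) := by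
      intro n hn
      have hn' := mem_Icc.1 hn
      refine (norm_sum_le _ _).trans ?_
      have h2 : ∀ x ∈ n.divisorsAntidiagonal, ‖((ArithmeticFunction.moebius x.1 : ℤ) : ℂ) *
          ((x.2 : ℂ) ^ r * WW w k t G x.2 - HH t G (Nat.gcd x.2 q))‖ ≤
          (Q r k : ℝ) ^ r * (C * e2 (-(3 * k))) := by
        intro x hx
        obtain ⟨hx1, hx2⟩ := hdiv n hn x hx
        have hx2' : (x.2 : ℝ) ≤ Q r k := by exact_mod_cast hx2
        have h3 := WW_eq hCRT hw t hG hx1 (k := k) (q := q) (by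
          refine le_trans ?_ hq
          rw [mul_comm]
          exact mul_le_mul_of_nonneg_left (hx2'.trans hQle) (Nat.cast_nonneg q))
        have h4 : ‖((ArithmeticFunction.moebius x.1 : ℤ) : ℂ)‖ ≤ 1 := by
          rw [Complex.norm_intCast]
          exact_mod_cast ArithmeticFunction.abs_moebius_le_one (n := x.1)
        rw [norm_mul]
        have h5 : 0 ≤ C * e2 (-(3 * k)) := mul_nonneg hC (e2_pos _).le
        calc _ ≤ 1 * ((x.2 : ℝ) ^ r * (C * e2 (-(3 * k)))) :=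
              mul_le_mul h4 h3 (norm_nonneg _) zero_le_one
          _ = (x.2 : ℝ) ^ r * (C * e2 (-(3 * k))) := one_mul _
          _ ≤ _ := by gcongr
      refine (sum_le_sum h2).trans ?_
      rw [sum_const, nsmul_eq_mul]
      have h6 : (n.divisorsAntidiagonal.card : ℝ) ≤ Q r k := by
        have h7 : n.divisorsAntidiagonal.card = n.divisors.card := by
          rw [← Nat.map_div_right_divisors, card_map]
        rw [h7]
        have h8 := Nat.card_divisors_le_self n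
        exact_mod_cast h8.trans hn'.2
      have h5 : 0 ≤ C * e2 (-(3 * k)) := mul_nonneg hC (e2_pos _).le
      gcongr
    refine (norm_sum_le _ _).trans ((sum_le_sum h1).trans ?_)
    rw [sum_const, nsmul_eq_mul, Nat.card_Icc, Nat.add_sub_cancel]
    have h2 : (Q r k : ℝ) * ((Q r k : ℝ) * ((Q r k : ℝ) ^ r * (C * e2 (-(3 * k))))) =
        (Q r k : ℝ) ^ (r + 2) * (C * e2 (-(3 * k))) := by ring
    have h3 : (Q r k : ℝ) ^ (r + 2) ≤ e2 k := by
      calc (Q r k : ℝ) ^ (r + 2) ≤ e2 (k * th r) ^ (r + 2) :=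
            pow_le_pow_left₀ (Nat.cast_nonneg _) hQle _
        _ = e2 (k * th r * ((r + 2 : ℕ) : ℝ)) := e2_pow _ _
        _ ≤ e2 k := by
          apply e2_mono
          have h4 : th r * ((r + 2 : ℕ) : ℝ) ≤ 1 := by
            unfold th
            rw [one_div, inv_mul_le_iff₀ (by positivity)]
            push_cast
            linarith
          rw [mul_assoc]
          nlinarith
    rw [h2]
    have h5 : 0 ≤ C * e2 (-(3 * k)) := mul_nonneg hC (e2_pos _).le
    calc (Q r k : ℝ) ^ (r + 2) * (C * e2 (-(3 * k))) ≤ e2 k * (C * e2 (-(3 * k))) := by gcongr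
      _ = C * (e2 k * e2 (-(3 * k))) := by ring
      _ = C * e2 (-(2 * k)) := by
          rw [← e2_add]
          congr 2
          ring
  have hsum : ∑ a ∈ box r (2 ^ k), ((w k a * Kr r (Q r k) (a - t) : ℝ) : ℂ) * G (red q a) =
      (∑ n ∈ Icc 1 (Q r k), ∑ x ∈ n.divisorsAntidiagonal,
        ((ArithmeticFunction.moebius x.1 : ℤ) : ℂ) * HH t G (Nat.gcd x.2 q)) +
      ∑ n ∈ Icc 1 (Q r k), ∑ x ∈ n.divisorsAntidiagonal,
        ((ArithmeticFunction.moebius x.1 : ℤ) : ℂ) * ((x.2 : ℂ) ^ r * WW w k t G x.2 -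
          HH t G (Nat.gcd x.2 q)) := by
    rw [expand, ← sum_add_distrib]
    refine sum_congr rfl fun n _ => ?_
    rw [← sum_add_distrib]
    refine sum_congr rfl fun x _ => ?_
    ring
  obtain ⟨hm1, hm2⟩ := hMOB (HH t G) q (Q r k) (Nat.pos_of_ne_zero (NeZero.ne q))
  constructor
  · intro hqQ
    rw [hsum, hm1 hqQ, HH_q, add_sub_cancel_left]
    exact herr
  · rw [hsum]
    have h1 := hm2 1 (HH_le t hG)
    rw [mul_one] at h1
    refine (norm_add_le _ _).trans (add_le_add h1 (herr.trans ?_))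
    have h2 : e2 (-(2 * k)) ≤ 1 := by
      rw [← e2_zero]
      apply e2_mono
      linarith
    nlinarith

end Pool.Agent.H414.DF
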