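import Pool.Agent.H414.DF.Spec

/-!
The potential method for vectors of test functions.
-/

set_option autoImplicit false

namespace Pool.Agent.H414.DF

open Finset

namespace Eng

theorem key {Ω : Type} [Fintype Ω] (π : Ω → ℝ) (φ : Ω → ℂ) (s : ℂ) (h1 : ∑ ω, π ω = 1)
    (h0 : ∑ ω, (π ω : ℂ) * φ ω = 0) :
    ∑ ω, π ω * ‖s + φ ω‖ ^ 2 = ‖s‖ ^ 2 + ∑ ω, π ω * ‖φ ω‖ ^ 2 := by
  have hx : ∀ ω, π ω * ‖s + φ ω‖ ^ 2 = π ω * ‖s‖ ^ 2 + π ω * ‖φ ω‖ ^ 2 +
      2 * (s * (starRingEnd ℂ) ((π ω : ℂ) * φ ω)).re := by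
    intro ω
    rw [Complex.sq_norm, Complex.sq_norm, Complex.sq_norm, Complex.normSq_add]
    have : (s * (starRingEnd ℂ) ((π ω : ℂ) * φ ω)).re =
        π ω * (s * (starRingEnd ℂ) (φ ω)).re := by
      rw [map_mul, Complex.conj_ofReal]
      simp only [Complex.mul_re, Complex.mul_im, Complex.ofReal_re, Complex.ofReal_im]
      ring
    rw [this]
    ring
  rw [Finset.sum_congr rfl fun ω _ => hx ω, Finset.sum_add_distrib, Finset.sum_add_distrib,
    ← Finset.sum_mul, h1, one_mul, ← Finset.mul_sum, ← Complex.re_sum, ← Finset.mul_sum,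
    ← map_sum, h0, map_zero, mul_zero, Complex.zero_re, mul_zero, add_zero]

/-- the square of the norm of a vector -/
noncomputable def nn {I : Type} [Fintype I] (v : I → ℂ) : ℝ := ∑ s, ‖v s‖ ^ 2

theorem nn_nonneg {I : Type} [Fintype I] (v : I → ℂ) : 0 ≤ nn v :=
  Finset.sum_nonneg fun _ _ => sq_nonneg _

theorem nn_add_le {I : Type} [Fintype I] (v u : I → ℂ) :
    nn (fun s => v s + u s) ≤ 2 * nn v + 2 * nn u := by
  unfold nn
  rw [Finset.mul_sum, Finset.mul_sum, ← Finset.sum_add_distrib]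
  refine Finset.sum_le_sum fun s _ => ?_
  have h1 : ‖v s + u s‖ ≤ ‖v s‖ + ‖u s‖ := norm_add_le _ _
  nlinarith [norm_nonneg (v s + u s), norm_nonneg (v s), norm_nonneg (u s),
    sq_nonneg (‖v s‖ - ‖u s‖)]

theorem keyv {Ω I : Type} [Fintype Ω] [Fintype I] (π : Ω → ℝ) (φ : I → Ω → ℂ) (S : I → ℂ)
    (h1 : ∑ ω, π ω = 1) (h0 : ∀ s, ∑ ω, (π ω : ℂ) * φ s ω = 0) :
    ∑ ω, π ω * nn (fun s => S s + φ s ω) =
      nn S + ∑ ω, π ω * nn (fun s => φ s ω) := by
  unfold nn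
  simp only [Finset.mul_sum]
  rw [Finset.sum_comm, Finset.sum_comm (s := Finset.univ (α := Ω)), ← Finset.sum_add_distrib]
  exact Finset.sum_congr rfl fun s _ => key π (φ s) (S s) h1 (h0 s)

theorem summ_add {J : Type} {I : J → Type} [∀ j, Fintype (I j)] {w : J → ℝ}
    (hw : ∀ j, 0 < w j) {S T : ∀ j, I j → ℂ}
    (hS : Summable fun j => w j * nn (S j)) (hT : Summable fun j => w j * nn (T j)) :
    Summable fun j => w j * nn (fun s => S j s + T j s) := by
  refine Summable.of_nonneg_of_le (fun j => mul_nonneg (hw j).le (nn_nonneg _)) (fun j => ?_)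
    ((hS.mul_left 2).add (hT.mul_left 2))
  calc w j * nn (fun s => S j s + T j s) ≤ w j * (2 * nn (S j) + 2 * nn (T j)) :=
        mul_le_mul_of_nonneg_left (nn_add_le _ _) (hw j).le
    _ = 2 * (w j * nn (S j)) + 2 * (w j * nn (T j)) := by ring

/-- one step -/
theorem step {J Ω : Type} {I : J → Type} [∀ j, Fintype (I j)] [Fintype Ω] (π : Ω → ℝ)
    (φ : ∀ j : J, I j → Ω → ℂ) (w E : J → ℝ)
    (hπ : ∀ ω, 0 ≤ π ω) (h1 : ∑ ω, π ω = 1) (hw : ∀ j, 0 < w j)
    (hE : Summable fun j => w j * E j) (h0 : ∀ j s, ∑ ω, (π ω : ℂ) * φ j s ω = 0)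
    (h2 : ∀ j, ∑ ω, π ω * nn (fun s => φ j s ω) ≤ E j)
    (h3 : ∀ ω, Summable fun j => w j * nn (fun s => φ j s ω)) (S : ∀ j, I j → ℂ)
    (hS : Summable fun j => w j * nn (S j)) :
    ∃ ω : Ω, ∑' j, w j * nn (fun s => S j s + φ j s ω) ≤
      ∑' j, w j * nn (S j) + ∑' j, w j * E j := by
  by_contra hcon
  push Not at hcon
  have hsum : ∀ ω, Summable fun j => w j * nn (fun s => S j s + φ j s ω) := fun ω =>
    summ_add hw hS (h3 ω)
  have hlt : ∑ ω, π ω * (∑' j, w j * nn (S j) + ∑' j, w j * E j) <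
      ∑ ω, π ω * ∑' j, w j * nn (fun s => S j s + φ j s ω) := by
    obtain ⟨ω₀, -, hω₀⟩ := Finset.exists_ne_zero_of_sum_ne_zero
      (show ∑ ω, π ω ≠ 0 by rw [h1]; exact one_ne_zero)
    have hpos : 0 < π ω₀ := lt_of_le_of_ne (hπ ω₀) (Ne.symm hω₀)
    refine Finset.sum_lt_sum (fun ω _ => mul_le_mul_of_nonneg_left (hcon ω).le (hπ ω))
      ⟨ω₀, Finset.mem_univ _, mul_lt_mul_of_pos_left (hcon ω₀) hpos⟩
  rw [← Finset.sum_mul, h1, one_mul] at hlt
  have heq : ∑ ω, π ω * ∑' j, w j * nn (fun s => S j s + φ j s ω) =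
      ∑' j, (w j * nn (S j) + w j * ∑ ω, π ω * nn (fun s => φ j s ω)) := by
    have h4 : ∀ ω, π ω * ∑' j, w j * nn (fun s => S j s + φ j s ω) =
        ∑' j, π ω * (w j * nn (fun s => S j s + φ j s ω)) := fun ω => tsum_mul_left.symm
    rw [Finset.sum_congr rfl fun ω _ => h4 ω,
      ← Summable.tsum_finsetSum fun ω _ => (hsum ω).mul_left (π ω)]
    refine tsum_congr fun j => ?_
    have h5 := keyv π (φ j) (S j) h1 (h0 j)
    rw [← mul_add, ← h5, Finset.mul_sum]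
    refine Finset.sum_congr rfl fun ω _ => ?_
    ring
  have hle : ∑' j, (w j * nn (S j) + w j * ∑ ω, π ω * nn (fun s => φ j s ω)) ≤
      ∑' j, w j * nn (S j) + ∑' j, w j * E j := by
    rw [← hS.tsum_add hE]
    have h6 : ∀ j, w j * nn (S j) + w j * ∑ ω, π ω * nn (fun s => φ j s ω) ≤
        w j * nn (S j) + w j * E j := fun j => by
      have := mul_le_mul_of_nonneg_left (h2 j) (hw j).le
      linarith
    have h7 : Summable fun j => w j * nn (S j) + w j * ∑ ω, π ω * nn (fun s => φ j s ω) := by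
      refine Summable.of_nonneg_of_le (fun j => ?_) h6 (hS.add hE)
      refine add_nonneg (mul_nonneg (hw j).le (nn_nonneg _)) (mul_nonneg (hw j).le
        (Finset.sum_nonneg fun ω _ => mul_nonneg (hπ ω) (nn_nonneg _)))
    exact h7.tsum_le_tsum h6 (hS.add hE)
  linarith

end Eng

open Eng in
theorem eng : S_ENG := by
  intro J I _ Ω _ π φ w E hπ h1 hw hE0 hE h0 h2 h3
  set W : ℝ := ∑' j, w j * E j with hW
  let P : ℕ → (∀ j, I j → ℂ) → Prop := fun N S => (Summable fun j => w j * nn (S j)) ∧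
    ∑' j, w j * nn (S j) ≤ N * W
  have hstep : ∀ N (S : {S : ∀ j, I j → ℂ // P N S}), ∃ ω : Ω N,
      P (N + 1) (fun j s => S.1 j s + φ N j s ω) := by
    rintro N ⟨S, hS1, hS2⟩
    obtain ⟨ω, hω⟩ := Eng.step (π N) (φ N) w E (hπ N) (h1 N) hw hE (h0 N) (h2 N) (h3 N) S hS1
    refine ⟨ω, Eng.summ_add hw hS1 (h3 N ω), ?_⟩
    show ∑' j, w j * nn (fun s => S j s + φ N j s ω) ≤ ((N + 1 : ℕ) : ℝ) * W
    push_cast
    linarith
  choose om hom using hstep
  have hz : ∀ j, nn (fun _ : I j => (0 : ℂ)) = 0 := fun j => by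
    unfold nn
    exact Finset.sum_eq_zero fun s _ => by
      rw [norm_zero, zero_pow two_ne_zero]
  have hP0 : P 0 (fun _ _ => 0) := by
    refine ⟨?_, ?_⟩
    · simp only [hz, mul_zero]
      exact summable_zero
    · simp only [hz, mul_zero, tsum_zero, Nat.cast_zero, zero_mul]
      exact le_refl _
  let st : (N : ℕ) → {S : ∀ j, I j → ℂ // P N S} := fun N =>
    Nat.rec (motive := fun N => {S : ∀ j, I j → ℂ // P N S})
    ⟨fun _ _ => 0, hP0⟩ (fun N S => ⟨fun j s => S.1 j s + φ N j s (om N S), hom N S⟩) N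
  have hst : ∀ N j s, (st (N + 1)).1 j s = (st N).1 j s + φ N j s (om N (st N)) :=
    fun N j s => rfl
  have hst0 : ∀ j s, (st 0).1 j s = 0 := fun j s => rfl
  refine ⟨fun n => om n (st n), fun j N => ?_⟩
  have hsum : ∀ N s, ∑ n ∈ range N, φ n j s (om n (st n)) = (st N).1 j s := by
    intro N s
    induction N with
    | zero => rw [Finset.sum_range_zero, hst0]
    | succ N ih => rw [Finset.sum_range_succ, ih, hst]
  rw [Finset.sum_congr rfl fun s _ => by rw [hsum N s]]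
  obtain ⟨hs1, hs2⟩ := (st N).2
  have h5 : w j * nn ((st N).1 j) ≤ ∑' j, w j * nn ((st N).1 j) :=
    hs1.le_tsum j fun i _ => mul_nonneg (hw i).le (nn_nonneg _)
  have h6 : w j * nn ((st N).1 j) ≤ N * W := h5.trans hs2
  have h7 : ∑ s, ‖(st N).1 j s‖ ^ 2 = nn ((st N).1 j) := rfl
  rw [h7, div_mul_eq_mul_div, le_div_iff₀ (hw j)]
  linarith

end Pool.Agent.H414.DF
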