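import Pool.Agent.H414.DF.Spec

/-!
# Bounds for the kernel
-/

set_option autoImplicit false

namespace Pool.Agent.H414.DF

open Finset

namespace Ker

theorem triv {r Q : ℕ} (b : Fin r → ℤ) :
    |Kr r Q b| ≤ ∑ d ∈ Icc 1 Q, (Q : ℝ) / d * (d : ℝ) ^ r *
      (if ∀ i, (d : ℤ) ∣ b i then 1 else 0) := by
  obtain ⟨f, hf⟩ : ∃ f : ℕ → ℝ, f = fun d : ℕ =>
      (d : ℝ) ^ r * (if ∀ i, (d : ℤ) ∣ b i then 1 else 0) := ⟨_, rfl⟩
  have hf0 : ∀ d, 0 ≤ f d := by
    intro d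
    rw [hf]
    simp only
    split_ifs <;> positivity
  have h1 : |Kr r Q b| ≤ ∑ q ∈ Icc 1 Q, ∑ d ∈ q.divisors, f d := by
    unfold Kr
    refine (abs_sum_le_sum_abs _ _).trans (sum_le_sum fun q _ => ?_)
    refine (abs_sum_le_sum_abs _ _).trans ?_
    rw [Nat.sum_divisorsAntidiagonal' (fun x y => |(ArithmeticFunction.moebius x : ℝ) *
      (y : ℝ) ^ r * (if ∀ i, (y : ℤ) ∣ b i then 1 else 0)|)]
    refine sum_le_sum fun d _ => ?_
    rw [mul_assoc, abs_mul]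
    have h2 : |(ArithmeticFunction.moebius (q / d) : ℝ)| ≤ 1 := by
      have := ArithmeticFunction.abs_moebius_le_one (n := q / d)
      exact_mod_cast this
    have h3 : |(d : ℝ) ^ r * (if ∀ i, (d : ℤ) ∣ b i then 1 else 0)| = f d := by
      rw [hf]
      exact abs_of_nonneg (by have := hf0 d; rw [hf] at this; exact this)
    rw [h3]
    exact mul_le_of_le_one_left (hf0 d) h2
  have h2 : ∑ q ∈ Icc 1 Q, ∑ d ∈ q.divisors, f d =
      ∑ d ∈ Icc 1 Q, ∑ q ∈ (Icc 1 Q).filter (fun q => d ∣ q), f d := by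
    refine sum_comm' fun q d => ?_
    rw [Nat.mem_divisors, mem_filter, mem_Icc, mem_Icc]
    constructor
    · rintro ⟨⟨h1, h2⟩, h3, -⟩
      exact ⟨⟨⟨h1, h2⟩, h3⟩, Nat.pos_of_dvd_of_pos h3 h1, (Nat.le_of_dvd h1 h3).trans h2⟩
    · rintro ⟨⟨⟨h1, h2⟩, h3⟩, -⟩
      exact ⟨⟨h1, h2⟩, h3, by omega⟩
  refine h1.trans ?_
  rw [h2]
  refine sum_le_sum fun d _ => ?_
  rw [sum_const, nsmul_eq_mul, mul_assoc]
  have h3 : (((Icc 1 Q).filter (fun q => d ∣ q)).card : ℝ) ≤ (Q : ℝ) / d := by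
    have h4 : (Icc 1 Q).filter (fun q => d ∣ q) = (Ioc 0 Q).filter (fun q => d ∣ q) := by
      rfl
    rw [h4, Nat.Ioc_filter_dvd_card_eq_div]
    exact Nat.cast_div_le
  refine (mul_le_mul_of_nonneg_right h3 (hf0 d)).trans (le_of_eq ?_)
  rw [hf]

theorem term {r Q d : ℕ} (hr : 1 ≤ r) (hd : d ∈ Icc 1 Q) {e : ℝ} (he : 0 ≤ e) :
    (Q : ℝ) / d * (d : ℝ) ^ r * e ≤ (Q : ℝ) ^ r * e := by
  rw [mem_Icc] at hd
  refine mul_le_mul_of_nonneg_right ?_ he
  obtain ⟨s, rfl⟩ : ∃ s, r = s + 1 := ⟨r - 1, by omega⟩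
  have h0 : (0 : ℝ) < d := by exact_mod_cast hd.1
  have h1 : (d : ℝ) ≤ Q := by exact_mod_cast hd.2
  have h2 : (Q : ℝ) / d * (d : ℝ) ^ (s + 1) = (d : ℝ) ^ s * Q := by
    rw [pow_succ]
    field_simp
  rw [h2, pow_succ]
  exact mul_le_mul_of_nonneg_right (pow_le_pow_left₀ h0.le h1 s) (by positivity)

end Ker

open Ker in
/-- **S_K.** -/
theorem kbd : S_K := by
  intro r Q b hr
  have h3 := triv (Q := Q) b
  refine ⟨?_, fun j hj => ?_, h3⟩
  · refine h3.trans ?_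
    calc ∑ d ∈ Icc 1 Q, (Q : ℝ) / d * (d : ℝ) ^ r * (if ∀ i, (d : ℤ) ∣ b i then 1 else 0)
        ≤ ∑ d ∈ Icc 1 Q, (Q : ℝ) ^ r := by
          refine sum_le_sum fun d hd => ?_
          refine (term hr hd (by split_ifs <;> norm_num)).trans ?_
          refine mul_le_of_le_one_right (by positivity) ?_
          split_ifs <;> norm_num
      _ = (Q : ℝ) ^ (r + 1) := by
          rw [sum_const, Nat.card_Icc, nsmul_eq_mul, Nat.add_sub_cancel, pow_succ]
          ring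
  · refine h3.trans ?_
    calc ∑ d ∈ Icc 1 Q, (Q : ℝ) / d * (d : ℝ) ^ r * (if ∀ i, (d : ℤ) ∣ b i then 1 else 0)
        ≤ ∑ d ∈ Icc 1 Q, (Q : ℝ) ^ r * (if d ∈ (b j).natAbs.divisors then 1 else 0) := by
          refine sum_le_sum fun d hd => ?_
          refine (term hr hd (by split_ifs <;> norm_num)).trans ?_
          refine mul_le_mul_of_nonneg_left ?_ (by positivity)
          by_cases h1 : ∀ i, (d : ℤ) ∣ b i
          · have h2 : d ∈ (b j).natAbs.divisors := by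
              rw [Nat.mem_divisors]
              exact ⟨Int.natCast_dvd.1 (h1 j), Int.natAbs_ne_zero.2 hj⟩
            rw [if_pos h1, if_pos h2]
          · rw [if_neg h1]
            split_ifs <;> norm_num
      _ = (Q : ℝ) ^ r * (((Icc 1 Q).filter (fun d => d ∈ (b j).natAbs.divisors)).card : ℝ) := by
          rw [← mul_sum, sum_boole]
      _ ≤ (Q : ℝ) ^ r * ((b j).natAbs.divisors.card : ℝ) := by
          refine mul_le_mul_of_nonneg_left ?_ (by positivity)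
          have h1 : ((Icc 1 Q).filter (fun d => d ∈ (b j).natAbs.divisors)).card ≤
              (b j).natAbs.divisors.card :=
            card_le_card fun d hd => (mem_filter.1 hd).2
          exact_mod_cast h1

end Pool.Agent.H414.DF
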