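import Pool.Agent.H414.DF.Spec

set_option autoImplicit false

namespace Pool.Agent.H414.DF

open Finset
open Pool.Agent.H414.LT (primesUpTo blk kk)

namespace Mas

theorem e2_pos (x : ℝ) : 0 < e2 x := Real.rpow_pos_of_pos (by norm_num) x

theorem e2_add (x y : ℝ) : e2 (x + y) = e2 x * e2 y := Real.rpow_add (by norm_num) x y

theorem e2_mono {x y : ℝ} (h : x ≤ y) : e2 x ≤ e2 y :=
  Real.rpow_le_rpow_of_exponent_le (by norm_num) h

theorem e2_zero : e2 0 = 1 := Real.rpow_zero 2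

theorem e2_nat (k : ℕ) : e2 (k : ℝ) = (2 : ℝ) ^ k := Real.rpow_natCast 2 k

theorem e2_pow (x : ℝ) (n : ℕ) : e2 x ^ n = e2 (x * n) := by
  unfold e2
  rw [Real.rpow_mul (by norm_num), Real.rpow_natCast]

theorem e2_tendsto : ∀ (B : ℝ), ∃ k₁ : ℕ, ∀ k : ℕ, k₁ ≤ k → B * e2 (-((k : ℝ) / 10)) ≤ 1 / 2 := by
  intro B
  have h1 : Filter.Tendsto (fun k : ℕ => B * ((2 : ℝ) ^ (-(1 / 10 : ℝ))) ^ k) Filter.atTop
      (nhds (B * 0)) := by
    refine Filter.Tendsto.const_mul B ?_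
    refine tendsto_pow_atTop_nhds_zero_of_lt_one ?_ ?_
    · exact Real.rpow_nonneg (by norm_num) _
    · exact Real.rpow_lt_one_of_one_lt_of_neg (by norm_num) (by norm_num)
  rw [mul_zero] at h1
  have h2 := h1.eventually (gt_mem_nhds (show (0 : ℝ) < 1 / 2 by norm_num))
  rw [Filter.eventually_atTop] at h2
  obtain ⟨k₁, hk⟩ := h2
  refine ⟨k₁, fun k h => ?_⟩
  have h3 := hk k h
  have h4 : e2 (-((k : ℝ) / 10)) = ((2 : ℝ) ^ (-(1 / 10 : ℝ))) ^ k := by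
    have h5 : -((k : ℝ) / 10) = (-(1 / 10 : ℝ)) * k := by ring
    rw [h5]
    exact (e2_pow _ _).symm
  rw [h4]
  exact h3.le

theorem sq_le_two_pow : ∀ k : ℕ, 4 ≤ k → k ^ 2 ≤ 2 ^ k := by
  intro k hk
  induction k, hk using Nat.le_induction with
  | base => norm_num
  | succ n hn ih =>
    have h1 : (n + 1) ^ 2 ≤ 2 * n ^ 2 := by nlinarith
    calc (n + 1) ^ 2 ≤ 2 * n ^ 2 := h1
      _ ≤ 2 * 2 ^ n := by omega
      _ = 2 ^ (n + 1) := by ring

theorem sub_box (r k : ℕ) (hk : 4 ≤ k) : T r k ⊆ box r (2 ^ k) := by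
  unfold T box
  intro b hb
  rw [Fintype.mem_piFinset] at hb ⊢
  intro i
  have h1 := hb i
  rw [Finset.mem_Icc] at h1 ⊢
  have h2 : Nat.sqrt (k ^ 2) ≤ Nat.sqrt (2 ^ k) := Nat.sqrt_le_sqrt (sq_le_two_pow k hk)
  have h3 : ((Nat.sqrt (k ^ 2) : ℕ) : ℤ) ≤ ((Nat.sqrt (2 ^ k) : ℕ) : ℤ) := by exact_mod_cast h2
  constructor <;> linarith [h1.1, h1.2]

theorem th_bd (r : ℕ) (hr : 1 ≤ r) : th r * ((r : ℝ) + 1) ≤ 2 / 5 := by
  unfold th
  have h1 : (1 : ℝ) ≤ r := by exact_mod_cast hr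
  rw [div_mul_eq_mul_div, one_mul, div_le_div_iff₀ (by linarith) (by norm_num)]
  linarith

theorem Q_pow (r k : ℕ) (hr : 1 ≤ r) : ((Q r k : ℕ) : ℝ) ^ (r + 1) ≤ e2 ((k : ℝ) * (2 / 5)) := by
  have h1 : ((Q r k : ℕ) : ℝ) ≤ e2 ((k : ℝ) * th r) := Nat.floor_le (e2_pos _).le
  calc ((Q r k : ℕ) : ℝ) ^ (r + 1) ≤ e2 ((k : ℝ) * th r) ^ (r + 1) :=
        pow_le_pow_left₀ (Nat.cast_nonneg _) h1 _
    _ = e2 ((k : ℝ) * th r * ((r + 1 : ℕ) : ℝ)) := e2_pow _ _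
    _ ≤ e2 ((k : ℝ) * (2 / 5)) := by
        apply e2_mono
        have h2 := th_bd r hr
        have h3 : (0 : ℝ) ≤ k := Nat.cast_nonneg k
        push_cast
        calc (k : ℝ) * th r * ((r : ℝ) + 1) = k * (th r * ((r : ℝ) + 1)) := by ring
          _ ≤ k * (2 / 5) := mul_le_mul_of_nonneg_left h2 h3

end Mas

open Mas in
theorem mas (hCHE : LT.S_CHE) (hK : S_K) (hLT : S_LT) : S_M := by
  intro r w C δ f hr hw hδ hf
  obtain ⟨c, hc, hcard⟩ := hCHE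
  obtain ⟨C₁, hC₁⟩ := hLT r w C hr hw
  have hCnn : 0 ≤ C := by
    have h1 := (hw.nonneg 0 (fun _ => 0)).trans (hw.sup 0 (fun _ => 0))
    by_contra h
    push Not at h
    have h2 := e2_pos (-(((0 : ℕ) : ℝ) * (r : ℝ) / 2))
    nlinarith
  have hC₁nn : 0 ≤ C₁ := by
    have h1 := (abs_nonneg _).trans (hC₁ 0 (fun _ => 0))
    by_contra h
    push Not at h
    have h2 := e2_pos (-(2 * ((0 : ℕ) : ℝ)))
    nlinarith
  obtain ⟨k₁, hk₁⟩ := e2_tendsto (C * (1 + C₁))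
  have hkey : ∀ k : ℕ, k₁ ≤ k → ∀ t, |w k t * (Kr r (Q r k) 0 - Lt w k t)| ≤ 1 / 2 := by
    intro k hk t
    have h1 : |Kr r (Q r k) 0| ≤ e2 ((k : ℝ) * (2 / 5)) := (hK r (Q r k) 0 hr).1.trans (Q_pow r k hr)
    have h2 : |Lt w k t| ≤ C₁ * 1 := by
      refine (hC₁ k t).trans ?_
      refine mul_le_mul_of_nonneg_left ?_ hC₁nn
      rw [← e2_zero]
      apply e2_mono
      have : (0 : ℝ) ≤ k := Nat.cast_nonneg k
      linarith
    have h3 : |Kr r (Q r k) 0 - Lt w k t| ≤ (1 + C₁) * e2 ((k : ℝ) * (2 / 5)) := by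
      refine (abs_sub _ _).trans ?_
      have h4 : (1 : ℝ) ≤ e2 ((k : ℝ) * (2 / 5)) := by
        rw [← e2_zero]
        apply e2_mono
        have : (0 : ℝ) ≤ k := Nat.cast_nonneg k
        linarith
      nlinarith
    have h5 : w k t ≤ C * e2 (-((k : ℝ) * (1 / 2))) := by
      refine (hw.sup k t).trans ?_
      refine mul_le_mul_of_nonneg_left ?_ hCnn
      apply e2_mono
      have h6 : (1 : ℝ) ≤ r := by exact_mod_cast hr
      have h7 : (0 : ℝ) ≤ k := Nat.cast_nonneg k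
      nlinarith
    rw [abs_mul, abs_of_nonneg (hw.nonneg k t)]
    calc w k t * |Kr r (Q r k) 0 - Lt w k t|
        ≤ (C * e2 (-((k : ℝ) * (1 / 2)))) * ((1 + C₁) * e2 ((k : ℝ) * (2 / 5))) :=
          mul_le_mul h5 h3 (abs_nonneg _) (mul_nonneg hCnn (e2_pos _).le)
      _ = (C * (1 + C₁)) * (e2 (-((k : ℝ) * (1 / 2))) * e2 ((k : ℝ) * (2 / 5))) := by ring
      _ = (C * (1 + C₁)) * e2 (-((k : ℝ) / 10)) := by
          rw [← e2_add]
          ring_nf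
      _ ≤ 1 / 2 := hk₁ k hk
  have hD : ∀ k : ℕ, k₁ ≤ k → ∀ t, 1 / 2 ≤ 1 - w k t * (Kr r (Q r k) 0 - Lt w k t) := by
    intro k hk t
    have := (abs_le.mp (hkey k hk t)).2
    linarith
  have hcpos : ∀ k : ℕ, 0 < ((blk k).card : ℝ) := by
    intro k
    refine lt_of_lt_of_le ?_ (hcard k)
    positivity
  refine ⟨fun k t => |(f k t : ℝ) / (((blk k).card : ℝ) *
      (1 - w k t * (Kr r (Q r k) 0 - Lt w k t)))|, max k₁ 4, 2 / c, ?_, ?_, ?_, ?_, ?_⟩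
  · intro k hk
    exact sub_box r k ((le_max_right _ _).trans hk)
  · intro k t
    exact abs_nonneg _
  · intro k hk
    have hk' : k₁ ≤ k := (le_max_left _ _).trans hk
    have h1 : ∀ t ∈ T r k, |(f k t : ℝ) / (((blk k).card : ℝ) *
        (1 - w k t * (Kr r (Q r k) 0 - Lt w k t)))| ≤ (2 * ((k : ℝ) + 1) / (c * 2 ^ k)) * (f k t : ℝ) := by
      intro t _
      have h2 := hD k hk' t
      have h3 : 0 < ((blk k).card : ℝ) * (1 - w k t * (Kr r (Q r k) 0 - Lt w k t)) :=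
        mul_pos (hcpos k) (by linarith)
      rw [abs_of_nonneg (div_nonneg (Nat.cast_nonneg _) h3.le)]
      have h4 : c * 2 ^ k / (2 * ((k : ℝ) + 1)) ≤
          ((blk k).card : ℝ) * (1 - w k t * (Kr r (Q r k) 0 - Lt w k t)) := by
        calc c * 2 ^ k / (2 * ((k : ℝ) + 1)) = (c * 2 ^ k / ((k : ℝ) + 1)) * (1 / 2) := by
              field_simp
          _ ≤ ((blk k).card : ℝ) * (1 - w k t * (Kr r (Q r k) 0 - Lt w k t)) :=
              mul_le_mul (hcard k) h2 (by norm_num) (hcpos k).le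
      have h5 : 0 < c * 2 ^ k / (2 * ((k : ℝ) + 1)) := by positivity
      calc (f k t : ℝ) / (((blk k).card : ℝ) * (1 - w k t * (Kr r (Q r k) 0 - Lt w k t)))
          ≤ (f k t : ℝ) / (c * 2 ^ k / (2 * ((k : ℝ) + 1))) :=
            div_le_div_of_nonneg_left (Nat.cast_nonneg _) h5 h4
        _ = (2 * ((k : ℝ) + 1) / (c * 2 ^ k)) * (f k t : ℝ) := by
            field_simp
    refine (Finset.sum_le_sum h1).trans ?_
    rw [← Finset.mul_sum]
    have h6 := hf k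
    push_cast at h6
    have h7 : 0 ≤ 2 * ((k : ℝ) + 1) / (c * 2 ^ k) := by positivity
    refine (mul_le_mul_of_nonneg_left h6 h7).trans (le_of_eq ?_)
    have h8 : e2 ((k : ℝ) * (1 - r * th r - δ)) = 2 ^ k * e2 (-((k : ℝ) * (r * th r + δ))) := by
      rw [← e2_nat, ← e2_add]
      ring_nf
    rw [h8]
    have h9 : (2 : ℝ) ^ k ≠ 0 := by positivity
    field_simp
  · intro k hk t _
    have hk' : k₁ ≤ k := (le_max_left _ _).trans hk
    have := hD k hk' t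
    linarith
  · intro k hk t _
    have hk' : k₁ ≤ k := (le_max_left _ _).trans hk
    have h2 := hD k hk' t
    have h2' : 0 < 1 - w k t * (Kr r (Q r k) 0 - Lt w k t) := by linarith
    have h3 : 0 < ((blk k).card : ℝ) * (1 - w k t * (Kr r (Q r k) 0 - Lt w k t)) :=
      mul_pos (hcpos k) h2'
    show ((blk k).card : ℝ) * (|(f k t : ℝ) / (((blk k).card : ℝ) *
        (1 - w k t * (Kr r (Q r k) 0 - Lt w k t)))| *
        (1 - w k t * (Kr r (Q r k) 0 - Lt w k t))) = f k t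
    rw [abs_of_nonneg (div_nonneg (Nat.cast_nonneg _) h3.le)]
    have h4 := (hcpos k).ne'
    have h5 := h2'.ne'
    rw [mul_comm (_ / _) _, ← mul_assoc, mul_div_cancel₀ _ h3.ne']

end Pool.Agent.H414.DF
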