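import Pool.Agent.H414.DF.Spec

/-!
# Moebius inversion with a greatest common divisor (task MOB)
-/

set_option autoImplicit false

namespace Pool.Agent.H414.DF

open Finset

namespace Mob

/-- the Moebius transform of `H` -/
noncomputable def hp (H : ℕ → ℂ) (n : ℕ) : ℂ :=
  ∑ x ∈ n.divisorsAntidiagonal, ((ArithmeticFunction.moebius x.1 : ℤ) : ℂ) * H x.2

lemma sum_hp (H : ℕ → ℂ) {n : ℕ} (hn : 0 < n) : ∑ i ∈ n.divisors, hp H i = H n :=
  ArithmeticFunction.sum_eq_iff_sum_mul_moebius_eq.2 (fun _ _ => rfl) n hn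

lemma sum_gcd (H : ℕ → ℂ) {q : ℕ} (hq : 1 ≤ q) {n : ℕ} (hn : 0 < n) :
    ∑ x ∈ n.divisorsAntidiagonal, ((ArithmeticFunction.moebius x.1 : ℤ) : ℂ) *
      H (Nat.gcd x.2 q) = if n ∣ q then hp H n else 0 := by
  have h := (ArithmeticFunction.sum_eq_iff_sum_mul_moebius_eq (R := ℂ)
    (f := fun n => if n ∣ q then hp H n else 0) (g := fun n => H (Nat.gcd n q))).1 ?_ n hn
  · exact h
  · intro n hn
    rw [← Finset.sum_filter]
    have h1 : n.divisors.filter (fun i => i ∣ q) = (Nat.gcd n q).divisors := by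
      ext i
      rw [Finset.mem_filter, Nat.mem_divisors, Nat.mem_divisors, Nat.dvd_gcd_iff]
      constructor
      · rintro ⟨⟨h1, -⟩, h2⟩
        exact ⟨⟨h1, h2⟩, (Nat.gcd_pos_of_pos_left q hn).ne'⟩
      · rintro ⟨⟨h1, h2⟩, -⟩
        exact ⟨⟨h1, hn.ne'⟩, h2⟩
    rw [h1]
    exact sum_hp H (Nat.gcd_pos_of_pos_left q hn)

lemma norm_hp (H : ℕ → ℂ) {B : ℝ} (hB : ∀ n, ‖H n‖ ≤ B) (n : ℕ) :
    ‖hp H n‖ ≤ (n.divisors.card : ℝ) * B := by
  have h0 : 0 ≤ B := (norm_nonneg _).trans (hB 0)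
  unfold hp
  rw [Nat.sum_divisorsAntidiagonal (f := fun a b =>
    ((ArithmeticFunction.moebius a : ℤ) : ℂ) * H b)]
  refine (norm_sum_le _ _).trans ?_
  rw [← nsmul_eq_mul]
  refine Finset.sum_le_card_nsmul _ _ _ fun i _ => ?_
  rw [norm_mul]
  have h1 : ‖((ArithmeticFunction.moebius i : ℤ) : ℂ)‖ ≤ 1 := by
    rw [Complex.norm_intCast]
    have := ArithmeticFunction.abs_moebius_le_one (n := i)
    exact_mod_cast this
  calc ‖((ArithmeticFunction.moebius i : ℤ) : ℂ)‖ * ‖H (n / i)‖ ≤ 1 * B :=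
        mul_le_mul h1 (hB _) (norm_nonneg _) zero_le_one
    _ = B := one_mul B

end Mob

theorem mob : S_MOB := by
  intro H q Q hq
  have key : ∑ n ∈ Icc 1 Q, ∑ x ∈ n.divisorsAntidiagonal,
      ((ArithmeticFunction.moebius x.1 : ℤ) : ℂ) * H (Nat.gcd x.2 q) =
      ∑ n ∈ (Icc 1 Q).filter (fun n => n ∣ q), Mob.hp H n := by
    rw [Finset.sum_filter]
    exact Finset.sum_congr rfl fun n hn => Mob.sum_gcd H hq (by
      have := (Finset.mem_Icc.1 hn).1
      omega)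
  have hsub : (Icc 1 Q).filter (fun n => n ∣ q) ⊆ q.divisors := by
    intro n hn
    exact Nat.mem_divisors.2 ⟨(Finset.mem_filter.1 hn).2, by omega⟩
  constructor
  · intro hqQ
    rw [key]
    have h1 : (Icc 1 Q).filter (fun n => n ∣ q) = q.divisors := by
      refine Finset.Subset.antisymm hsub fun n hn => ?_
      have h2 := Nat.mem_divisors.1 hn
      exact Finset.mem_filter.2 ⟨Finset.mem_Icc.2 ⟨Nat.pos_of_mem_divisors hn,
        (Nat.divisor_le hn).trans hqQ⟩, h2.1⟩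
    rw [h1]
    exact Mob.sum_hp H hq
  · intro B hB
    have h0 : 0 ≤ B := (norm_nonneg _).trans (hB 0)
    rw [key]
    refine (norm_sum_le _ _).trans ?_
    have h1 : ∑ n ∈ (Icc 1 Q).filter (fun n => n ∣ q), ‖Mob.hp H n‖ ≤
        ∑ n ∈ q.divisors, ‖Mob.hp H n‖ :=
      Finset.sum_le_sum_of_subset_of_nonneg hsub fun _ _ _ => norm_nonneg _
    refine h1.trans ?_
    have h2 : ∀ n ∈ q.divisors, ‖Mob.hp H n‖ ≤ (q.divisors.card : ℝ) * B := by
      intro n hn
      refine (Mob.norm_hp H hB n).trans ?_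
      have h3 : n.divisors.card ≤ q.divisors.card :=
        Finset.card_le_card (Nat.divisors_subset_of_dvd (by omega) (Nat.dvd_of_mem_divisors hn))
      have h4 : (n.divisors.card : ℝ) ≤ (q.divisors.card : ℝ) := by exact_mod_cast h3
      exact mul_le_mul_of_nonneg_right h4 h0
    refine (Finset.sum_le_card_nsmul _ _ _ h2).trans (le_of_eq ?_)
    rw [nsmul_eq_mul]
    ring

end Pool.Agent.H414.DF
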