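import Pool.Agent.H414.DF.Spec

/-!
Project DF: `S_MODIF` (changing few primes of a system to get exactly the right numbers).
-/

set_option autoImplicit false

namespace Pool.Agent.H414.DF

open Finset
open Pool.Agent.H414.LT (primesUpTo blk kk two_le_kk mem_blk)

namespace Modif

theorem e2_pos (x : ℝ) : 0 < e2 x := Real.rpow_pos_of_pos (by norm_num) _

theorem e2_nat_mul (x : ℝ) (k : ℕ) : e2 ((k : ℝ) * x) = e2 x ^ k := by
  unfold e2
  rw [mul_comm, Real.rpow_mul (by norm_num), Real.rpow_natCast]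

theorem e2_add (x y : ℝ) : e2 (x + y) = e2 x * e2 y := by
  unfold e2
  rw [Real.rpow_add (by norm_num)]

theorem e2_mono {x y : ℝ} (h : x ≤ y) : e2 x ≤ e2 y :=
  Real.rpow_le_rpow_of_exponent_le (by norm_num) h

theorem e2_nat (k : ℕ) : e2 (k : ℝ) = 2 ^ k := by
  unfold e2
  rw [Real.rpow_natCast]

theorem small (δ : ℝ) (hδ : 0 < δ) (η : ℝ) (hη : 0 < η) :
    ∃ k₀ : ℕ, ∀ k : ℕ, k₀ ≤ k → ((k : ℝ) + 1) * e2 ((k : ℝ) * (-δ)) ≤ η := by
  have hr0 : 0 < e2 (-δ) := e2_pos _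
  have hr1 : e2 (-δ) < 1 := Real.rpow_lt_one_of_one_lt_of_neg (by norm_num) (by linarith)
  have hr2 : |e2 (-δ)| < 1 := by rw [abs_of_pos hr0]; exact hr1
  have h1 := tendsto_pow_const_mul_const_pow_of_abs_lt_one 1 hr2
  have h2 := tendsto_pow_const_mul_const_pow_of_abs_lt_one 0 hr2
  have h3 := h1.add h2
  have h4 := h3.eventually (gt_mem_nhds (show (0 : ℝ) + 0 < η by linarith))
  obtain ⟨k₀, hk₀⟩ := Filter.eventually_atTop.1 h4
  refine ⟨k₀, fun k hk => ?_⟩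
  have h5 := hk₀ k hk
  rw [e2_nat_mul]
  have h6 : (k : ℝ) ^ 1 * e2 (-δ) ^ k + (k : ℝ) ^ 0 * e2 (-δ) ^ k =
      ((k : ℝ) + 1) * e2 (-δ) ^ k := by ring
  have h7 : (k : ℝ) ^ 1 * e2 (-δ) ^ k + (k : ℝ) ^ 0 * e2 (-δ) ^ k < η := h5
  linarith

theorem norm_le_l2 {α : Type} [Fintype α] (G : α → ℂ) (y : α) : ‖G y‖ ≤ l2 G := by
  unfold l2
  refine Real.le_sqrt_of_sq_le ?_
  exact single_le_sum (f := fun x => ‖G x‖ ^ 2) (fun x _ => sq_nonneg _) (mem_univ y)

theorem l2_nonneg {α : Type} [Fintype α] (G : α → ℂ) : 0 ≤ l2 G := Real.sqrt_nonneg _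

theorem mem_box {r n : ℕ} {b : Fin r → ℤ} :
    b ∈ box r n ↔ ∀ i, -(Nat.sqrt n : ℤ) ≤ b i ∧ b i ≤ Nat.sqrt n := by
  unfold box
  rw [Fintype.mem_piFinset]
  simp only [mem_Icc]

theorem sq_le_two_pow : ∀ k : ℕ, 6 ≤ k → (k + 1) ^ 2 ≤ 2 ^ k := by
  intro k hk
  induction k, hk using Nat.le_induction with
  | base => norm_num
  | succ n hn ih =>
      have h1 : (n + 1 + 1) ^ 2 ≤ 2 * (n + 1) ^ 2 := by nlinarith
      calc (n + 1 + 1) ^ 2 ≤ 2 * (n + 1) ^ 2 := h1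
        _ ≤ 2 * 2 ^ n := Nat.mul_le_mul_left 2 ih
        _ = 2 ^ (n + 1) := by ring

/-- the number of the changed primes -/
theorem count (r : ℕ) (a a' : ℕ → Fin r → ℤ) (N : ℕ → ℕ) (k₁ : ℕ)
    (h0 : ∀ p, kk p < k₁ → a' p = a p)
    (h1 : ∀ k, k₁ ≤ k → ((blk k).filter fun p => a' p ≠ a p).card ≤ N k)
    (hN : ∀ ε : ℝ, 0 < ε → ∃ C : ℝ, 0 ≤ C ∧ ∀ k, k₁ ≤ k → (N k : ℝ) ≤ C * e2 (k * (1 / 2 + ε)))
    (ε : ℝ) (hε : 0 < ε) :
    ∃ C : ℝ, 0 ≤ C ∧ ∀ x : ℕ, (((primesUpTo x).filter fun p => a' p ≠ a p).card : ℝ) ≤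
      C * ((x : ℝ) + 1) ^ (1 / 2 + ε) := by
  obtain ⟨C, hC0, hC⟩ := hN ε hε
  obtain ⟨ρ, hρ⟩ : ∃ ρ : ℝ, ρ = e2 (1 / 2 + ε) := ⟨_, rfl⟩
  have hρ1 : 1 < ρ := by
    rw [hρ]; exact Real.one_lt_rpow (by norm_num) (by linarith)
  have hρ0 : 0 < ρ := by linarith
  refine ⟨C * (ρ / (ρ - 1)), mul_nonneg hC0 (div_nonneg hρ0.le (by linarith)), ?_⟩
  intro x
  have hx0 : (0 : ℝ) ≤ x := Nat.cast_nonneg x
  have hsub : ((primesUpTo x).filter fun p => a' p ≠ a p) ⊆
      (range (Nat.log 2 x + 1)).biUnion (fun k => (blk k).filter fun p => a' p ≠ a p) := by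
    intro p hp
    rw [mem_filter, primesUpTo, mem_filter, mem_range] at hp
    obtain ⟨⟨hpx, hpp⟩, hne⟩ := hp
    rw [mem_biUnion]
    refine ⟨kk p, ?_, ?_⟩
    · rw [mem_range]
      have h2 := (two_le_kk hpp.two_le).1
      have h3 : kk p ≤ Nat.log 2 x := Nat.le_log_of_pow_le (by norm_num) (by omega)
      omega
    · rw [mem_filter, mem_blk]
      exact ⟨⟨hpp, rfl⟩, hne⟩
  have hcard : (((primesUpTo x).filter fun p => a' p ≠ a p).card : ℝ) ≤
      ∑ k ∈ range (Nat.log 2 x + 1), C * ρ ^ k := by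
    calc (((primesUpTo x).filter fun p => a' p ≠ a p).card : ℝ)
        ≤ ((∑ k ∈ range (Nat.log 2 x + 1), ((blk k).filter fun p => a' p ≠ a p).card : ℕ) : ℝ) := by
          exact_mod_cast (card_le_card hsub).trans card_biUnion_le
      _ = ∑ k ∈ range (Nat.log 2 x + 1), (((blk k).filter fun p => a' p ≠ a p).card : ℝ) := by
          push_cast; rfl
      _ ≤ _ := by
          refine sum_le_sum fun k _ => ?_
          by_cases hk : k₁ ≤ k
          · have h2 : (((blk k).filter fun p => a' p ≠ a p).card : ℝ) ≤ (N k : ℝ) := by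
              exact_mod_cast h1 k hk
            have h3 := hC k hk
            rw [e2_nat_mul, ← hρ] at h3
            exact h2.trans h3
          · have h2 : ((blk k).filter fun p => a' p ≠ a p) = ∅ := by
              rw [filter_eq_empty_iff]
              intro p hp
              rw [mem_blk] at hp
              have := h0 p (by omega)
              simp [this]
            rw [h2]
            simp only [card_empty, Nat.cast_zero]
            positivity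
  have hgeo : ∑ k ∈ range (Nat.log 2 x + 1), C * ρ ^ k ≤
      C * (ρ / (ρ - 1)) * ρ ^ (Nat.log 2 x) := by
    rw [← mul_sum, geom_sum_eq hρ1.ne']
    have h2 : (ρ ^ (Nat.log 2 x + 1) - 1) / (ρ - 1) ≤ ρ / (ρ - 1) * ρ ^ (Nat.log 2 x) := by
      rw [div_mul_eq_mul_div]
      refine div_le_div_of_nonneg_right ?_ (by linarith)
      rw [pow_succ]
      linarith
    calc C * ((ρ ^ (Nat.log 2 x + 1) - 1) / (ρ - 1)) ≤ C * (ρ / (ρ - 1) * ρ ^ (Nat.log 2 x)) :=
          mul_le_mul_of_nonneg_left h2 hC0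
      _ = _ := by ring
  have hpow : ρ ^ (Nat.log 2 x) ≤ ((x : ℝ) + 1) ^ (1 / 2 + ε) := by
    have h2 : (2 : ℕ) ^ (Nat.log 2 x) ≤ x + 1 := by
      rcases Nat.eq_zero_or_pos x with h | h
      · subst h; simp
      · have := Nat.pow_log_le_self 2 (x := x) (by omega)
        omega
    have h3 : ((2 : ℝ) ^ (Nat.log 2 x)) ≤ (x : ℝ) + 1 := by exact_mod_cast h2
    rw [hρ, ← e2_nat_mul]
    unfold e2
    rw [Real.rpow_mul (by norm_num), Real.rpow_natCast]
    exact Real.rpow_le_rpow (by positivity) h3 (by linarith)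
  calc (((primesUpTo x).filter fun p => a' p ≠ a p).card : ℝ)
      ≤ C * (ρ / (ρ - 1)) * ρ ^ (Nat.log 2 x) := hcard.trans hgeo
    _ ≤ _ := mul_le_mul_of_nonneg_left hpow
        (mul_nonneg hC0 (div_nonneg hρ0.le (by linarith)))

/-- few changes preserve the bounds -/
theorem bound (r : ℕ) (μ : ℕ → (Fin r → ℤ) → ℝ) (c : ℕ → ℕ → ℂ) (a a' : ℕ → Fin r → ℤ)
    (hc : ∀ i p, ‖c i p‖ ≤ 1) (hB : HasBound r μ c a)
    (hcount : ∀ ε : ℝ, 0 < ε → ∃ C : ℝ, 0 ≤ C ∧ ∀ x : ℕ,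
      (((primesUpTo x).filter fun p => a' p ≠ a p).card : ℝ) ≤ C * ((x : ℝ) + 1) ^ (1 / 2 + ε)) :
    HasBound r μ c a' := by
  intro i ε hε
  obtain ⟨C, hC⟩ := hB i ε hε
  obtain ⟨D, hD0, hD⟩ := hcount ε hε
  refine ⟨C + 2 * D, ?_⟩
  intro q _ F x
  have hq : (1 : ℝ) ≤ (q : ℝ) ^ r := by
    have : (1 : ℝ) ≤ (q : ℝ) := by exact_mod_cast NeZero.one_le
    exact one_le_pow₀ this
  have hl := l2_nonneg F
  have hx : (0 : ℝ) ≤ ((x : ℝ) + 1) ^ (1 / 2 + ε) := by positivity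
  have e1 : ∑ p ∈ primesUpTo x, c i p * (F (p, red q (a' p)) -
      ∑ b ∈ box r (4 * p), (μ p b : ℂ) * F (p, red q b)) =
      ∑ p ∈ primesUpTo x, c i p * (F (p, red q (a p)) -
        ∑ b ∈ box r (4 * p), (μ p b : ℂ) * F (p, red q b)) +
      ∑ p ∈ (primesUpTo x).filter (fun p => a' p ≠ a p),
        c i p * (F (p, red q (a' p)) - F (p, red q (a p))) := by
    rw [sum_filter, ← sum_add_distrib]
    refine sum_congr rfl fun p _ => ?_
    by_cases h : a' p ≠ a p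
    · rw [if_pos h]; ring
    · rw [if_neg h]
      rw [not_not] at h
      rw [h]; ring
  rw [e1]
  refine (norm_add_le _ _).trans ?_
  have e2' : ‖∑ p ∈ (primesUpTo x).filter (fun p => a' p ≠ a p),
      c i p * (F (p, red q (a' p)) - F (p, red q (a p)))‖ ≤
      (D * ((x : ℝ) + 1) ^ (1 / 2 + ε)) * (2 * l2 F) := by
    calc _ ≤ ∑ p ∈ (primesUpTo x).filter (fun p => a' p ≠ a p),
        ‖c i p * (F (p, red q (a' p)) - F (p, red q (a p)))‖ := norm_sum_le _ _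
      _ ≤ ∑ p ∈ (primesUpTo x).filter (fun p => a' p ≠ a p), 2 * l2 F := by
          refine sum_le_sum fun p _ => ?_
          rw [norm_mul]
          calc ‖c i p‖ * ‖F (p, red q (a' p)) - F (p, red q (a p))‖
              ≤ 1 * ‖F (p, red q (a' p)) - F (p, red q (a p))‖ :=
                mul_le_mul_of_nonneg_right (hc i p) (norm_nonneg _)
            _ ≤ 1 * (‖F (p, red q (a' p))‖ + ‖F (p, red q (a p))‖) :=
                mul_le_mul_of_nonneg_left (norm_sub_le _ _) zero_le_one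
            _ ≤ 2 * l2 F := by
                have h1 := norm_le_l2 F ((p : ZMod q), red q (a' p))
                have h2 := norm_le_l2 F ((p : ZMod q), red q (a p))
                linarith
      _ = (((primesUpTo x).filter fun p => a' p ≠ a p).card : ℝ) * (2 * l2 F) := by
          rw [sum_const, nsmul_eq_mul]
      _ ≤ _ := mul_le_mul_of_nonneg_right (hD x) (by linarith)
  have e3 : (D * ((x : ℝ) + 1) ^ (1 / 2 + ε)) * (2 * l2 F) ≤
      2 * D * (q : ℝ) ^ r * l2 F * ((x : ℝ) + 1) ^ (1 / 2 + ε) := by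
    have h1 : 0 ≤ D * ((x : ℝ) + 1) ^ (1 / 2 + ε) * (2 * l2 F) := by positivity
    calc (D * ((x : ℝ) + 1) ^ (1 / 2 + ε)) * (2 * l2 F)
        = (D * ((x : ℝ) + 1) ^ (1 / 2 + ε)) * (2 * l2 F) * 1 := by ring
      _ ≤ (D * ((x : ℝ) + 1) ^ (1 / 2 + ε)) * (2 * l2 F) * (q : ℝ) ^ r :=
          mul_le_mul_of_nonneg_left hq h1
      _ = _ := by ring
  have e4 := hC q F x
  calc _ ≤ C * (q : ℝ) ^ r * l2 F * ((x : ℝ) + 1) ^ (1 / 2 + ε) +
        2 * D * (q : ℝ) ^ r * l2 F * ((x : ℝ) + 1) ^ (1 / 2 + ε) :=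
        add_le_add e4 (e2'.trans e3)
    _ = _ := by ring

end Modif

open Modif

theorem modif (hCHE : LT.S_CHE) (hASG : S_ASG) : S_MODIF := by
  intro r μ c δ f a k₀ hr hδ hc hf ha hB happ
  obtain ⟨N, hN⟩ : ∃ N : ℕ → ℕ, ∀ k, N k = ∑ t ∈ T r k,
      ((((blk k).filter fun p => a p = t).card : ℤ) - (f k t : ℤ)).natAbs := ⟨_, fun _ => rfl⟩
  have hNr : ∀ k, (N k : ℝ) =
      ∑ t ∈ T r k, |(((blk k).filter fun p => a p = t).card : ℝ) - f k t| := by
    intro k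
    rw [hN k, Nat.cast_sum]
    refine sum_congr rfl fun t _ => ?_
    rw [Nat.cast_natAbs]
    push_cast
    rfl
  have hNz : ∀ k, ∑ t ∈ T r k,
      |((((blk k).filter fun p => a p = t).card : ℕ) : ℤ) - (f k t : ℤ)| ≤ (N k : ℤ) := by
    intro k
    rw [hN k, Nat.cast_sum]
    refine sum_le_sum fun t _ => ?_
    rw [Int.natCast_natAbs]
  have hNε : ∀ ε : ℝ, 0 < ε → ∃ C : ℝ, 0 ≤ C ∧ ∀ k, k₀ ≤ k →
      (N k : ℝ) ≤ C * e2 (k * (1 / 2 + ε)) := by
    intro ε hε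
    obtain ⟨C, hC⟩ := happ ε hε
    refine ⟨|C|, abs_nonneg _, fun k hk => ?_⟩
    rw [hNr k]
    exact (hC k hk).trans (mul_le_mul_of_nonneg_right (le_abs_self C) (e2_pos _).le)
  obtain ⟨c0, hc0, hche⟩ := hCHE
  obtain ⟨C, hC0, hC⟩ := hNε (1 / 4) (by norm_num)
  obtain ⟨A, hA⟩ := small δ hδ (c0 / 2) (by positivity)
  obtain ⟨B, hB'⟩ := small (1 / 4) (by norm_num) (c0 / (4 * (C + 1))) (by positivity)
  obtain ⟨k₁, hk₁⟩ : ∃ k₁ : ℕ, k₁ = max (max k₀ 6) (max A B) := ⟨_, rfl⟩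
  have hk0 : k₀ ≤ k₁ := by rw [hk₁]; exact (le_max_left _ _).trans (le_max_left _ _)
  have hk6 : 6 ≤ k₁ := by rw [hk₁]; exact (le_max_right _ _).trans (le_max_left _ _)
  have hkA : A ≤ k₁ := by rw [hk₁]; exact (le_max_left _ _).trans (le_max_right _ _)
  have hkB : B ≤ k₁ := by rw [hk₁]; exact (le_max_right _ _).trans (le_max_right _ _)
  have hth : 0 ≤ (r : ℝ) * th r := by
    unfold th
    positivity
  have hcap : ∀ k, k₁ ≤ k → ∑ t ∈ T r k, f k t + 2 * N k ≤ (blk k).card := by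
    intro k hk
    have hk' : (0 : ℝ) ≤ k := Nat.cast_nonneg k
    have hk1 : (0 : ℝ) < (k : ℝ) + 1 := by linarith
    have h2k : (0 : ℝ) < (2 : ℝ) ^ k := by positivity
    have e1 : ((∑ t ∈ T r k, f k t : ℕ) : ℝ) * ((k : ℝ) + 1) ≤ c0 / 2 * 2 ^ k := by
      have h1 : ((∑ t ∈ T r k, f k t : ℕ) : ℝ) ≤ 2 ^ k * e2 ((k : ℝ) * (-δ)) := by
        refine (hf k).trans ?_
        rw [← e2_nat k, ← e2_add]
        refine e2_mono ?_
        have : 0 ≤ (k : ℝ) * ((r : ℝ) * th r) := mul_nonneg hk' hth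
        linarith
      have h2 := hA k (hkA.trans hk)
      calc ((∑ t ∈ T r k, f k t : ℕ) : ℝ) * ((k : ℝ) + 1)
          ≤ (2 ^ k * e2 ((k : ℝ) * (-δ))) * ((k : ℝ) + 1) :=
            mul_le_mul_of_nonneg_right h1 hk1.le
        _ = (((k : ℝ) + 1) * e2 ((k : ℝ) * (-δ))) * 2 ^ k := by ring
        _ ≤ c0 / 2 * 2 ^ k := mul_le_mul_of_nonneg_right h2 h2k.le
    have e2' : (2 * (N k : ℝ)) * ((k : ℝ) + 1) ≤ c0 / 2 * 2 ^ k := by
      have h1 : (N k : ℝ) ≤ C * (2 ^ k * e2 ((k : ℝ) * (-(1 / 4)))) := by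
        have h3 := hC k (hk0.trans hk)
        have h4 : e2 ((k : ℝ) * (1 / 2 + 1 / 4)) = 2 ^ k * e2 ((k : ℝ) * (-(1 / 4))) := by
          rw [← e2_nat k, ← e2_add]
          congr 1
          ring
        rwa [h4] at h3
      have h2 := hB' k (hkB.trans hk)
      have h5 : C * (c0 / (4 * (C + 1))) ≤ c0 / 4 := by
        have : 0 < C + 1 := by linarith
        rw [← mul_div_assoc, div_le_div_iff₀ (by positivity) (by norm_num)]
        nlinarith
      calc (2 * (N k : ℝ)) * ((k : ℝ) + 1)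
          ≤ (2 * (C * (2 ^ k * e2 ((k : ℝ) * (-(1 / 4)))))) * ((k : ℝ) + 1) :=
            mul_le_mul_of_nonneg_right (by linarith) hk1.le
        _ = (2 * (C * (((k : ℝ) + 1) * e2 ((k : ℝ) * (-(1 / 4)))))) * 2 ^ k := by ring
        _ ≤ (2 * (C * (c0 / (4 * (C + 1))))) * 2 ^ k := by
            refine mul_le_mul_of_nonneg_right ?_ h2k.le
            refine mul_le_mul_of_nonneg_left ?_ (by norm_num)
            exact mul_le_mul_of_nonneg_left h2 hC0
        _ ≤ c0 / 2 * 2 ^ k := by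
            refine mul_le_mul_of_nonneg_right ?_ h2k.le
            linarith
    have e3 := hche k
    rw [div_le_iff₀ hk1] at e3
    have e4 : (((∑ t ∈ T r k, f k t + 2 * N k : ℕ) : ℝ)) * ((k : ℝ) + 1) ≤
        ((blk k).card : ℝ) * ((k : ℝ) + 1) := by
      have : (((∑ t ∈ T r k, f k t + 2 * N k : ℕ) : ℝ)) =
          ((∑ t ∈ T r k, f k t : ℕ) : ℝ) + 2 * (N k : ℝ) := by push_cast; ring
      rw [this, add_mul]
      linarith
    exact_mod_cast le_of_mul_le_mul_right e4 hk1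
  have hu : ∀ k : ℕ, (fun _ : Fin r => ((k : ℤ) + 1)) ∉ T r k := by
    intro k hk
    unfold T at hk
    rw [mem_box] at hk
    have h1 := (hk ⟨0, hr⟩).2
    rw [Nat.sqrt_eq'] at h1
    omega
  have hex : ∀ k, k₁ ≤ k → ∃ g : ℕ → Fin r → ℤ,
      (∀ t ∈ T r k, ((blk k).filter fun x => g x = t).card = f k t) ∧
      ((blk k).filter fun x => g x ≠ a x).card ≤ N k ∧
      (∀ x, x ∉ blk k → g x = a x) ∧
      ∀ x ∈ blk k, g x = a x ∨ g x = (fun _ : Fin r => ((k : ℤ) + 1)) ∨ g x ∈ T r k := by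
    intro k hk
    exact hASG ℕ (Fin r → ℤ) (blk k) (T r k) (fun _ : Fin r => ((k : ℤ) + 1)) a (f k) (N k)
      (hu k) (hNz k) (hcap k hk)
  choose! g hg using hex
  obtain ⟨a', ha'⟩ : ∃ a' : ℕ → Fin r → ℤ, ∀ p, a' p = if k₁ ≤ kk p then g (kk p) p else a p :=
    ⟨_, fun _ => rfl⟩
  have hblk : ∀ k, k₁ ≤ k → ∀ p ∈ blk k, a' p = g k p := by
    intro k hk p hp
    rw [mem_blk] at hp
    rw [ha' p, hp.2, if_pos hk]
  refine ⟨a', ?_, ?_, k₁, ?_⟩
  · intro p hp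
    by_cases hk : k₁ ≤ kk p
    · have hpb : p ∈ blk (kk p) := mem_blk.2 ⟨hp, rfl⟩
      rw [hblk (kk p) hk p hpb]
      have hk' : (kk p + 1) ^ 2 ≤ 4 * p := by
        have h1 := sq_le_two_pow (kk p) (hk6.trans hk)
        have h2 := (two_le_kk hp.two_le).1
        omega
      have hs : kk p + 1 ≤ Nat.sqrt (4 * p) := by
        rw [Nat.le_sqrt']
        exact hk'
      rcases (hg (kk p) hk).2.2.2 p hpb with h | h | h
      · rw [h]; exact ha p hp
      · rw [h, mem_box]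
        intro i
        constructor
        · have : (0 : ℤ) ≤ (kk p : ℤ) + 1 := by positivity
          linarith [Int.natCast_nonneg (Nat.sqrt (4 * p))]
        · exact_mod_cast hs
      · unfold T at h
        rw [mem_box] at h ⊢
        intro i
        obtain ⟨h1, h2⟩ := h i
        rw [Nat.sqrt_eq'] at h1 h2
        have hs' : ((kk p : ℤ) + 1) ≤ (Nat.sqrt (4 * p) : ℤ) := by exact_mod_cast hs
        constructor
        · linarith
        · linarith
    · rw [ha' p, if_neg hk]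
      exact ha p hp
  · refine bound r μ c a a' hc hB ?_
    intro ε hε
    refine count r a a' N k₁ ?_ ?_ ?_ ε hε
    · intro p hp
      rw [ha' p, if_neg (by omega)]
    · intro k hk
      have h1 : ((blk k).filter fun p => a' p ≠ a p) = (blk k).filter fun p => g k p ≠ a p := by
        refine filter_congr fun p hp => ?_
        rw [hblk k hk p hp]
      rw [h1]
      exact (hg k hk).2.1
    · intro ε hε
      obtain ⟨C, hC0, hC⟩ := hNε ε hε
      exact ⟨C, hC0, fun k hk => hC k (hk0.trans hk)⟩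
  · intro k hk t ht
    have h1 : ((blk k).filter fun p => a' p = t) = (blk k).filter fun p => g k p = t := by
      refine filter_congr fun p hp => ?_
      rw [hblk k hk p hp]
    rw [h1]
    exact (hg k hk).1 t ht

end Pool.Agent.H414.DF
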