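import Pool.Agent.H414.DF.Spec

/-! The second moment of the kernel; the total masses. -/

set_option autoImplicit false

namespace Pool.Agent.H414.DF

open Finset
open Pool.Agent.H414.LT (primesUpTo blk kk)

namespace Mom

theorem e2_pos (x : ℝ) : 0 < e2 x := Real.rpow_pos_of_pos two_pos x

theorem e2_add (x y : ℝ) : e2 (x + y) = e2 x * e2 y := Real.rpow_add two_pos x y

theorem e2_mono {x y : ℝ} (h : x ≤ y) : e2 x ≤ e2 y :=
  Real.rpow_le_rpow_of_exponent_le one_le_two h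

theorem e2_zero : e2 0 = 1 := Real.rpow_zero 2

theorem e2_pow (x : ℝ) (n : ℕ) : e2 x ^ n = e2 (x * n) :=
  (Real.rpow_mul_natCast two_pos.le x n).symm

theorem one_le_e2 {x : ℝ} (h : 0 ≤ x) : 1 ≤ e2 x := by
  rw [← e2_zero]
  exact e2_mono h

theorem th_pos (r : ℕ) : 0 < th r := by
  unfold th
  positivity

theorem th_le {r : ℕ} (hr : 1 ≤ r) : th r ≤ 1 / 5 := by
  unfold th
  have h1 : (1 : ℝ) ≤ r := by exact_mod_cast hr
  rw [div_le_div_iff₀ (by linarith) (by norm_num)]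
  linarith

theorem Q_le (r k : ℕ) : (Q r k : ℝ) ≤ e2 (k * th r) := Nat.floor_le (e2_pos _).le

theorem one_le_Q (r k : ℕ) : 1 ≤ Q r k := by
  refine Nat.le_floor ?_
  rw [Nat.cast_one]
  exact one_le_e2 (mul_nonneg (Nat.cast_nonneg k) (th_pos r).le)

/-- a linear function is small -/
theorem lin_le {ε : ℝ} (hε : 0 < ε) : ∃ B : ℝ, 0 ≤ B ∧ ∀ k : ℕ, 1 + (k : ℝ) ≤ B * e2 (ε * k) := by
  have hl : 0 < Real.log 2 := Real.log_pos one_lt_two
  have hp : 0 < ε * Real.log 2 := mul_pos hε hl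
  refine ⟨1 + (ε * Real.log 2)⁻¹, by positivity, fun k => ?_⟩
  have h1 : ε * Real.log 2 * k + 1 ≤ e2 (ε * k) := by
    have h2 := Real.add_one_le_exp (ε * Real.log 2 * k)
    have h3 : e2 (ε * k) = Real.exp (ε * Real.log 2 * k) := by
      unfold e2
      rw [Real.rpow_def_of_pos two_pos]
      congr 1
      ring
    rw [h3]
    exact h2
  have h2 : (k : ℝ) ≤ (ε * Real.log 2)⁻¹ * e2 (ε * k) := by
    rw [inv_mul_eq_div, le_div_iff₀ hp]
    linarith
  have h3 : 1 ≤ e2 (ε * k) := one_le_e2 (by positivity)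
  linarith

/-- the harmonic sum -/
theorem harm (Q : ℕ) : ∑ d ∈ Icc 1 Q, 1 / (d : ℝ) ≤ 1 + Real.log Q := by
  have h1 := harmonic_le_one_add_log Q
  rw [harmonic_eq_sum_Icc] at h1
  push_cast at h1
  simpa using h1

theorem C_nonneg {r : ℕ} {w : ℕ → (Fin r → ℤ) → ℝ} {C : ℝ} (hw : IsW r w C) : 0 ≤ C := by
  have h1 := (hw.nonneg 0 0).trans (hw.sup 0 0)
  by_contra hcon
  have h2 := mul_neg_of_neg_of_pos (not_le.1 hcon) (e2_pos (-(((0 : ℕ) : ℝ) * r / 2)))
  linarith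

theorem dvd_iff {r : ℕ} (d : ℕ) (a t : Fin r → ℤ) :
    (∀ i, (d : ℤ) ∣ (a - t) i) ↔ red d a = red d t := by
  rw [funext_iff]
  refine forall_congr' fun i => ?_
  unfold red
  rw [eq_comm, ZMod.intCast_eq_intCast_iff_dvd_sub]
  rfl

/-- the first moment of the absolute value of the kernel -/
theorem first (hK : S_K) {r : ℕ} (hr : 1 ≤ r) {w : ℕ → (Fin r → ℤ) → ℝ} {C : ℝ}
    (hw : IsW r w C) (k : ℕ) (t : Fin r → ℤ) :
    ∑ a ∈ box r (2 ^ k), w k a * |Kr r (Q r k) (a - t)| ≤ C * e2 (k * th r) * (1 + k) := by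
  have hC := C_nonneg hw
  have hQ := Q_le r k
  have hQ1 : (1 : ℝ) ≤ Q r k := by exact_mod_cast one_le_Q r k
  have hk : (0 : ℝ) ≤ k := Nat.cast_nonneg k
  have hth := th_le hr
  have hth0 := th_pos r
  set q := Q r k with hq
  have h1 : ∑ a ∈ box r (2 ^ k), w k a * |Kr r q (a - t)| ≤
      ∑ a ∈ box r (2 ^ k), w k a * ∑ d ∈ Icc 1 q, (q : ℝ) / d * (d : ℝ) ^ r *
        (if ∀ i, (d : ℤ) ∣ (a - t) i then 1 else 0) :=
    Finset.sum_le_sum fun a _ => mul_le_mul_of_nonneg_left (hK r q (a - t) hr).2.2 (hw.nonneg k a)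
  refine h1.trans ?_
  have h2 : ∑ a ∈ box r (2 ^ k), w k a * ∑ d ∈ Icc 1 q, (q : ℝ) / d * (d : ℝ) ^ r *
        (if ∀ i, (d : ℤ) ∣ (a - t) i then (1 : ℝ) else 0) =
      ∑ d ∈ Icc 1 q, (q : ℝ) / d * (d : ℝ) ^ r *
        ∑ a ∈ (box r (2 ^ k)).filter (fun a => red d a = red d t), w k a := by
    simp only [Finset.mul_sum]
    rw [Finset.sum_comm]
    refine Finset.sum_congr rfl fun d _ => ?_
    rw [Finset.sum_filter]
    refine Finset.sum_congr rfl fun a _ => ?_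
    by_cases h : red d a = red d t
    · rw [if_pos ((dvd_iff d a t).2 h), if_pos h]
      ring
    · rw [if_neg (fun h' => h ((dvd_iff d a t).1 h')), if_neg h]
      ring
  rw [h2]
  have h3 : ∀ d ∈ Icc 1 q, (q : ℝ) / d * (d : ℝ) ^ r *
      ∑ a ∈ (box r (2 ^ k)).filter (fun a => red d a = red d t), w k a ≤ C * q * (1 / d) := by
    intro d hd
    obtain ⟨hd1, hd2⟩ := Finset.mem_Icc.1 hd
    have : NeZero d := ⟨by omega⟩
    have hd0 : (0 : ℝ) < d := by exact_mod_cast hd1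
    have h4 : (d : ℝ) ≤ e2 (k / 2) := by
      have h5 : (d : ℝ) ≤ q := by exact_mod_cast hd2
      refine (h5.trans hQ).trans (e2_mono ?_)
      nlinarith
    have h5 := hw.cls k d h4 (red d t)
    calc _ ≤ (q : ℝ) / d * (d : ℝ) ^ r * (C / (d : ℝ) ^ r) :=
          mul_le_mul_of_nonneg_left h5 (by positivity)
      _ = C * q * (1 / d) := by
          field_simp
  refine (Finset.sum_le_sum h3).trans ?_
  rw [← Finset.mul_sum]
  have h4 : Real.log q ≤ k := by
    have h5 : Real.log q ≤ Real.log (e2 (k * th r)) := Real.log_le_log (by linarith) hQ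
    have h6 : Real.log (e2 (k * th r)) = k * th r * Real.log 2 := Real.log_rpow two_pos _
    have h7 : Real.log 2 ≤ 1 := by
      have := Real.log_two_lt_d9
      linarith
    have h8 : (k : ℝ) * th r * Real.log 2 ≤ k * 1 * 1 := by
      refine mul_le_mul (mul_le_mul_of_nonneg_left (by linarith) hk) h7
        (Real.log_nonneg one_le_two) (by linarith)
    linarith
  have h5 := harm q
  calc C * q * ∑ d ∈ Icc 1 q, 1 / (d : ℝ) ≤ C * q * (1 + k) :=
        mul_le_mul_of_nonneg_left (by linarith) (by positivity)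
    _ ≤ C * e2 (k * th r) * (1 + k) := by
        refine mul_le_mul_of_nonneg_right (mul_le_mul_of_nonneg_left hQ hC) (by linarith)

end Mom

open Mom in
theorem mom (hK : S_K) (hTAU : S_TAU) : S_MOM := by
  intro r w C hr hw ε hε
  have hC := C_nonneg hw
  have hr1 : (1 : ℝ) ≤ r := by exact_mod_cast hr
  have hth := th_le hr
  have hth0 := th_pos r
  obtain ⟨Ct, hCt⟩ := hTAU (ε / 2) (half_pos hε)
  have hCt0 : 0 ≤ Ct := by
    have h1 := hCt 1 le_rfl
    simp at h1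
    linarith
  obtain ⟨B, hB0, hB⟩ := lin_le (half_pos hε)
  refine ⟨C + Ct * e2 (ε / 2) * C * B, fun k t ht => ?_⟩
  have hk : (0 : ℝ) ≤ k := Nat.cast_nonneg k
  have hQ := Q_le r k
  have hQ0 : (0 : ℝ) ≤ Q r k := Nat.cast_nonneg _
  -- the divisor bound
  set D : ℝ := e2 (k * th r) ^ r * (Ct * (e2 (ε / 2) * e2 (ε / 2 * k))) with hD
  have hD0 : 0 ≤ D := by
    have h1 := e2_pos (k * th r)
    have h2 := e2_pos (ε / 2)
    have h3 := e2_pos (ε / 2 * k)
    positivity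
  have h1 : ∀ a ∈ box r (2 ^ k), a ≠ t → |Kr r (Q r k) (a - t)| ≤ D := by
    intro a ha hat
    obtain ⟨j, hj⟩ : ∃ j, (a - t) j ≠ 0 := by
      by_contra hcon
      push Not at hcon
      apply hat
      funext j
      have := hcon j
      rw [Pi.sub_apply] at this
      omega
    refine ((hK r (Q r k) (a - t) hr).2.1 j hj).trans ?_
    have h2 : 1 ≤ ((a - t) j).natAbs := Nat.one_le_iff_ne_zero.2 (Int.natAbs_ne_zero.2 hj)
    have h3 := hCt _ h2
    have h4 : ((a - t) j).natAbs ≤ 2 ^ (k + 1) := by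
      have h5 := Finset.mem_Icc.1 (Fintype.mem_piFinset.1 ha j)
      have h6 := Finset.mem_Icc.1 (Fintype.mem_piFinset.1 ht j)
      have h7 : Nat.sqrt (2 ^ k) ≤ 2 ^ k := Nat.sqrt_le_self _
      rw [Pi.sub_apply]
      have h8 : 2 ^ (k + 1) = 2 * 2 ^ k := by ring
      omega
    have h5 : ((((a - t) j).natAbs : ℕ) : ℝ) ^ (ε / 2) ≤ e2 (ε / 2) * e2 (ε / 2 * k) := by
      have h6 : ((((a - t) j).natAbs : ℕ) : ℝ) ≤ (2 : ℝ) ^ (k + 1) := by exact_mod_cast h4
      have h7 : ((((a - t) j).natAbs : ℕ) : ℝ) ^ (ε / 2) ≤ ((2 : ℝ) ^ (k + 1)) ^ (ε / 2) :=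
        Real.rpow_le_rpow (Nat.cast_nonneg _) h6 (half_pos hε).le
      refine h7.trans (le_of_eq ?_)
      rw [← e2_add]
      unfold e2
      rw [← Real.rpow_natCast, ← Real.rpow_mul two_pos.le]
      congr 1
      push_cast
      ring
    have h6 : ((((a - t) j).natAbs.divisors.card : ℕ) : ℝ) ≤ Ct * (e2 (ε / 2) * e2 (ε / 2 * k)) :=
      h3.trans (mul_le_mul_of_nonneg_left h5 hCt0)
    have h7 : (Q r k : ℝ) ^ r ≤ e2 (k * th r) ^ r := pow_le_pow_left₀ hQ0 hQ r
    exact mul_le_mul h7 h6 (Nat.cast_nonneg _) (pow_nonneg (e2_pos _).le r)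
  -- splitting of the sum
  have h2 : ∀ a ∈ box r (2 ^ k), w k a * Kr r (Q r k) (a - t) ^ 2 ≤
      (if a = t then w k t * Kr r (Q r k) 0 ^ 2 else 0) + D * (w k a * |Kr r (Q r k) (a - t)|) := by
    intro a ha
    have h3 := hw.nonneg k a
    by_cases hat : a = t
    · rw [if_pos hat, hat, sub_self]
      have h4 : 0 ≤ D * (w k t * |Kr r (Q r k) 0|) := by
        have := hw.nonneg k t
        positivity
      linarith
    · rw [if_neg hat, zero_add]
      have h4 := h1 a ha hat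
      have h5 : Kr r (Q r k) (a - t) ^ 2 ≤ D * |Kr r (Q r k) (a - t)| := by
        rw [← sq_abs, pow_two]
        exact mul_le_mul_of_nonneg_right h4 (abs_nonneg _)
      calc w k a * Kr r (Q r k) (a - t) ^ 2 ≤ w k a * (D * |Kr r (Q r k) (a - t)|) :=
            mul_le_mul_of_nonneg_left h5 h3
        _ = D * (w k a * |Kr r (Q r k) (a - t)|) := by ring
  refine (Finset.sum_le_sum h2).trans ?_
  rw [Finset.sum_add_distrib, ← Finset.mul_sum, Finset.sum_ite_eq' (box r (2 ^ k)) t, if_pos ht]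
  -- the diagonal term
  have h3 : w k t * Kr r (Q r k) 0 ^ 2 ≤ C * e2 (k * (ε + (r + 1) * th r)) := by
    have h4 := (hK r (Q r k) 0 hr).1
    have h5 : Kr r (Q r k) 0 ^ 2 ≤ (e2 (k * th r) ^ (r + 1)) ^ 2 := by
      rw [← sq_abs]
      refine pow_le_pow_left₀ (abs_nonneg _) (h4.trans ?_) 2
      exact pow_le_pow_left₀ hQ0 hQ (r + 1)
    have h6 := hw.sup k t
    have h7 : w k t * Kr r (Q r k) 0 ^ 2 ≤
        (C * e2 (-(k * r / 2))) * (e2 (k * th r) ^ (r + 1)) ^ 2 :=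
      mul_le_mul h6 h5 (sq_nonneg _) (mul_nonneg hC (e2_pos _).le)
    refine h7.trans ?_
    rw [e2_pow, e2_pow, mul_assoc, ← e2_add]
    refine mul_le_mul_of_nonneg_left (e2_mono ?_) hC
    push_cast
    have h8 : ((r : ℝ) + 1) * th r ≤ r / 2 := by
      unfold th
      rw [mul_one_div, div_le_div_iff₀ (by linarith) (by norm_num)]
      nlinarith
    have h9 : (k : ℝ) * (((r : ℝ) + 1) * th r) ≤ k * (r / 2) := mul_le_mul_of_nonneg_left h8 hk
    have h10 : 0 ≤ (k : ℝ) * ε := by positivity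
    nlinarith
  have h4 := first hK hr hw k t
  have h5 : D * ∑ a ∈ box r (2 ^ k), w k a * |Kr r (Q r k) (a - t)| ≤
      Ct * e2 (ε / 2) * C * B * e2 (k * (ε + (r + 1) * th r)) := by
    have h6 : (1 + (k : ℝ)) ≤ B * e2 (ε / 2 * k) := hB k
    have h7 : D * ∑ a ∈ box r (2 ^ k), w k a * |Kr r (Q r k) (a - t)| ≤
        D * (C * e2 (k * th r) * (B * e2 (ε / 2 * k))) := by
      refine mul_le_mul_of_nonneg_left (h4.trans ?_) hD0
      exact mul_le_mul_of_nonneg_left h6 (mul_nonneg hC (e2_pos _).le)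
    refine h7.trans (le_of_eq ?_)
    have h8 : e2 (k * (ε + (r + 1) * th r)) =
        e2 (k * th r) ^ r * e2 (k * th r) * (e2 (ε / 2 * k) * e2 (ε / 2 * k)) := by
      rw [e2_pow, ← e2_add, ← e2_add, ← e2_add]
      congr 1
      ring
    rw [h8, hD]
    ring
  rw [add_mul]
  exact add_le_add h3 h5

open Mom in
theorem lt (hDEL : S_DEL) : S_LT := by
  intro r w C hr hw
  obtain ⟨C', hC'⟩ := hDEL r w C hr hw
  refine ⟨C', fun k t => ?_⟩
  have hth := th_le hr
  have hk : (0 : ℝ) ≤ k := Nat.cast_nonneg k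
  have h1 := (hC' k 1 t (fun _ => 1) (by
    rw [Nat.cast_one, one_mul]
    refine e2_mono ?_
    nlinarith) (fun _ => by simp)).1 (one_le_Q r k)
  simp only [mul_one] at h1
  rw [← Complex.ofReal_sum, ← Complex.ofReal_one, ← Complex.ofReal_sub, Complex.norm_real,
    Real.norm_eq_abs] at h1
  exact h1

end Pool.Agent.H414.DF
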