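import Pool.Agent.H414.DF.Spec

/-! Positivity of the laws `ν`. -/

set_option autoImplicit false

namespace Pool.Agent.H414.DF

open Finset
open Pool.Agent.H414.LT (primesUpTo blk kk two_le_kk)

namespace Pos

theorem e2_pos (x : ℝ) : 0 < e2 x := Real.rpow_pos_of_pos (by norm_num) x

theorem e2_add (x y : ℝ) : e2 (x + y) = e2 x * e2 y := Real.rpow_add (by norm_num) x y

theorem e2_mono {x y : ℝ} (h : x ≤ y) : e2 x ≤ e2 y :=
  Real.rpow_le_rpow_of_exponent_le (by norm_num) h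

theorem e2_zero : e2 0 = 1 := Real.rpow_zero _

theorem e2_pow (x : ℝ) (n : ℕ) : e2 x ^ n = e2 (x * n) := by
  unfold e2
  rw [← Real.rpow_natCast, ← Real.rpow_mul (by norm_num)]

theorem mem_box {r n : ℕ} {b : Fin r → ℤ} :
    b ∈ box r n ↔ ∀ i, -(Nat.sqrt n : ℤ) ≤ b i ∧ b i ≤ Nat.sqrt n := by
  unfold box
  simp only [Fintype.mem_piFinset, mem_Icc]

theorem box_mono {r n m : ℕ} (h : n ≤ m) : box r n ⊆ box r m := by
  intro b hb
  rw [mem_box] at hb ⊢
  intro i
  have h1 := hb i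
  have h2 : (Nat.sqrt n : ℤ) ≤ Nat.sqrt m := by exact_mod_cast Nat.sqrt_le_sqrt h
  constructor <;> linarith [h1.1, h1.2]

theorem natAbs_le {r k : ℕ} {b t : Fin r → ℤ} (hb : b ∈ box r (2 ^ k)) (ht : t ∈ box r (2 ^ k))
    (j : Fin r) : ((b - t) j).natAbs ≤ 2 ^ (k + 1) := by
  have h1 := mem_box.1 hb j
  have h2 := mem_box.1 ht j
  have h3 : Nat.sqrt (2 ^ k) ≤ 2 ^ k := Nat.sqrt_le_self _
  have h4 : (b - t) j = b j - t j := rfl
  rw [h4]
  generalize hs : Nat.sqrt (2 ^ k) = s at h1 h2 h3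
  have h5 : 2 ^ (k + 1) = 2 * 2 ^ k := by ring
  rw [h5]
  omega

/-- Bound for the kernel at a nonzero vector. -/
theorem Kr_le (hK : S_K) {r : ℕ} (hr : 1 ≤ r) {ε Cτ : ℝ} (hε : 0 < ε) (hC : 0 ≤ Cτ)
    (hτ : ∀ n : ℕ, 1 ≤ n → (n.divisors.card : ℝ) ≤ Cτ * (n : ℝ) ^ ε) (k : ℕ)
    {b t : Fin r → ℤ} (hb : b ∈ box r (2 ^ k)) (ht : t ∈ box r (2 ^ k)) (hne : b ≠ t) :
    |Kr r (Q r k) (b - t)| ≤ Cτ * e2 (k * (r * th r) + (k + 1) * ε) := by
  obtain ⟨j, hj⟩ := Function.ne_iff.1 hne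
  have h1 : (b - t) j ≠ 0 := sub_ne_zero.2 hj
  refine ((hK r (Q r k) (b - t) hr).2.1 j h1).trans ?_
  have h2 := natAbs_le hb ht j
  have h3 : 1 ≤ ((b - t) j).natAbs := Int.natAbs_pos.2 h1
  have h4 := hτ _ h3
  have h5 : (((b - t) j).natAbs : ℝ) ^ ε ≤ e2 ((k + 1) * ε) := by
    calc (((b - t) j).natAbs : ℝ) ^ ε ≤ ((2 : ℝ) ^ (k + 1)) ^ ε :=
          Real.rpow_le_rpow (Nat.cast_nonneg _) (by exact_mod_cast h2) hε.le
      _ = e2 ((k + 1) * ε) := by
          unfold e2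
          rw [← Real.rpow_natCast, ← Real.rpow_mul (by norm_num)]
          push_cast
          rfl
  have h6 : (Q r k : ℝ) ^ r ≤ e2 (k * (r * th r)) := by
    calc (Q r k : ℝ) ^ r ≤ e2 (k * th r) ^ r :=
          pow_le_pow_left₀ (Nat.cast_nonneg _) (Nat.floor_le (e2_pos _).le) r
      _ = e2 (k * (r * th r)) := by
          rw [e2_pow]
          ring_nf
  calc (Q r k : ℝ) ^ r * (((b - t) j).natAbs.divisors.card : ℝ)
      ≤ e2 (k * (r * th r)) * (Cτ * e2 ((k + 1) * ε)) :=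
        mul_le_mul h6 (h4.trans (mul_le_mul_of_nonneg_left h5 hC)) (Nat.cast_nonneg _)
          (e2_pos _).le
    _ = Cτ * e2 (k * (r * th r) + (k + 1) * ε) := by
        rw [e2_add]
        ring

/-- `(k + 1) 2 ^ (- k δ / 2)` tends to `0`. -/
theorem small {δ : ℝ} (hδ : 0 < δ) (B : ℝ) {c : ℝ} (hc : 0 < c) :
    ∃ K : ℕ, ∀ k : ℕ, K ≤ k → B * ((k : ℝ) + 1) * e2 (-(k * (δ / 2))) ≤ c := by
  have hx0 : 0 ≤ e2 (-(δ / 2)) := (e2_pos _).le
  have hx1 : e2 (-(δ / 2)) < 1 := by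
    rw [← e2_zero]
    exact Real.rpow_lt_rpow_of_exponent_lt (by norm_num) (by linarith)
  have h1 := tendsto_self_mul_const_pow_of_lt_one hx0 hx1
  have h2 := tendsto_pow_atTop_nhds_zero_of_lt_one hx0 hx1
  have h3 := ((h1.add h2).const_mul B)
  rw [add_zero, mul_zero] at h3
  have h4 := (h3.eventually (Iic_mem_nhds hc))
  obtain ⟨K, hK⟩ := Filter.eventually_atTop.1 h4
  refine ⟨K, fun k hk => ?_⟩
  have h5 : B * ((k : ℝ) * e2 (-(δ / 2)) ^ k + e2 (-(δ / 2)) ^ k) ≤ c := hK k hk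
  have e : e2 (-(k * (δ / 2))) = e2 (-(δ / 2)) ^ k := by
    rw [e2_pow]
    ring_nf
  rw [e]
  calc B * ((k : ℝ) + 1) * e2 (-(δ / 2)) ^ k
      = B * ((k : ℝ) * e2 (-(δ / 2)) ^ k + e2 (-(δ / 2)) ^ k) := by ring
    _ ≤ c := h5

end Pos

open Pos in
theorem pos (hK : S_K) (hTAU : S_TAU) (hLT : S_LT) : S_POS := by
  intro r μ w C δ f m k₀ C' hr hμ hw hδ hm
  have hε : 0 < δ / 4 := by linarith
  obtain ⟨Cτ, hτ⟩ := hTAU (δ / 4) hε
  have hCτ : 0 ≤ Cτ := by
    have h := hτ 1 le_rfl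
    simp only [Nat.divisors_one, card_singleton, Nat.cast_one, Real.one_rpow, mul_one] at h
    linarith
  obtain ⟨CL, hL⟩ := hLT r w C hr hw
  have hCL : 0 ≤ CL := by
    have h := (abs_nonneg _).trans (hL 0 0)
    exact nonneg_of_mul_nonneg_left h (e2_pos _)
  obtain ⟨c, hc, hlow⟩ := hμ.lower (δ / 4) hε
  obtain ⟨K, hK1⟩ := small hδ (C' * C * (Cτ + CL) * e2 (δ / 2 + r / 2)) hc
  refine ⟨max k₀ K, le_max_left _ _, fun p hp b => ?_⟩
  unfold nu
  by_cases hk : max k₀ K ≤ kk p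
  swap
  · rw [if_neg hk, add_zero]
    exact hμ.nonneg p hp b
  rw [if_pos hk]
  generalize hkk : kk p = k at hk
  have hk0 : k₀ ≤ k := (le_max_left _ _).trans hk
  have hkK : K ≤ k := (le_max_right _ _).trans hk
  have hsub := hm.sub k hk0
  obtain ⟨hp1, hp2⟩ := two_le_kk hp.two_le
  rw [hkk] at hp1 hp2
  by_cases hb : b ∈ box r (2 ^ k)
  swap
  · have h0 : ∑ t ∈ T r k, m k t * kap w k t b = 0 := by
      refine sum_eq_zero fun t ht => ?_
      have hne : b ≠ t := fun h => hb (h ▸ hsub ht)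
      unfold kap
      rw [if_neg hne, hw.supp k b hb]
      ring
    rw [h0, add_zero]
    exact hμ.nonneg p hp b
  -- the main case
  set X : ℝ := (Cτ + CL) * e2 (k * (r * th r) + (k + 1) * (δ / 4)) with hX
  have hth : 0 ≤ th r := by
    unfold th
    positivity
  have hX1 : 1 ≤ e2 (k * (r * th r) + (k + 1) * (δ / 4)) := by
    refine e2_zero.symm.le.trans (e2_mono ?_)
    positivity
  have hX0 : 0 ≤ X := mul_nonneg (add_nonneg hCτ hCL) (e2_pos _).le
  have hterm : ∀ t ∈ T r k, -(m k t * (w k b * X)) ≤ m k t * kap w k t b := by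
    intro t ht
    have hmt := hm.nonneg k t
    have hwb := hw.nonneg k b
    by_cases hbt : b = t
    · subst hbt
      have h1 := hm.diag k hk0 b ht
      have h2 : kap w k b b = 1 - w k b * (Kr r (Q r k) 0 - Lt w k b) := by
        unfold kap
        rw [if_pos rfl, sub_self]
      rw [h2]
      have h3 : 0 ≤ m k b * (w k b * X) := by positivity
      have h4 := mul_nonneg hmt h1
      linarith
    · have h1 := Kr_le hK hr hε hCτ hτ k hb (hsub ht) hbt
      have h2 : |Lt w k t| ≤ CL * e2 (k * (r * th r) + (k + 1) * (δ / 4)) := by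
        calc |Lt w k t| ≤ CL * e2 (-(2 * k)) := hL k t
          _ ≤ CL * 1 := by
              refine mul_le_mul_of_nonneg_left ?_ hCL
              rw [← e2_zero]
              exact e2_mono (by
                have : (0 : ℝ) ≤ k := Nat.cast_nonneg k
                linarith)
          _ ≤ CL * e2 (k * (r * th r) + (k + 1) * (δ / 4)) :=
              mul_le_mul_of_nonneg_left hX1 hCL
      have h3 : kap w k t b = -(w k b * (Kr r (Q r k) (b - t) - Lt w k t)) := by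
        unfold kap
        rw [if_neg hbt]
        ring
      have h4 : Kr r (Q r k) (b - t) - Lt w k t ≤ X := by
        have h5 := le_abs_self (Kr r (Q r k) (b - t))
        have h6 := neg_abs_le (Lt w k t)
        rw [hX, add_mul]
        linarith
      rw [h3, mul_neg]
      exact neg_le_neg (mul_le_mul_of_nonneg_left (mul_le_mul_of_nonneg_left h4 hwb) hmt)
  have hsum : -((∑ t ∈ T r k, m k t) * (w k b * X)) ≤ ∑ t ∈ T r k, m k t * kap w k t b := by
    rw [sum_mul, ← sum_neg_distrib]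
    exact sum_le_sum hterm
  have hms := hm.sum k hk0
  have hms0 : 0 ≤ ∑ t ∈ T r k, m k t := sum_nonneg fun t _ => hm.nonneg k t
  have hwb := hw.sup k b
  have hwb0 := hw.nonneg k b
  have hup : (∑ t ∈ T r k, m k t) * (w k b * X) ≤
      (C' * (k + 1) * e2 (-(k * (r * th r + δ)))) * ((C * e2 (-(k * r / 2))) * X) :=
    mul_le_mul hms (mul_le_mul_of_nonneg_right hwb hX0) (mul_nonneg hwb0 hX0)
      (hms0.trans hms)
  have hlo := hlow p hp b (box_mono hp1.le hb)
  have hp0 : (0 : ℝ) < p := by exact_mod_cast hp.pos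
  have hlo2 : c * e2 ((k + 1) * (-(δ / 4) - r / 2)) ≤ μ p b := by
    refine le_trans (mul_le_mul_of_nonneg_left ?_ hc.le) hlo
    have e : e2 ((k + 1) * (-(δ / 4) - r / 2)) = ((2 : ℝ) ^ (k + 1)) ^ (-(δ / 4) - (r : ℝ) / 2) := by
      unfold e2
      rw [← Real.rpow_natCast, ← Real.rpow_mul (by norm_num)]
      push_cast
      rfl
    rw [e]
    refine Real.rpow_le_rpow_of_nonpos hp0 (by exact_mod_cast hp2) ?_
    have : (0 : ℝ) ≤ r := Nat.cast_nonneg r
    linarith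
  have key : (C' * (k + 1) * e2 (-(k * (r * th r + δ)))) * ((C * e2 (-(k * r / 2))) * X) ≤
      c * e2 ((k + 1) * (-(δ / 4) - r / 2)) := by
    have h1 := hK1 k hkK
    have e : (C' * (k + 1) * e2 (-(k * (r * th r + δ)))) * ((C * e2 (-(k * r / 2))) * X) =
        (C' * C * (Cτ + CL) * e2 (δ / 2 + r / 2) * ((k : ℝ) + 1) * e2 (-(k * (δ / 2)))) *
          e2 ((k + 1) * (-(δ / 4) - r / 2)) := by
      have e1 : e2 (-(k * (r * th r + δ))) * e2 (-(k * r / 2)) *
          e2 (k * (r * th r) + (k + 1) * (δ / 4)) =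
          e2 (δ / 2 + r / 2) * e2 (-(k * (δ / 2))) * e2 ((k + 1) * (-(δ / 4) - r / 2)) := by
        rw [← e2_add, ← e2_add, ← e2_add, ← e2_add]
        congr 1
        ring
      calc (C' * (k + 1) * e2 (-(k * (r * th r + δ)))) * ((C * e2 (-(k * r / 2))) * X)
          = C' * (k + 1) * C * (Cτ + CL) * (e2 (-(k * (r * th r + δ))) * e2 (-(k * r / 2)) *
            e2 (k * (r * th r) + (k + 1) * (δ / 4))) := by
              rw [hX]
              ring
        _ = _ := by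
            rw [e1]
            ring
    rw [e]
    exact mul_le_mul_of_nonneg_right h1 (e2_pos _).le
  linarith

end Pool.Agent.H414.DF
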