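import Pool.Agent.H414.DF.Spec

/-! Selection of the system (helper685 for helper414). -/

set_option autoImplicit false

namespace Pool.Agent.H414.DF

open Finset
open Pool.Agent.H414.LT (primesUpTo blk kk)

namespace Sel

/-- Second moments of a complex random variable minus its mean. -/
theorem variance {Ω : Type} [Fintype Ω] (π : Ω → ℝ) (h1 : ∑ ω, π ω = 1) (X : Ω → ℂ) :
    ∑ v, π v * ‖X v - ∑ v', (π v' : ℂ) * X v'‖ ^ 2 =
      ∑ v, π v * ‖X v‖ ^ 2 - ‖∑ v', (π v' : ℂ) * X v'‖ ^ 2 := by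
  set m := ∑ v', (π v' : ℂ) * X v' with hm
  have e : ∀ v, π v * ‖X v - m‖ ^ 2 = π v * ‖X v‖ ^ 2 -
      2 * (starRingEnd ℂ m * ((π v : ℂ) * X v)).re + π v * ‖m‖ ^ 2 := by
    intro v
    rw [← Complex.normSq_eq_norm_sq, ← Complex.normSq_eq_norm_sq, ← Complex.normSq_eq_norm_sq,
      Complex.normSq_apply, Complex.normSq_apply, Complex.normSq_apply]
    simp
    ring
  rw [sum_congr rfl fun v _ => e v, sum_add_distrib, sum_sub_distrib, ← sum_mul, h1, one_mul,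
    ← mul_sum, ← Complex.re_sum, ← mul_sum, ← hm]
  have : (starRingEnd ℂ m * m).re = ‖m‖ ^ 2 := by
    rw [← Complex.normSq_eq_norm_sq, Complex.normSq_apply]
    simp
  rw [this]
  ring

theorem mean_sq_le {Ω : Type} [Fintype Ω] (π : Ω → ℝ) (h0 : ∀ ω, 0 ≤ π ω) (h1 : ∑ ω, π ω = 1)
    (X : Ω → ℂ) : ‖∑ v', (π v' : ℂ) * X v'‖ ^ 2 ≤ ∑ v, π v * ‖X v‖ ^ 2 := by
  have h2 := variance π h1 X
  have h3 : 0 ≤ ∑ v, π v * ‖X v - ∑ v', (π v' : ℂ) * X v'‖ ^ 2 :=
    sum_nonneg fun v _ => mul_nonneg (h0 v) (sq_nonneg _)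
  linarith

theorem var_le {Ω : Type} [Fintype Ω] (π : Ω → ℝ) (h1 : ∑ ω, π ω = 1)
    (X : Ω → ℂ) : ∑ v, π v * ‖X v - ∑ v', (π v' : ℂ) * X v'‖ ^ 2 ≤ ∑ v, π v * ‖X v‖ ^ 2 := by
  rw [variance π h1 X]
  linarith [sq_nonneg ‖∑ v', (π v' : ℂ) * X v'‖]

/-- The engine for tests with bounded square sums. -/
theorem eng_raw (hENG : S_ENG) (J : Type) (I : J → Type) [∀ j, Fintype (I j)] (Ω : ℕ → Type)
    [∀ n, Fintype (Ω n)] (π : ∀ n, Ω n → ℝ) (raw : ∀ (n : ℕ) (j : J), I j → Ω n → ℂ) (w : J → ℝ)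
    (h0 : ∀ n ω, 0 ≤ π n ω) (h1 : ∀ n, ∑ ω, π n ω = 1) (hw : ∀ j, 0 < w j) (hws : Summable w)
    (hB : ∀ n j ω, ∑ s, ‖raw n j s ω‖ ^ 2 ≤ 1) :
    ∃ ω : ∀ n, Ω n, ∀ (j : J) (N : ℕ),
      ∑ s, ‖∑ n ∈ range N, (raw n j s (ω n) - ∑ v, (π n v : ℂ) * raw n j s v)‖ ^ 2 ≤
        (∑' i, w i) / w j * N := by
  have hsec : ∀ n j, ∑ ω, π n ω * ∑ s, ‖raw n j s ω‖ ^ 2 ≤ 1 := by
    intro n j
    calc ∑ ω, π n ω * ∑ s, ‖raw n j s ω‖ ^ 2 ≤ ∑ ω, π n ω * 1 :=
          sum_le_sum fun ω _ => mul_le_mul_of_nonneg_left (hB n j ω) (h0 n ω)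
      _ = 1 := by simp only [mul_one]; exact h1 n
  have hswap : ∀ n j (G : I j → Ω n → ℝ), ∑ ω, π n ω * ∑ s, G s ω =
      ∑ s, ∑ ω, π n ω * G s ω := by
    intro n j G
    rw [sum_comm]
    exact sum_congr rfl fun ω _ => mul_sum _ _ _
  have key := hENG J I Ω π (fun n j s v => raw n j s v - ∑ v', (π n v' : ℂ) * raw n j s v') w
    (fun _ => 1) h0 h1 hw (fun _ => zero_le_one) (by simpa using hws) ?_ ?_ ?_
  · simpa using key
  · intro n j s
    simp only [mul_sub, sum_sub_distrib]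
    rw [← sum_mul, ← Complex.ofReal_sum, h1, Complex.ofReal_one, one_mul, sub_self]
  · intro n j
    refine le_trans ?_ (hsec n j)
    rw [hswap n j, hswap n j]
    exact sum_le_sum fun s _ => var_le (π n) (h1 n) (raw n j s)
  · intro n v
    refine Summable.of_nonneg_of_le (fun j => mul_nonneg (hw j).le (sum_nonneg fun s _ => sq_nonneg _))
      (fun j => ?_) (hws.mul_right 4)
    refine mul_le_mul_of_nonneg_left ?_ (hw j).le
    have h2 : ∑ s, ‖∑ v', (π n v' : ℂ) * raw n j s v'‖ ^ 2 ≤ 1 := by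
      refine le_trans ?_ (hsec n j)
      rw [hswap n j]
      exact sum_le_sum fun s _ => mean_sq_le (π n) (h0 n) (h1 n) (raw n j s)
    have h3 : ∀ s, ‖raw n j s v - ∑ v', (π n v' : ℂ) * raw n j s v'‖ ^ 2 ≤
        2 * ‖raw n j s v‖ ^ 2 + 2 * ‖∑ v', (π n v' : ℂ) * raw n j s v'‖ ^ 2 := by
      intro s
      have h4 := norm_sub_le (raw n j s v) (∑ v', (π n v' : ℂ) * raw n j s v')
      have h5 : ‖raw n j s v - ∑ v', (π n v' : ℂ) * raw n j s v'‖ ^ 2 ≤
          (‖raw n j s v‖ + ‖∑ v', (π n v' : ℂ) * raw n j s v'‖) ^ 2 :=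
        pow_le_pow_left₀ (norm_nonneg _) h4 2
      nlinarith [sq_nonneg (‖raw n j s v‖ - ‖∑ v', (π n v' : ℂ) * raw n j s v'‖)]
    calc ∑ s, ‖raw n j s v - ∑ v', (π n v' : ℂ) * raw n j s v'‖ ^ 2
        ≤ ∑ s, (2 * ‖raw n j s v‖ ^ 2 + 2 * ‖∑ v', (π n v' : ℂ) * raw n j s v'‖ ^ 2) :=
          sum_le_sum fun s _ => h3 s
      _ = 2 * ∑ s, ‖raw n j s v‖ ^ 2 + 2 * ∑ s, ‖∑ v', (π n v' : ℂ) * raw n j s v'‖ ^ 2 := by
          rw [sum_add_distrib, ← mul_sum, ← mul_sum]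
      _ ≤ 4 := by linarith [hB n j v]

/-- The index sets. -/
def Ix (r : ℕ) : (ℕ × ℕ) ⊕ ℕ → Type
  | Sum.inl x => ZMod (x.2 + 1) × (Fin r → ZMod (x.2 + 1))
  | Sum.inr k => {t // t ∈ T r k}

noncomputable instance (r : ℕ) : ∀ j, Fintype (Ix r j)
  | Sum.inl x => inferInstanceAs (Fintype (ZMod (x.2 + 1) × (Fin r → ZMod (x.2 + 1))))
  | Sum.inr k => inferInstanceAs (Fintype {t // t ∈ T r k})

/-- The outcomes. -/
abbrev Om (r n : ℕ) : Type := {b : Fin r → ℤ // b ∈ box r (4 * n)}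

/-- The weights of the outcomes. -/
noncomputable def pw (r : ℕ) (ν : ℕ → (Fin r → ℤ) → ℝ) (n : ℕ) (b : Om r n) : ℝ :=
  if n.Prime then ν n b.1 else if b.1 = 0 then 1 else 0

/-- The tests of the first kind. -/
noncomputable def rawA (r : ℕ) (c : ℕ → ℕ → ℂ) (n i s : ℕ)
    (u : ZMod (s + 1) × (Fin r → ZMod (s + 1))) (b : Om r n) : ℂ :=
  if n.Prime then c i n * (if ((n : ZMod (s + 1)), red (s + 1) b.1) = u then 1 else 0) else 0

/-- The tests of the second kind. -/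
noncomputable def rawB (r n k : ℕ) (t : {t // t ∈ T r k}) (b : Om r n) : ℂ :=
  if n ∈ blk k ∧ b.1 = t.1 then 1 else 0

/-- The tests. -/
noncomputable def raw (r : ℕ) (c : ℕ → ℕ → ℂ) (n : ℕ) : ∀ j, Ix r j → Om r n → ℂ
  | Sum.inl x => rawA r c n x.1 x.2
  | Sum.inr k => rawB r n k

/-- The weights of the tests. -/
noncomputable def wj : (ℕ × ℕ) ⊕ ℕ → ℝ
  | Sum.inl x => (1 / 2) ^ x.1 * (1 / ((x.2 : ℝ) + 1) ^ 2)
  | Sum.inr k => 1 / ((k : ℝ) + 1) ^ 2

theorem wj_pos (j : (ℕ × ℕ) ⊕ ℕ) : 0 < wj j := by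
  rcases j with x | k <;> simp only [wj] <;> positivity

theorem wj_summable : Summable wj := by
  have h1 : Summable fun x : ℕ × ℕ => ((1 : ℝ) / 2) ^ x.1 * (1 / ((x.2 : ℝ) + 1) ^ 2) :=
    Summable.mul_of_nonneg (f := fun e : ℕ => ((1 : ℝ) / 2) ^ e)
      (g := fun d : ℕ => 1 / ((d : ℝ) + 1) ^ 2)
      (summable_geometric_of_lt_one (by norm_num) (by norm_num)) Pool.Agent.H414.LT.summable_sq
      (fun d => pow_nonneg (by norm_num) _) (fun e => div_nonneg zero_le_one (sq_nonneg _))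
  have h2 : Summable fun k : ℕ => 1 / ((k : ℝ) + 1) ^ 2 := Pool.Agent.H414.LT.summable_sq
  have e1 : wj ∘ Sum.inl = fun x : ℕ × ℕ => ((1 : ℝ) / 2) ^ x.1 * (1 / ((x.2 : ℝ) + 1) ^ 2) := by
    funext x
    simp only [Function.comp_apply, wj]
  have e2 : wj ∘ Sum.inr = fun k : ℕ => 1 / ((k : ℝ) + 1) ^ 2 := by
    funext k
    simp only [Function.comp_apply, wj]
  exact Summable.sum (f := wj) (e1 ▸ h1) (e2 ▸ h2)

theorem zero_mem_box (r n : ℕ) : (0 : Fin r → ℤ) ∈ box r n := by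
  unfold box
  rw [Fintype.mem_piFinset]
  intro i
  rw [mem_Icc, Pi.zero_apply]
  have : (0 : ℤ) ≤ (Nat.sqrt n : ℤ) := Int.natCast_nonneg _
  constructor <;> omega

theorem pw_nonneg (r : ℕ) (ν : ℕ → (Fin r → ℤ) → ℝ) (h0 : ∀ p : ℕ, p.Prime → ∀ b, 0 ≤ ν p b)
    (n : ℕ) (b : Om r n) : 0 ≤ pw r ν n b := by
  unfold pw
  split_ifs with h h'
  · exact h0 n h _
  · exact zero_le_one
  · exact le_rfl

theorem pw_sum (r : ℕ) (ν : ℕ → (Fin r → ℤ) → ℝ)
    (h1 : ∀ p : ℕ, p.Prime → ∑ b ∈ box r (4 * p), ν p b = 1) (n : ℕ) :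
    ∑ b : Om r n, pw r ν n b = 1 := by
  unfold pw
  by_cases h : n.Prime
  · simp only [if_pos h]
    rw [Finset.sum_coe_sort (box r (4 * n)) (fun b => ν n b)]
    exact h1 n h
  · simp only [if_neg h]
    rw [Finset.sum_coe_sort (box r (4 * n)) (fun b => if b = 0 then (1 : ℝ) else 0),
      Finset.sum_ite_eq' (box r (4 * n)) 0 (fun _ => (1 : ℝ)), if_pos (zero_mem_box r _)]

theorem rawA_sum (r : ℕ) (c : ℕ → ℕ → ℂ) (hc : ∀ i p, ‖c i p‖ ≤ 1) (n i s : ℕ)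
    (b : Om r n) : ∑ u, ‖rawA r c n i s u b‖ ^ 2 ≤ 1 := by
  unfold rawA
  by_cases h : n.Prime
  · simp only [if_pos h]
    rw [Finset.sum_eq_single ((n : ZMod (s + 1)), red (s + 1) b.1)]
    · rw [if_pos rfl, mul_one]
      have := hc i n
      have h2 := norm_nonneg (c i n)
      nlinarith
    · intro u _ hs
      rw [if_neg (Ne.symm hs), mul_zero, norm_zero, zero_pow two_ne_zero]
    · intro h3
      exact absurd (mem_univ _) h3
  · simp only [if_neg h, norm_zero]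
    simp

theorem rawB_sum (r n k : ℕ) (b : Om r n) : ∑ t, ‖rawB r n k t b‖ ^ 2 ≤ 1 := by
  unfold rawB
  by_cases h : n ∈ blk k
  · have e : ∀ t : {t // t ∈ T r k}, ‖(if n ∈ blk k ∧ b.1 = t.1 then (1 : ℂ) else 0)‖ ^ 2 =
        if b.1 = t.1 then (1 : ℝ) else 0 := by
      intro t
      by_cases h2 : b.1 = t.1
      · rw [if_pos ⟨h, h2⟩, if_pos h2]
        simp
      · rw [if_neg (fun h3 => h2 h3.2), if_neg h2]
        simp
    rw [sum_congr rfl fun t _ => e t,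
      Finset.sum_coe_sort (T r k) (fun t => if b.1 = t then (1 : ℝ) else 0),
      Finset.sum_ite_eq (T r k) b.1 (fun _ => (1 : ℝ))]
    split_ifs <;> norm_num
  · have e : ∀ t : {t // t ∈ T r k}, ‖(if n ∈ blk k ∧ b.1 = t.1 then (1 : ℂ) else 0)‖ ^ 2 = 0 := by
      intro t
      rw [if_neg (fun h3 => h h3.1)]
      simp
    rw [sum_congr rfl fun t _ => e t]
    simp

theorem raw_sum (r : ℕ) (c : ℕ → ℕ → ℂ) (hc : ∀ i p, ‖c i p‖ ≤ 1) (n : ℕ) :
    ∀ (j : (ℕ × ℕ) ⊕ ℕ) (b : Om r n), ∑ s, ‖raw r c n j s b‖ ^ 2 ≤ 1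
  | Sum.inl x, b => rawA_sum r c hc n x.1 x.2 b
  | Sum.inr k, b => rawB_sum r n k b

/-- Expansion of `F` in the indicator functions. -/
theorem expand (r : ℕ) (c : ℕ → ℕ → ℂ) (n i s : ℕ)
    (F : ZMod (s + 1) × (Fin r → ZMod (s + 1)) → ℂ) (b : Om r n) :
    ∑ u, F u * rawA r c n i s u b =
      if n.Prime then c i n * F ((n : ZMod (s + 1)), red (s + 1) b.1) else 0 := by
  unfold rawA
  by_cases h : n.Prime
  · simp only [if_pos h]
    rw [Finset.sum_eq_single ((n : ZMod (s + 1)), red (s + 1) b.1)]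
    · rw [if_pos rfl, mul_one, mul_comm]
    · intro s _ hs
      rw [if_neg (Ne.symm hs), mul_zero, mul_zero]
    · intro h3
      exact absurd (mem_univ _) h3
  · simp only [if_neg h, mul_zero, sum_const_zero]

theorem cs {α : Type} [Fintype α] (F S : α → ℂ) (V : ℝ) (hS : ∑ s, ‖S s‖ ^ 2 ≤ V) :
    ‖∑ s, F s * S s‖ ≤ l2 F * √V := by
  have hV : 0 ≤ V := le_trans (sum_nonneg fun s _ => sq_nonneg _) hS
  have h1 : ‖∑ s, F s * S s‖ ≤ ∑ s, ‖F s‖ * ‖S s‖ :=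
    (norm_sum_le _ _).trans (le_of_eq (sum_congr rfl fun s _ => norm_mul _ _))
  have h2 := Finset.sum_mul_sq_le_sq_mul_sq univ (fun s => ‖F s‖) (fun s => ‖S s‖)
  have h3 : 0 ≤ ∑ s, ‖F s‖ ^ 2 := sum_nonneg fun s _ => sq_nonneg _
  have h4 : 0 ≤ ∑ s, ‖F s‖ * ‖S s‖ :=
    sum_nonneg fun s _ => mul_nonneg (norm_nonneg _) (norm_nonneg _)
  refine h1.trans ?_
  unfold l2
  rw [← Real.sqrt_mul h3]
  refine Real.le_sqrt_of_sq_le (h2.trans ?_)
  exact mul_le_mul_of_nonneg_left hS h3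

end Sel

open Sel in
theorem sel (hENG : S_ENG) : S_SEL := by
  intro r ν c h0 h1 hc
  obtain ⟨ω, hω⟩ := eng_raw hENG ((ℕ × ℕ) ⊕ ℕ) (Ix r) (Om r) (pw r ν) (raw r c) wj
    (pw_nonneg r ν h0) (pw_sum r ν h1) wj_pos wj_summable (raw_sum r c hc)
  obtain ⟨W, hW⟩ : ∃ W : ℝ, W = ∑' i, wj i := ⟨_, rfl⟩
  have hW0 : 0 ≤ W := by
    rw [hW]
    exact tsum_nonneg fun j => (wj_pos j).le
  rw [← hW] at hω
  have hA : ∀ i s N : ℕ, ∑ u : ZMod (s + 1) × (Fin r → ZMod (s + 1)),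
      ‖∑ n ∈ range N, (rawA r c n i s u (ω n) - ∑ v, (pw r ν n v : ℂ) * rawA r c n i s u v)‖ ^ 2 ≤
        W / wj (Sum.inl (i, s)) * N := fun i s N => hω (Sum.inl (i, s)) N
  have hB : ∀ k N : ℕ, ∑ t : {t // t ∈ T r k},
      ‖∑ n ∈ range N, (rawB r n k t (ω n) - ∑ v, (pw r ν n v : ℂ) * rawB r n k t v)‖ ^ 2 ≤
        W / wj (Sum.inr k) * N := fun k N => hω (Sum.inr k) N
  refine ⟨fun n => (ω n).1, fun p _ => (ω p).2, fun i => ⟨√(W * 2 ^ i), ?_⟩, ⟨3 * W, ?_⟩⟩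
  · intro q hq F x
    obtain ⟨s, rfl⟩ : ∃ s, q = s + 1 := ⟨q - 1, by have := hq.out; omega⟩
    have h2 := hA i s (x + 1)
    have h3 := cs F (fun u => ∑ n ∈ range (x + 1), (rawA r c n i s u (ω n) -
      ∑ v, (pw r ν n v : ℂ) * rawA r c n i s u v)) _ h2
    have h4 : ∑ u, F u * (∑ n ∈ range (x + 1), (rawA r c n i s u (ω n) -
        ∑ v, (pw r ν n v : ℂ) * rawA r c n i s u v)) =
        ∑ p ∈ primesUpTo x, c i p * (F (p, red (s + 1) (ω p).1) -
          ∑ b ∈ box r (4 * p), (ν p b : ℂ) * F (p, red (s + 1) b)) := by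
      have e1 : ∀ u, F u * (∑ n ∈ range (x + 1), (rawA r c n i s u (ω n) -
          ∑ v, (pw r ν n v : ℂ) * rawA r c n i s u v)) =
          ∑ n ∈ range (x + 1), (F u * rawA r c n i s u (ω n) -
            ∑ v, (pw r ν n v : ℂ) * (F u * rawA r c n i s u v)) := by
        intro u
        rw [mul_sum]
        refine sum_congr rfl fun n _ => ?_
        rw [mul_sub, mul_sum]
        congr 1
        refine sum_congr rfl fun v _ => ?_
        ring
      rw [sum_congr rfl fun s' _ => e1 s', sum_comm]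
      unfold primesUpTo
      rw [sum_filter]
      refine sum_congr rfl fun n _ => ?_
      rw [sum_sub_distrib, expand r c n i s F (ω n), sum_comm]
      have e2 : ∀ v : Om r n, ∑ u, (pw r ν n v : ℂ) * (F u * rawA r c n i s u v) =
          (pw r ν n v : ℂ) * (if n.Prime then c i n * F ((n : ZMod (s + 1)), red (s + 1) v.1)
            else 0) := by
        intro v
        rw [← mul_sum, expand r c n i s F v]
      rw [sum_congr rfl fun v _ => e2 v]
      by_cases h : n.Prime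
      · simp only [if_pos h, pw]
        rw [Finset.sum_coe_sort (box r (4 * n)) (fun b => (ν n b : ℂ) *
          (c i n * F ((n : ZMod (s + 1)), red (s + 1) b))), mul_sub, mul_sum]
        congr 1
        refine sum_congr rfl fun b _ => ?_
        ring
      · simp only [if_neg h, mul_zero, sum_const_zero, sub_zero]
    rw [← h4]
    refine h3.trans (le_of_eq ?_)
    have h5 : W / wj (Sum.inl (i, s)) * ((x + 1 : ℕ) : ℝ) =
        (W * 2 ^ i) * (((s + 1 : ℕ) : ℝ) ^ 2 * ((x : ℝ) + 1)) := by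
      simp only [wj]
      push_cast
      rw [one_div_pow]
      field_simp
    rw [h5, Real.sqrt_mul (mul_nonneg hW0 (pow_nonneg (by norm_num) _)),
      Real.sqrt_mul (sq_nonneg _), Real.sqrt_sq (Nat.cast_nonneg _)]
    ring
  · intro k
    have h2 := hB k (2 ^ (k + 1) + 1)
    have e1 : ∀ t : {t // t ∈ T r k}, ∑ n ∈ range (2 ^ (k + 1) + 1),
        (rawB r n k t (ω n) - ∑ v, (pw r ν n v : ℂ) * rawB r n k t v) =
        (((((blk k).filter fun p => (ω p).1 = t.1).card : ℝ) -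
        ∑ p ∈ blk k, ∑ b ∈ box r (4 * p), if b = t.1 then ν p b else 0 : ℝ) : ℂ) := by
      intro t
      have hsub : blk k ⊆ range (2 ^ (k + 1) + 1) := by
        intro n hn
        unfold blk at hn
        rw [mem_filter, mem_Ioc] at hn
        rw [mem_range]
        omega
      rw [← Finset.sum_subset hsub]
      · rw [Finset.card_filter]
        push_cast
        rw [← sum_sub_distrib]
        refine sum_congr rfl fun n hn => ?_
        have hnp : n.Prime := (mem_filter.1 hn).2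
        simp only [rawB, hn, true_and, pw, if_pos hnp]
        rw [Finset.sum_coe_sort (box r (4 * n)) (fun b => (ν n b : ℂ) *
          (if b = t.1 then (1 : ℂ) else 0))]
        congr 1
        · by_cases h : (ω n).1 = t.1
          · simp only [if_pos h, Complex.ofReal_one]
          · simp only [if_neg h, Complex.ofReal_zero]
        · refine sum_congr rfl fun b _ => ?_
          by_cases h : b = t.1
          · rw [if_pos h, if_pos h, mul_one]
          · rw [if_neg h, if_neg h, mul_zero, Complex.ofReal_zero]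
      · intro n _ hn
        simp only [rawB, hn, false_and, if_false, mul_zero, sum_const_zero, sub_zero]
    have e2 : ∑ t ∈ T r k, |(((blk k).filter fun p => (ω p).1 = t).card : ℝ) -
        ∑ p ∈ blk k, ∑ b ∈ box r (4 * p), if b = t then ν p b else 0| ^ 2 =
        ∑ t : {t // t ∈ T r k}, ‖∑ n ∈ range (2 ^ (k + 1) + 1), (rawB r n k t (ω n) -
          ∑ v, (pw r ν n v : ℂ) * rawB r n k t v)‖ ^ 2 := by
      rw [← Finset.sum_coe_sort (T r k) (fun t =>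
        |(((blk k).filter fun p => (ω p).1 = t).card : ℝ) -
          ∑ p ∈ blk k, ∑ b ∈ box r (4 * p), if b = t then ν p b else 0| ^ 2)]
      refine sum_congr rfl fun t _ => ?_
      rw [e1 t, Complex.norm_real, Real.norm_eq_abs]
    rw [e2]
    refine h2.trans ?_
    have h5 : W / wj (Sum.inr k) * ((2 ^ (k + 1) + 1 : ℕ) : ℝ) =
        W * ((k : ℝ) + 1) ^ 2 * (2 * 2 ^ k + 1) := by
      simp only [wj]
      push_cast
      field_simp
      ring
    rw [h5]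
    have h6 : (1 : ℝ) ≤ 2 ^ k := one_le_pow₀ (by norm_num)
    have h7 : 0 ≤ W * ((k : ℝ) + 1) ^ 2 := mul_nonneg hW0 (sq_nonneg _)
    nlinarith

end Pool.Agent.H414.DF
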