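import Pool.Agent.H414.DF.Defs

/-!
The statements which are put together in the project DF. Paper proofs are in the docstrings. Every
`S_X` is true and is to be proved as a theorem. From `LT.St1`: `kk p` is the number `k` with
`2^k < p ≤ 2^(k+1)` (`two_le_kk`, `mem_blk : p ∈ blk k ↔ p.Prime ∧ kk p = k`).
-/

set_option autoImplicit false

namespace Pool.Agent.H414.DF

open Finset
open Pool.Agent.H414.LT (primesUpTo blk kk)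

/-- `2 ^ x` for real `x` -/
noncomputable def e2 (x : ℝ) : ℝ := (2 : ℝ) ^ x

/-- `1 / (4 r + 1)` -/
noncomputable def th (r : ℕ) : ℝ := 1 / (4 * (r : ℝ) + 1)

/-- `⌊2 ^ (k / (4 r + 1))⌋`, at least `1` -/
noncomputable def Q (r k : ℕ) : ℕ := ⌊e2 (k * th r)⌋₊

/-- the targets of the block `k`: all `|t i| ≤ k` -/
noncomputable def T (r k : ℕ) : Finset (Fin r → ℤ) := box r (k ^ 2)

/-- the kernel: the sum over `q ≤ Q` of the Ramanujan sums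
`∑_{d ∣ q} μ(q / d) d ^ r [d ∣ b]` (`d = x.2`) -/
noncomputable def Kr (r Q : ℕ) (b : Fin r → ℤ) : ℝ :=
  ∑ q ∈ Icc 1 Q, ∑ x ∈ q.divisorsAntidiagonal,
    (ArithmeticFunction.moebius x.1 : ℝ) * (x.2 : ℝ) ^ r * (if ∀ i, (x.2 : ℤ) ∣ b i then 1 else 0)

/-- Smooth weights: `w k` is a probability on the vectors with squares at most `2 ^ k`, bounded by
`C 2^(- k r / 2)`, small on residue classes modulo `q ≤ 2^(k/2)` and very well distributed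
modulo all `D ≤ 2^(9k/20)`. -/
structure IsW (r : ℕ) (w : ℕ → (Fin r → ℤ) → ℝ) (C : ℝ) : Prop where
  nonneg : ∀ k a, 0 ≤ w k a
  supp : ∀ k, ∀ a ∉ box r (2 ^ k), w k a = 0
  sum : ∀ k, ∑ a ∈ box r (2 ^ k), w k a = 1
  sup : ∀ k a, w k a ≤ C * e2 (-(k * r / 2))
  cls : ∀ (k q : ℕ) [NeZero q], (q : ℝ) ≤ e2 (k / 2) → ∀ c : Fin r → ZMod q,
    ∑ a ∈ (box r (2 ^ k)).filter (fun a => red q a = c), w k a ≤ C / (q : ℝ) ^ r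
  equi : ∀ (k D : ℕ) [NeZero D], (D : ℝ) ≤ e2 (9 * k / 20) → ∀ G : (Fin r → ZMod D) → ℂ,
    (∀ γ, ‖G γ‖ ≤ 1) →
    ‖∑ a ∈ box r (2 ^ k), (w k a : ℂ) * G (red D a) - (∑ γ, G γ) / (D : ℂ) ^ r‖ ≤ C * e2 (-(3 * k))

/-- the correction which makes the total mass zero -/
noncomputable def Lt {r : ℕ} (w : ℕ → (Fin r → ℤ) → ℝ) (k : ℕ) (t : Fin r → ℤ) : ℝ :=
  ∑ a ∈ box r (2 ^ k), w k a * Kr r (Q r k) (a - t) - 1

/-- the signed measure `δ_t - w (K(· - t) - L_t)` of total mass zero -/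
noncomputable def kap {r : ℕ} (w : ℕ → (Fin r → ℤ) → ℝ) (k : ℕ) (t a : Fin r → ℤ) : ℝ :=
  (if a = t then 1 else 0) - w k a * (Kr r (Q r k) (a - t) - Lt w k t)

/-! ### Independent lemmas -/

/-- ENGINE for vectors of test functions (generalisation of `Pool.Agent.H414.LT.eng`,
file `Pool/Agent/H414/LT/Eng.lean`: copy that proof; there `I j` has one element). Potential
`Φ N = ∑' j, w j * ∑ s, ‖S j s‖ ^ 2`, with `S j s = ∑ n < N, φ n j s (ω n)`; for each `j`, `s`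
`∑ ω, π ω * ‖S + φ ω‖ ^ 2 = ‖S‖ ^ 2 + ∑ ω, π ω * ‖φ ω‖ ^ 2` (`LT.Eng.key`). -/
def S_ENG : Prop :=
  ∀ (J : Type) (I : J → Type) [∀ j, Fintype (I j)] (Ω : ℕ → Type) [∀ n, Fintype (Ω n)]
    (π : ∀ n, Ω n → ℝ) (φ : ∀ (n : ℕ) (j : J), I j → Ω n → ℂ) (w E : J → ℝ),
    (∀ n ω, 0 ≤ π n ω) → (∀ n, ∑ ω, π n ω = 1) → (∀ j, 0 < w j) → (∀ j, 0 ≤ E j) →
    (Summable fun j => w j * E j) → (∀ n j s, ∑ ω, (π n ω : ℂ) * φ n j s ω = 0) →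
    (∀ n j, ∑ ω, π n ω * ∑ s, ‖φ n j s ω‖ ^ 2 ≤ E j) →
    (∀ n ω, Summable fun j => w j * ∑ s, ‖φ n j s ω‖ ^ 2) →
    ∃ ω : ∀ n, Ω n, ∀ (j : J) (N : ℕ),
      ∑ s, ‖∑ n ∈ range N, φ n j s (ω n)‖ ^ 2 ≤ (∑' i, w i * E i) / w j * N

/-- The divisor bound. (`n = ∏ p ^ a`, `d(n) / n ^ ε = ∏ (a + 1) / p ^ (a ε)`; the factors with
`p ≥ 2 ^ (1 / ε)` are at most `1` (`a + 1 ≤ 2 ^ a`), the others at most
`sup_a (a + 1) / 2 ^ (a ε) ≤ 1 + 1 / (ε log 2)`. The library (`Pool/Graph`) has it in several versions;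
search INDEX.tsv for divisor bounds.) -/
def S_TAU : Prop := ∀ ε : ℝ, 0 < ε → ∃ C : ℝ, ∀ n : ℕ, 1 ≤ n →
  (n.divisors.card : ℝ) ≤ C * (n : ℝ) ^ ε

/-- One-dimensional weights. -/
structure IsW1 (w : ℕ → ℤ → ℝ) (C : ℝ) : Prop where
  nonneg : ∀ k a, 0 ≤ w k a
  supp : ∀ k, ∀ a ∉ Icc (-(Nat.sqrt (2 ^ k) : ℤ)) (Nat.sqrt (2 ^ k)), w k a = 0
  sum : ∀ k, ∑ a ∈ Icc (-(Nat.sqrt (2 ^ k) : ℤ)) (Nat.sqrt (2 ^ k)), w k a = 1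
  sup : ∀ k a, w k a ≤ C * e2 (-(k / 2))
  cls : ∀ (k q : ℕ) [NeZero q], (q : ℝ) ≤ e2 (k / 2) → ∀ c : ZMod q,
    ∑ a ∈ (Icc (-(Nat.sqrt (2 ^ k) : ℤ)) (Nat.sqrt (2 ^ k))).filter (fun a : ℤ => (a : ZMod q) = c),
      w k a ≤ C / (q : ℝ)
  equi : ∀ (k D : ℕ) [NeZero D], (D : ℝ) ≤ e2 (9 * k / 20) → ∀ G : ZMod D → ℂ,
    (∀ γ, ‖G γ‖ ≤ 1) →
    ‖∑ a ∈ Icc (-(Nat.sqrt (2 ^ k) : ℤ)) (Nat.sqrt (2 ^ k) : ℤ), (w k a : ℂ) * G (a : ZMod D) -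
      (∑ γ, G γ) / (D : ℂ)‖ ≤ C * e2 (-(3 * k))

/-- EXISTENCE OF THE ONE-DIMENSIONAL WEIGHTS. `w k` is the law of `X = ∑_{s < 60} X_s`, `X_s` independent and
uniform on `{-h, …, h}`, `h = ⌊2^(k/2) / 60⌋`, `L = 2 h + 1` (`L ≥ 2^(k/2) / 60` always, and
`60 h ≤ 2^(k/2)`, so `|X| ≤ 2^(k/2)`, i.e. the support is in the interval given by `Nat.sqrt (2 ^ k)`).
In Lean, e.g.: `A h G y = (∑ v ∈ Icc (-h) h, G (y + v)) / L` (an operator on functions on `ℤ`),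
`w k a = ((A h)^[60] 1[· = a]) 0`; for all `G`, `∑_a w k a * G a = ((A h)^[60] G) 0`.
`sup`: `(A h) 1[· = a] ≤ 1 / L` everywhere, and averages do not increase the sup: `w k a ≤ 1 / L`.
`cls`: in `{y - h, …, y + h}` are at most `L / q + 1` of `L` numbers in one class modulo `q`, so
`(A h) 1[· ≡ c] ≤ 1/q + 1/L ≤ 61 / q` for `q ≤ 2^(k/2) ≤ 60 L`.
`equi`: the mean over `L` consecutive integers of a function `g` on `ZMod D` with mean zero and `|g| ≤ B` is at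
most `B D / L` in absolute value (full periods cancel, fewer than `D` terms remain), and the averaged
function has mean zero again; apply this `60` times to `G - mean`: `≤ 2 (D / L) ^ 60`, and
`D / L ≤ 60 * 2^(9k/20 - k/2) = 60 * 2^(-k/20)`, so the error is `≤ 2 * 60^60 * 2^(-3k)`. -/
def S_W1 : Prop := ∃ (w : ℕ → ℤ → ℝ) (C : ℝ), IsW1 w C

/-- THE PRODUCT WEIGHTS: `w k a = ∏ i, w₁ k (a i)`. `nonneg`, `supp`, `sum`, `sup`, `cls` are immediate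
(`Finset.prod_univ_sum`, `Finset.sum_prod_piFinset`; for `cls` the filtered box is the `piFinset` of the
filtered intervals). `equi`: induction on `r` (`Fin.cons`, `Fin.consEquiv`, `Fin.prod_univ_succ`):
`∑_a w(a) G(a) = ∑_{a₀} w₁(a₀) ∑_{a'} w(a') G(a₀, a')`; by induction the inner sum is
`mean_{γ'} G(a₀, γ') + O(C_r 2^(-3k))`, and the one-dimensional statement applies to the function
`γ₀ ↦ mean_{γ'} G(γ₀, γ')`, so `C_{r+1} = C_r + C`. (Take the maximum of the constants needed for the different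
fields; they are all nonnegative, e.g. from the fields themselves.) -/
def S_W : Prop := ∀ r : ℕ, ∃ (w : ℕ → (Fin r → ℤ) → ℝ) (C : ℝ), IsW r w C

/-- BOUNDS FOR THE KERNEL. By the triangle inequality and exchanging the sums
(`|μ| ≤ 1`; for given `d ≤ Q` there are at most `Q / d` multiples `q ≤ Q` of `d`)
`|Kr r Q b| ≤ ∑_{d ≤ Q} (Q / d) d^r [d ∣ b]`, which is (3); as `d^(r-1) ≤ Q^(r-1)` for `r ≥ 1` the terms are at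
most `Q^r`, hence (1) `≤ Q^(r+1)` (`Q` terms), and (2) if `b j ≠ 0` there are at most
`(b j).natAbs.divisors.card` terms which are not `0`. -/
def S_K : Prop := ∀ (r Q : ℕ) (b : Fin r → ℤ), 1 ≤ r →
  |Kr r Q b| ≤ (Q : ℝ) ^ (r + 1) ∧
  (∀ j, b j ≠ 0 → |Kr r Q b| ≤ (Q : ℝ) ^ r * ((b j).natAbs.divisors.card : ℝ)) ∧
  |Kr r Q b| ≤ ∑ d ∈ Icc 1 Q, (Q : ℝ) / d * (d : ℝ) ^ r * (if ∀ i, (d : ℤ) ∣ b i then 1 else 0)

/-- CHINESE REMAINDERS. The number of the `γ` modulo `d q` with `γ ≡ t mod d` and `γ ≡ α mod q` is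
`g = gcd(d, q)` if `α ≡ t mod g` and `0` otherwise, in each coordinate; so in `r` dimensions it is `g ^ r` or
`0`. (One coordinate: `0 ≤ γ < d q`; if there is a solution, the solutions form a class modulo
`lcm(d, q)`, which has `d q / lcm = g` elements below `d q`; `Nat.chineseRemainder'`, or
`Int.emod_emod_of_dvd` etc.) Hence the claim. Here `t` is a vector of integers; the classes `γ : ZMod (d * q)`
are cast to `ZMod d` and `ZMod q` with `ZMod.cast`, and the condition `α ≡ t mod g` is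
`(α i).cast = (t i : ZMod g)`, a condition which makes sense for `g ∣ q`. -/
def S_CRT : Prop := ∀ (r d q : ℕ) [NeZero d] [NeZero q] (t : Fin r → ℤ) (G : (Fin r → ZMod q) → ℂ),
  ∑ γ : Fin r → ZMod (d * q), (if ∀ i, ((γ i).cast : ZMod d) = (t i : ZMod d) then
      G (fun i => (γ i).cast) else 0) =
    ((Nat.gcd d q : ℕ) : ℂ) ^ r * ∑ α : Fin r → ZMod q,
      (if ∀ i, ((α i).cast : ZMod (Nat.gcd d q)) = (t i : ZMod (Nat.gcd d q)) then G α else 0)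

/-- MOEBIUS. For any function `H` on the naturals and `q ≥ 1`:
`∑_{n ≤ Q} ∑_{x₁ x₂ = n} μ(x₁) H(gcd(x₂, q))` is `H q` if `q ≤ Q`, and always at most
`d(q)^2 sup |H|`.

Proof. Put `h' n = ∑_{x₁ x₂ = n} μ(x₁) H(x₂)` (so `∑_{e ∣ n} h' e = H n`, Möbius inversion) and
`f n = h' n` if `n ∣ q`, `0` otherwise. Then `∑_{e ∣ n} f e = ∑_{e ∣ gcd(n, q)} h' e = H(gcd(n, q))`, so by
Möbius inversion (`ArithmeticFunction.sum_eq_iff_sum_mul_moebius_eq`)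
`f n = ∑_{x₁ x₂ = n} μ(x₁) H(gcd(x₂, q))`. So the sum is `∑_{n ≤ Q, n ∣ q} h' n`. For `q ≤ Q` it is
`∑_{n ∣ q} h' n = H q`. In general it is at most `∑_{n ∣ q} d(n) B ≤ d(q)^2 B`. -/
def S_MOB : Prop := ∀ (H : ℕ → ℂ) (q Q : ℕ), 1 ≤ q →
  (q ≤ Q → ∑ n ∈ Icc 1 Q, ∑ x ∈ n.divisorsAntidiagonal,
      ((ArithmeticFunction.moebius x.1 : ℤ) : ℂ) * H (Nat.gcd x.2 q) = H q) ∧
  ∀ B : ℝ, (∀ n, ‖H n‖ ≤ B) → ‖∑ n ∈ Icc 1 Q, ∑ x ∈ n.divisorsAntidiagonal,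
      ((ArithmeticFunction.moebius x.1 : ℤ) : ℂ) * H (Nat.gcd x.2 q)‖ ≤
      (q.divisors.card : ℝ) ^ 2 * B

/-- ASSIGNMENT. Change `a₀ : α → β` on a finite set `A` so that exactly `f t` elements of `A` are sent to
`t`, for all `t` in the finite set `T`, with as few changes as possible. Let `N t` be the number of the
`x ∈ A` with `a₀ x = t`; for `N t > f t` send `N t - f t` of them to `u ∉ T`; for `N t < f t` send `f t - N t` elements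
of the set of the `x ∈ A` with `a₀ x ∉ T` to `t`, different ones for different `t`: there are
`#A - ∑ N t ≥ ∑ f t + ∑ |N t - f t| - ... ` of them: `#A ≥ ∑ f t + 2 ∑ |N t - f t|` is more than enough.
(Induction on `T` for the second step, or `Finset.exists_subset_card_eq` repeatedly.) -/
def S_ASG : Prop := ∀ (α β : Type) [DecidableEq β] (A : Finset α) (T : Finset β) (u : β) (a₀ : α → β)
  (f : β → ℕ) (n : ℕ), u ∉ T →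
  (∑ t ∈ T, |(((A.filter fun x => a₀ x = t).card : ℕ) : ℤ) - f t| ≤ n) →
  ∑ t ∈ T, f t + 2 * n ≤ A.card →
  ∃ a : α → β, (∀ t ∈ T, (A.filter fun x => a x = t).card = f t) ∧
    (A.filter fun x => a x ≠ a₀ x).card ≤ n ∧
    (∀ x, x ∉ A → a x = a₀ x) ∧ ∀ x ∈ A, a x = a₀ x ∨ a x = u ∨ a x ∈ T

/-- UPPER BOUND from the division fields (the first half of the theorem).

Proof. Let `x = 2 ^ (k + 1)` and let `q` be a prime with `Y < q ≤ 2 Y`, `Y = ⌈2^(k th)⌉` (`Nat.exists_prime_lt_and_le_two_mul`),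
`F (u, α) = 1` if `α = red q t`, `0` otherwise. `l2 F = √q`. `i = 0`, `c 0 = 1`. The number of the `p ∈ blk k` with
`a p = t` is at most `Re ∑_{p ≤ x} F(p, red q (a p))`, so at most
`C q^r √q (x + 1)^(1/2 + ε) + ∑_{p ≤ x} μ p {b ∈ box r (4p) : b ≡ t mod q}`. For `p ≤ q ^ 2` the mass is at most `1`,
together `q^2`; for `p > q^2` there are at most `(4 √p / q + 1)^r ≤ (5 √p / q)^r` such `b` (`2 √(4p) + 1` numbers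
in the interval, `≤ 4 √p / q + 1` in a class), so the mass is at most `C' 5^r p^ε q^(-r)`; together
`≤ C' 5^r (x + 1)^(1 + ε) q^(-r)`. With `2^(k th) ≤ q ≤ 4 * 2^(k th)`, `th = 1/(4r+1)`:
`(r + 1/2) th + 1/2 = 1 - r th` and `2 th ≤ 1 - r th` (`r ≥ 1`), so all three terms are at most
`C'' 2^(k (1 - r th + 2 ε))`. -/
def S_UP : Prop := ∀ (r : ℕ) (μ : ℕ → (Fin r → ℤ) → ℝ), 1 ≤ r → IsRef r μ →
  ∀ a : ℕ → Fin r → ℤ, IsSystem r a → HasBound r μ (fun _ _ => 1) a →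
  ∀ ε : ℝ, 0 < ε → ∃ C : ℝ, ∀ (k : ℕ) (t : Fin r → ℤ),
    (((blk k).filter fun p => a p = t).card : ℝ) ≤ C * e2 (k * (1 - r * th r + ε))

/-! ### The bias -/

/-- THE KERNEL ACTS AS `δ_t` on functions modulo `q ≤ Q`. Let `‖G‖ ≤ 1`, `q * 2^(k th) ≤ 2^(9k/20)`.
`∑_a w(a) K(a - t) G(a) = ∑_{n ≤ Q} ∑_{x₁ x₂ = n} μ(x₁) x₂^r ∑_a w(a) [x₂ ∣ a - t] G(a)`. The function
`[d ∣ a - t] G(a)` (`d = x₂ ≤ Q`) is periodic modulo `D = d q ≤ 2^(9k/20)`, so by `IsW.equi` the inner sum is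
`(d q)^(-r) ∑_{γ mod d q} [γ ≡ t mod d] G(γ) + O(C 2^(-3k))`, and by `S_CRT` this is `d^(-r) H(gcd(d, q))` with
`H g = (g / q)^r ∑_{α mod q} [α ≡ t mod g] G(α)` (for `g ∣ q`; for other `g` put `H g = 0`). Note
`H q = G(t)` and `|H g| ≤ 1` (the number of the `α mod q` with `α ≡ t mod g` is `(q / g)^r`, `g ∣ q`). By `S_MOB`
the main term is `G(t)` if `q ≤ Q`, and at most `d(q)^2` always. The error is at most
`∑_{n ≤ Q} ∑_{d ∣ n} d^r C 2^(-3k) ≤ C Q^(r+1) 2^(-3k) ≤ C 2^(-2k)` (as in `S_K`;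
`Q^(r+1) ≤ 2^(k (r+1)/(4r+1)) ≤ 2^k`). -/
def S_DEL : Prop := ∀ (r : ℕ) (w : ℕ → (Fin r → ℤ) → ℝ) (C : ℝ), 1 ≤ r → IsW r w C →
  ∃ C' : ℝ, ∀ (k q : ℕ) [NeZero q] (t : Fin r → ℤ) (G : (Fin r → ZMod q) → ℂ),
    (q : ℝ) * e2 (k * th r) ≤ e2 (9 * k / 20) → (∀ γ, ‖G γ‖ ≤ 1) →
    (q ≤ Q r k → ‖∑ a ∈ box r (2 ^ k), ((w k a * Kr r (Q r k) (a - t) : ℝ) : ℂ) * G (red q a) -
      G (red q t)‖ ≤ C' * e2 (-(2 * k))) ∧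
    ‖∑ a ∈ box r (2 ^ k), ((w k a * Kr r (Q r k) (a - t) : ℝ) : ℂ) * G (red q a)‖ ≤
      (q.divisors.card : ℝ) ^ 2 + C'

/-- The total masses `L_t` are very small. (`S_DEL` with `q = 1`, `G = 1`: `1 * 2^(k th) ≤ 2^(9k/20)` since
`th ≤ 1/5`, `1 ≤ Q r k`.) -/
def S_LT : Prop := ∀ (r : ℕ) (w : ℕ → (Fin r → ℤ) → ℝ) (C : ℝ), 1 ≤ r → IsW r w C →
  ∃ C' : ℝ, ∀ (k : ℕ) (t : Fin r → ℤ), |Lt w k t| ≤ C' * e2 (-(2 * k))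

/-- SECOND MOMENT OF THE KERNEL. For `t ∈ box r (2^k)` and `ε > 0`:
`∑_a w(a) K(a - t)^2 ≤ C' 2^(ε k) 2^(k th (r+1))`.

Proof. The term `a = t`: `w(t) K(0)^2 ≤ C 2^(-kr/2) Q^(2r+2) ≤ C Q^(r+1)` since
`(r + 1) th ≤ r / 2`. The terms `a ≠ t`: some `(a - t) j ≠ 0` is at most `2 * 2^(k/2)` in absolute value, so
`|K(a - t)| ≤ Q^r C_ε 2^(ε k)` by `S_K` (2) and `S_TAU`, and by `S_K` (3) and `IsW.cls` (for `q = d ≤ Q ≤ 2^(k/2)`)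
`∑_a w(a) |K(a - t)| ≤ ∑_{d ≤ Q} (Q / d) d^r C / d^r ≤ C Q (1 + log Q) ≤ C' Q 2^(ε k)`. -/
def S_MOM : Prop := ∀ (r : ℕ) (w : ℕ → (Fin r → ℤ) → ℝ) (C : ℝ), 1 ≤ r → IsW r w C →
  ∀ ε : ℝ, 0 < ε → ∃ C' : ℝ, ∀ k : ℕ, ∀ t ∈ box r (2 ^ k),
    ∑ a ∈ box r (2 ^ k), w k a * Kr r (Q r k) (a - t) ^ 2 ≤
      C' * e2 (k * (ε + (r + 1) * th r))

/-- THE BIAS. `|∑_a κ_t(a) G(a)| ≤ C' 2^(ε k) (q / 2^(k th))^(r + 1/2) ‖G‖₂` for `q^3 ≤ 2^(k+1)`.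

Proof. Dividing by the sup norm (`≤ l2 G`) or by scaling we use `S_DEL` with `‖G‖ ≤ l2 G`.
First `|L_t| ≤ C' 2^(-2k)` (`S_LT`).
(A) `q ≤ Q`: (then `q 2^(k th) ≤ 2^(2 k th) ≤ 2^(9k/20)`) `∑ κ_t G = G(t) - ∑ w K G + L_t ∑ w G` has norm at most
`2 C' 2^(-2k) l2 G`, and `2^(-2k) ≤ 2^(-k th (r + 1/2)) ≤ (q / 2^(k th))^(r+1/2)`.
(B) `q > Q`, so `q ≥ 2^(k th)` (as `q ≥ Q + 1 > 2^(k th)`), and `q ≤ 2^(5/4 k th)`: then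
`q 2^(k th) ≤ 2^(9/4 k th) ≤ 2^(9k/20)` (`th ≤ 1/5`); the norm is at most
`(1 + d(q)^2 + C' + C') l2 G ≤ C'' 2^(ε k) l2 G` (`S_TAU`).
(C) `q > 2^(5/4 k th)`: by Cauchy-Schwarz `|∑ w K G| ≤ (∑ w K^2)^(1/2) (∑ w |G|^2)^(1/2)`, the first factor by
`S_MOM`, the second: `∑_a w(a) |G(a)|^2 = ∑_c |G(c)|^2 w(class c) ≤ (C / q^r) l2 G ^ 2` (`IsW.cls`,
`q ≤ 2^(k/2)` follows from `q^3 ≤ 2^(k+1)`, also for `k = 0, 1`). So it is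
`≤ C'' 2^(ε k) 2^(k th (r+1)/2) q^(-r/2) l2 G`, and
`2^(k th (r + 1)/2) q^(-r/2) ≤ (q / 2^(k th))^(r + 1/2)` is `2^(k th (3r + 2)/2) ≤ q^((3r+1)/2)`, true since
`(5/4)(3r+1) ≥ 3r+2`. The terms `G(t)` and `L_t ∑ w G` are at most `(1 + C') l2 G`. -/
def S_BIAS : Prop := ∀ (r : ℕ) (w : ℕ → (Fin r → ℤ) → ℝ) (C : ℝ), 1 ≤ r → IsW r w C →
  ∀ ε : ℝ, 0 < ε → ∃ C' : ℝ, ∀ (k q : ℕ) [NeZero q] (G : (Fin r → ZMod q) → ℂ),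
    ∀ t ∈ box r (2 ^ k), q ^ 3 ≤ 2 ^ (k + 1) →
    ‖∑ a ∈ box r (2 ^ k), (kap w k t a : ℂ) * G (red q a)‖ ≤
      C' * e2 (ε * k) * ((q : ℝ) / e2 (k * th r)) ^ ((r : ℝ) + 1 / 2) * l2 G

/-- The laws `ν`: `μ` plus small multiples of the `κ_t`, in the blocks `k ≥ k₀`. -/
noncomputable def nu {r : ℕ} (μ : ℕ → (Fin r → ℤ) → ℝ) (w : ℕ → (Fin r → ℤ) → ℝ)
    (m : ℕ → (Fin r → ℤ) → ℝ) (k₀ p : ℕ) (b : Fin r → ℤ) : ℝ :=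
  μ p b + if k₀ ≤ kk p then ∑ t ∈ T r (kk p), m (kk p) t * kap w (kk p) t b else 0

/-- The masses `m k t` (with `w k t (K(0) - L_t)` the mass of the subtracted part at `t`). -/
structure IsM (r : ℕ) (w : ℕ → (Fin r → ℤ) → ℝ) (δ : ℝ) (f : ℕ → (Fin r → ℤ) → ℕ)
    (m : ℕ → (Fin r → ℤ) → ℝ) (k₀ : ℕ) (C' : ℝ) : Prop where
  sub : ∀ k, k₀ ≤ k → T r k ⊆ box r (2 ^ k)
  nonneg : ∀ k t, 0 ≤ m k t
  sum : ∀ k, k₀ ≤ k → ∑ t ∈ T r k, m k t ≤ C' * (k + 1) * e2 (-(k * (r * th r + δ)))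
  diag : ∀ k, k₀ ≤ k → ∀ t ∈ T r k, 0 ≤ 1 - w k t * (Kr r (Q r k) 0 - Lt w k t)
  eq : ∀ k, k₀ ≤ k → ∀ t ∈ T r k,
    ((blk k).card : ℝ) * (m k t * (1 - w k t * (Kr r (Q r k) 0 - Lt w k t))) = f k t

/-- CHOICE OF THE MASSES. Let `D t = 1 - w(t) (K(0) - L_t)` and `m k t = f k t / (#(blk k) * D t)`
(`0` for small `k`).
`|w(t) (K(0) - L_t)| ≤ C 2^(-kr/2) (Q^(r+1) + C') → 0` (`S_K` (1), `S_LT`, `(r + 1) th < r / 2`),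
so `D t ≥ 1/2` for large `k`. With `#(blk k) ≥ c 2^k / (k + 1)` (`LT.S_CHE`):
`∑_t m k t ≤ (2/c) (k + 1) 2^(-k) ∑ f ≤ (2/c) (k + 1) 2^(- k (r th + δ))`. `T r k ⊆ box r (2^k)` is
`k^2 ≤ 2^k`, true for `k ≥ 4`. -/
def S_M : Prop := ∀ (r : ℕ) (w : ℕ → (Fin r → ℤ) → ℝ) (C δ : ℝ) (f : ℕ → (Fin r → ℤ) → ℕ),
  1 ≤ r → IsW r w C → 0 < δ →
  (∀ k, ((∑ t ∈ T r k, f k t : ℕ) : ℝ) ≤ e2 (k * (1 - r * th r - δ))) →
  ∃ (m : ℕ → (Fin r → ℤ) → ℝ) (k₀ : ℕ) (C' : ℝ), IsM r w δ f m k₀ C'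

/-- POSITIVITY. Let `p ∈ blk k`, `k ≥ k₁`. If `b ∉ box r (2^k)` then `w k b = 0` and `b ≠ t` for all
`t ∈ T r k ⊆ box r (2^k)`, so `κ_t(b) = 0` and `ν = μ ≥ 0`. If
`b ∈ box r (2^k) ⊆ box r p`: `ν(b) ≥ μ(b) - ∑_{t ≠ b} m_t w(b) (|K(b - t)| + |L_t|)` (the term `t = b` is
`m_b D_b ≥ 0`, `IsM.diag`), with `w(b) ≤ C 2^(-kr/2)`, `|K(b - t)| ≤ Q^r C_ε 2^(ε k)` (`S_K` (2), `S_TAU`;
a coordinate of `b - t` is not `0` and at most `2 * 2^(k/2)`), `|L_t| ≤ C'` (`S_LT`): the subtracted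
sum is at most `C'' (k + 1) 2^(-kr/2) 2^(-k (r th + δ)) 2^(k r th + ε k)`, while
`μ(b) ≥ c_ε p^(-ε - r/2) ≥ c_ε 2^(-(k+1)(ε + r/2))`; take `ε = δ / 4` and `k` large. -/
def S_POS : Prop := ∀ (r : ℕ) (μ w : ℕ → (Fin r → ℤ) → ℝ) (C δ : ℝ) (f : ℕ → (Fin r → ℤ) → ℕ)
  (m : ℕ → (Fin r → ℤ) → ℝ) (k₀ : ℕ) (C' : ℝ), 1 ≤ r → IsRef r μ → IsW r w C → 0 < δ →
  IsM r w δ f m k₀ C' →
  ∃ k₁ : ℕ, k₀ ≤ k₁ ∧ ∀ p : ℕ, p.Prime → ∀ b, 0 ≤ nu μ w m k₁ p b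

/-- TOTAL MASS. `∑_b κ_t(b) = 0` over `box r (4p) ⊇ box r (2^k)` for `p ∈ blk k`, `t ∈ T r k ⊆ box r (2^k)`
(`∑ w = 1`, `supp`, the definition of `L_t`: `1 - ∑ w K + L_t ∑ w = 1 - (L_t + 1) + L_t = 0`). -/
def S_TOT : Prop := ∀ (r : ℕ) (μ w : ℕ → (Fin r → ℤ) → ℝ) (C : ℝ)
  (m : ℕ → (Fin r → ℤ) → ℝ) (k₁ : ℕ), IsRef r μ → IsW r w C →
  (∀ k, k₁ ≤ k → T r k ⊆ box r (2 ^ k)) →
  ∀ p : ℕ, p.Prime → ∑ b ∈ box r (4 * p), nu μ w m k₁ p b = 1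

/-- THE NUMBERS. For `t ∈ T r k`: `∑_{p ∈ blk k} ν p t - f k t =
∑_{p ∈ blk k} μ p t - #(blk k) ∑_{t' ≠ t} m_{t'} w(t) (K(t - t') - L_{t'})`
(as `#(blk k) m_t D_t = f k t`, `IsM.eq`). `μ p t ≤ C_ε p^(ε - r/2) ≤ C_ε p^(ε - 1/2)`, so the first sum is at most
`C 2^(k (1/2 + ε))`; the second is at most `2^(k+1) C' (k + 1) 2^(-k r th) C 2^(-kr/2) C_ε 2^(k r th + ε k)
≤ C'' 2^(k(1 - r/2 + 2 ε)) ≤ C'' 2^(k(1/2 + 2ε))`. There are `(2k+1)^r` elements `t` of `T r k`. -/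
def S_CNT : Prop := ∀ (r : ℕ) (μ w : ℕ → (Fin r → ℤ) → ℝ) (C δ : ℝ) (f : ℕ → (Fin r → ℤ) → ℕ)
  (m : ℕ → (Fin r → ℤ) → ℝ) (k₀ : ℕ) (C' : ℝ), 1 ≤ r → IsRef r μ → IsW r w C → 0 < δ →
  IsM r w δ f m k₀ C' → ∀ k₁, k₀ ≤ k₁ →
    ∀ ε : ℝ, 0 < ε → ∃ C'' : ℝ, ∀ k, k₁ ≤ k →
      ∑ t ∈ T r k, |∑ p ∈ blk k, nu μ w m k₁ p t - f k t| ≤ C'' * e2 (k * (1 / 2 + ε))

/-- SELECTION. For any laws `ν p` on `box r (4p)` there is a system with square root fluctuations,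
uniformly in `q`, and in the numbers of the `p ∈ blk k` with `a p = t`, `t ∈ T r k`.

Proof. `S_ENG` with `J = (ℕ × ℕ) ⊕ ℕ`, `I (inl (i, s)) = ZMod (s + 1) × (Fin r → ZMod (s + 1))`,
`I (inr k) = {t // t ∈ T r k}`, outcomes `Ω n = {b // b ∈ box r (4n)}` with the weights `ν n` if `n` is prime and (say)
the point mass at `0` otherwise, tests
`φ n (inl (i, s)) (u, α) b = c i n * [n = u in ZMod (s+1)] * ([red b = α] - ∑_{b'} ν n b' [red b' = α])` if `n` is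
prime, `0` otherwise, `φ n (inr k) t b = [n ∈ blk k] ([b = t] - ν n t)` (for `t ∈ box r (4n)`, which may be
wrong for small `n`: use `∑_{b'} ν n b' [b' = t]` in place of `ν n t`; the conclusion is stated with
`ν`-sums over the box in this form). Means are `0`. Second moments:
`∑_ω π ∑_s |φ|^2 ≤ ∑_{α} P(red b = α) = 1` (variance at most second moment), so `E = 1`. Weights
`w (inl (i, s)) = 2^(-i) / (s + 1)^2`, `w (inr k) = 1 / (k + 1)^2`: summable, and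
`∑_s |φ|^2 ≤ 4 * #I` — for the summability hypothesis note
`∑_s ‖φ n j s ω‖^2 ≤ 4` for every `ω` (`[red b = α]` and `P(α)` both have `∑_α (…)^2 ≤ 1`). Result:
`∑_s |S_s|^2 ≤ W 2^i (s + 1)^2 N` with `N = x + 1`; expanding `F = ∑ F(u, α) 1_{(u, α)}` and Cauchy-Schwarz give
(i) with `q = s + 1`; (ii) is the case `N = 2^(k+1) + 1`, and the sum over `n < N` is that over `blk k`. -/
def S_SEL : Prop := ∀ (r : ℕ) (ν : ℕ → (Fin r → ℤ) → ℝ) (c : ℕ → ℕ → ℂ),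
  (∀ p : ℕ, p.Prime → ∀ b, 0 ≤ ν p b) → (∀ p : ℕ, p.Prime → ∑ b ∈ box r (4 * p), ν p b = 1) →
  (∀ i p, ‖c i p‖ ≤ 1) →
  ∃ a : ℕ → Fin r → ℤ, IsSystem r a ∧
    (∀ i : ℕ, ∃ C : ℝ, ∀ (q : ℕ) [NeZero q] (F : ZMod q × (Fin r → ZMod q) → ℂ) (x : ℕ),
      ‖∑ p ∈ primesUpTo x, c i p * (F (p, red q (a p)) -
        ∑ b ∈ box r (4 * p), (ν p b : ℂ) * F (p, red q b))‖ ≤ C * q * l2 F * √((x : ℝ) + 1)) ∧
    ∃ C : ℝ, ∀ k : ℕ,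
      ∑ t ∈ T r k, |(((blk k).filter fun p => a p = t).card : ℝ) -
        ∑ p ∈ blk k, ∑ b ∈ box r (4 * p), if b = t then ν p b else 0| ^ 2 ≤
        C * (k + 1) ^ 2 * 2 ^ k

/-- FROM `ν` TO `μ` in one block. Let `ν = nu μ w m k₁`, `k ≥ k₁`. Then
`∑_{p ∈ blk k} ‖∑_b (ν p b - μ p b) F(p, b)‖ ≤ C q^r l2 F 2^(k (1/2 + ε))`.

Proof. Let `F_p = F(p, ·)`. Then `∑_{p ∈ blk k} l2(F_p)^2 ≤ (2^(k+1) / q + 1) l2(F)^2`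
(each class modulo `q` contains at most `2^(k+1) / q + 1` numbers up to `2^(k+1)`), so by
Cauchy-Schwarz (`#(blk k) ≤ 2^k`) `∑_{p ∈ blk k} l2(F_p) ≤ 2^(k/2) (2^(k+1) / q + 1)^(1/2) l2 F`.
Case `q^3 ≤ 2^(k+1)`: `∑_b (ν - μ)(b) F_p(b) = ∑_t m_t ∑_b κ_t(b) F_p(b)` (the sum over `box r (4p)` is that over
`box r (2^k)` since `κ_t` vanishes outside: `IsW.supp` and `T r k ⊆ box r (2^k)`), by `S_BIAS` at most
`C' (k+1) 2^(-k r th) C' 2^(ε k) (q / 2^(k th))^(r+1/2) l2 F_p`; with `2^(k+1)/q + 1 ≤ 2^(k+2) / q` the sum over the block is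
`≤ C'' (k+1) 2^(ε k) 2^(-k r th) q^(r+1/2) 2^(-k th (r+1/2)) 2^k * 2 q^(-1/2) l2 F
= 2 C'' (k + 1) 2^(ε k) q^r 2^(k/2) l2 F` because `(2 r + 1/2) th = 1/2`.
Case `q^3 > 2^(k+1)`: `|∑_b (ν - μ)(b) F_p(b)| ≤ 2 sup |F_p| ≤ 2 l2 F_p` (`ν`, `μ` probabilities), and
`2^(k+1)/q + 1 ≤ 2 q^2`, so the sum over the block is at most `2 * 2^(k/2) √2 q l2 F ≤ 3 q^r 2^(k/2) l2 F`. -/
def S_BLK : Prop := ∀ (r : ℕ) (μ w : ℕ → (Fin r → ℤ) → ℝ) (C : ℝ) (m : ℕ → (Fin r → ℤ) → ℝ)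
  (k₁ : ℕ) (C' : ℝ), 1 ≤ r → IsRef r μ → IsW r w C →
  (∀ k, k₁ ≤ k → T r k ⊆ box r (2 ^ k)) →
  (∀ k t, 0 ≤ m k t) →
  (∀ k, k₁ ≤ k → ∑ t ∈ T r k, m k t ≤ C' * (k + 1) * e2 (-(k * (r * th r)))) →
  (∀ p : ℕ, p.Prime → ∀ b, 0 ≤ nu μ w m k₁ p b) →
  (∀ p : ℕ, p.Prime → ∑ b ∈ box r (4 * p), nu μ w m k₁ p b = 1) →
  ∀ ε : ℝ, 0 < ε → ∃ C'' : ℝ, ∀ (q : ℕ) [NeZero q] (F : ZMod q × (Fin r → ZMod q) → ℂ) (k : ℕ),
    k₁ ≤ k →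
    ∑ p ∈ blk k, ‖∑ b ∈ box r (4 * p), ((nu μ w m k₁ p b - μ p b : ℝ) : ℂ) * F (p, red q b)‖ ≤
      C'' * (q : ℝ) ^ r * l2 F * e2 (k * (1 / 2 + ε))

/-- SUMMATION OVER THE BLOCKS. The primes with `kk p < k₁` contribute `0` (`nu = μ`), every other prime
`p ≤ x` is in a block `k ≥ k₁` with `2^k ≤ x`; the triangle inequality and a geometric series
(`∑_{2^k ≤ x} 2^(k (1/2 + ε)) ≤ C x^(1/2 + ε)`). -/
def S_SUM : Prop := ∀ (r : ℕ) (μ w : ℕ → (Fin r → ℤ) → ℝ) (m : ℕ → (Fin r → ℤ) → ℝ) (k₁ : ℕ),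
  (∀ ε : ℝ, 0 < ε → ∃ C'' : ℝ, ∀ (q : ℕ) [NeZero q] (F : ZMod q × (Fin r → ZMod q) → ℂ) (k : ℕ),
    k₁ ≤ k →
    ∑ p ∈ blk k, ‖∑ b ∈ box r (4 * p), ((nu μ w m k₁ p b - μ p b : ℝ) : ℂ) * F (p, red q b)‖ ≤
      C'' * (q : ℝ) ^ r * l2 F * e2 (k * (1 / 2 + ε))) →
  ∀ ε : ℝ, 0 < ε → ∃ C'' : ℝ, ∀ (c : ℕ → ℂ), (∀ p, ‖c p‖ ≤ 1) → ∀ (q : ℕ) [NeZero q]
    (F : ZMod q × (Fin r → ZMod q) → ℂ) (x : ℕ),
    ‖∑ p ∈ primesUpTo x, c p * ∑ b ∈ box r (4 * p),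
      ((nu μ w m k₁ p b - μ p b : ℝ) : ℂ) * F (p, red q b)‖ ≤
      C'' * (q : ℝ) ^ r * l2 F * ((x : ℝ) + 1) ^ (1 / 2 + ε)

/-- MODIFICATION. A system with the bounds and with approximately the right numbers can be changed to one
with exactly the right numbers.

Proof. `k₁ ≥ k₀` large. In the block `k ≥ k₁` apply `S_ASG` with `A = blk k`, `T = T r k`,
`u = (k+1, …, k+1)` (`∉ T r k` as `r ≥ 1`), `f k`, `n = ⌊C₁ 2^(3k/4)⌋` or rather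
`n = ` the sum of the `|N t - f t|` itself; it is at most `C_ε 2^(k(1/2+ε))`, so
`∑ f + 2 n ≤ #(blk k)` for large `k` (`LT.S_CHE`, `∑ f ≤ 2^(k(1 - r th - δ))`). In the other blocks nothing
is changed. The new system is a system as `(k+1)^2 ≤ 2^k`. The bounds: the difference of the two sums is at most
`∑_{p ≤ x, changed} 2 l2 F`, and the number of the changed primes `≤ x` is at most `∑_{k : 2^k ≤ x} n_k ≤
C (x + 1)^(1/2 + ε)`. -/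
def S_MODIF : Prop := ∀ (r : ℕ) (μ : ℕ → (Fin r → ℤ) → ℝ) (c : ℕ → ℕ → ℂ) (δ : ℝ)
  (f : ℕ → (Fin r → ℤ) → ℕ) (a : ℕ → Fin r → ℤ) (k₀ : ℕ), 1 ≤ r → 0 < δ →
  (∀ i p, ‖c i p‖ ≤ 1) →
  (∀ k, ((∑ t ∈ T r k, f k t : ℕ) : ℝ) ≤ e2 (k * (1 - r * th r - δ))) →
  IsSystem r a → HasBound r μ c a →
  (∀ ε : ℝ, 0 < ε → ∃ C : ℝ, ∀ k, k₀ ≤ k →
    ∑ t ∈ T r k, |(((blk k).filter fun p => a p = t).card : ℝ) - f k t| ≤
      C * e2 (k * (1 / 2 + ε))) →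
  ∃ a' : ℕ → Fin r → ℤ, IsSystem r a' ∧ HasBound r μ c a' ∧
    ∃ k₁ : ℕ, ∀ k, k₁ ≤ k → ∀ t ∈ T r k, ((blk k).filter fun p => a' p = t).card = f k t

/-- The uniform laws are reference laws. (`#(box r n) = (2 √n + 1)^r` with the natural square root;
`p ≤ (2 ⌊√(4p)⌋ + 1)^2 ≤ 25 p`.) -/
def S_UNI : Prop := ∀ r : ℕ, IsRef r fun p b =>
  if b ∈ box r (4 * p) then 1 / ((box r (4 * p)).card : ℝ) else 0

end Pool.Agent.H414.DF
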