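import Pool.Agent.H414.DF.Spec

/-! The divisor bound. -/

set_option autoImplicit false

namespace Pool.Agent.H414.DF

open Finset

namespace Tau

theorem local_le {ε : ℝ} (hε : 0 < ε) {p : ℕ} (hp : 2 ≤ p) (a : ℕ) :
    (a : ℝ) + 1 ≤ (if p < ⌈(2 : ℝ) ^ (1 / ε)⌉₊ then 1 + 1 / (ε * Real.log 2) else 1) *
      (((p : ℝ) ^ a) ^ ε) := by
  have hp0 : (0 : ℝ) ≤ p := Nat.cast_nonneg p
  have hp2 : (2 : ℝ) ≤ p := by exact_mod_cast hp
  have hl : 0 < Real.log 2 := Real.log_pos (by norm_num)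
  split_ifs with h
  · have hc : 0 < ε * Real.log 2 := mul_pos hε hl
    have h1 : (1 : ℝ) + a * (ε * Real.log 2) ≤ ((p : ℝ) ^ a) ^ ε := by
      have h2 : ((2 : ℝ) ^ a) ^ ε ≤ ((p : ℝ) ^ a) ^ ε :=
        Real.rpow_le_rpow (by positivity) (pow_le_pow_left₀ (by norm_num) hp2 a) hε.le
      refine le_trans ?_ h2
      have h3 : ((2 : ℝ) ^ a) ^ ε = Real.exp (a * (ε * Real.log 2)) := by
        rw [Real.rpow_def_of_pos (by positivity), Real.log_pow]
        ring_nf
      rw [h3]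
      have := Real.add_one_le_exp ((a : ℝ) * (ε * Real.log 2))
      linarith
    have h4 : (a : ℝ) + 1 ≤ (1 + 1 / (ε * Real.log 2)) * (1 + a * (ε * Real.log 2)) := by
      have h5 : (1 + 1 / (ε * Real.log 2)) * (1 + a * (ε * Real.log 2)) =
          1 + a * (ε * Real.log 2) + 1 / (ε * Real.log 2) + a := by
        field_simp
        ring
      rw [h5]
      have : 0 ≤ (a : ℝ) * (ε * Real.log 2) := by positivity
      have : 0 ≤ 1 / (ε * Real.log 2) := by positivity
      linarith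
    exact h4.trans (mul_le_mul_of_nonneg_left h1 (by positivity))
  · rw [one_mul]
    have h1 : (2 : ℝ) ^ (1 / ε) ≤ p := by
      have := Nat.le_ceil ((2 : ℝ) ^ (1 / ε))
      have h2 : (⌈(2 : ℝ) ^ (1 / ε)⌉₊ : ℝ) ≤ p := by exact_mod_cast not_lt.1 h
      exact this.trans h2
    have h2 : (2 : ℝ) ≤ (p : ℝ) ^ ε := by
      calc (2 : ℝ) = ((2 : ℝ) ^ (1 / ε)) ^ ε := by
            rw [← Real.rpow_mul (by norm_num), one_div, inv_mul_cancel₀ hε.ne', Real.rpow_one]
        _ ≤ (p : ℝ) ^ ε := Real.rpow_le_rpow (by positivity) h1 hε.le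
    have h3 : ((p : ℝ) ^ a) ^ ε = ((p : ℝ) ^ ε) ^ a := by
      rw [← Real.rpow_natCast, ← Real.rpow_natCast, ← Real.rpow_mul hp0, ← Real.rpow_mul hp0,
        mul_comm]
    rw [h3]
    have h4 : ((a : ℝ) + 1) ≤ 2 ^ a := by
      have : a + 1 ≤ 2 ^ a := Nat.lt_two_pow_self
      exact_mod_cast this
    exact h4.trans (pow_le_pow_left₀ (by norm_num) h2 a)

end Tau

theorem tau : S_TAU := by
  intro ε hε
  have hl : 0 < Real.log 2 := Real.log_pos (by norm_num)
  set K : ℝ := 1 + 1 / (ε * Real.log 2) with hK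
  have hK1 : 1 ≤ K := by
    have : 0 < 1 / (ε * Real.log 2) := by positivity
    linarith
  refine ⟨K ^ ⌈(2 : ℝ) ^ (1 / ε)⌉₊, fun n hn => ?_⟩
  have hn0 : n ≠ 0 := by omega
  have h1 : (n.divisors.card : ℝ) = ∏ p ∈ n.primeFactors, ((n.factorization p : ℝ) + 1) := by
    rw [Nat.card_divisors hn0]
    push_cast
    rfl
  have h2 : (n : ℝ) ^ ε = ∏ p ∈ n.primeFactors, (((p : ℝ) ^ n.factorization p) ^ ε) := by
    rw [Real.finsetProd_rpow _ _ fun p _ => by positivity]
    congr 1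
    have := Nat.prod_factorization_pow_eq_self hn0
    conv_lhs => rw [← this]
    rw [Finsupp.prod, Nat.support_factorization]
    push_cast
    rfl
  rw [h1, h2]
  calc ∏ p ∈ n.primeFactors, ((n.factorization p : ℝ) + 1)
      ≤ ∏ p ∈ n.primeFactors, ((if p < ⌈(2 : ℝ) ^ (1 / ε)⌉₊ then K else 1) *
          (((p : ℝ) ^ n.factorization p) ^ ε)) := by
        refine prod_le_prod (fun p _ => by positivity) fun p hp => ?_
        exact Tau.local_le hε (Nat.prime_of_mem_primeFactors hp).two_le _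
    _ = (∏ p ∈ n.primeFactors, (if p < ⌈(2 : ℝ) ^ (1 / ε)⌉₊ then K else 1)) *
          ∏ p ∈ n.primeFactors, (((p : ℝ) ^ n.factorization p) ^ ε) := prod_mul_distrib
    _ ≤ K ^ ⌈(2 : ℝ) ^ (1 / ε)⌉₊ * ∏ p ∈ n.primeFactors, (((p : ℝ) ^ n.factorization p) ^ ε) := by
        refine mul_le_mul_of_nonneg_right ?_ (prod_nonneg fun p _ => by positivity)
        rw [← prod_filter, prod_const]
        refine pow_le_pow_right₀ hK1 ?_
        calc _ ≤ (range ⌈(2 : ℝ) ^ (1 / ε)⌉₊).card := card_le_card fun p hp => by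
                rw [mem_filter] at hp
                exact mem_range.2 hp.2
          _ = _ := card_range _

end Pool.Agent.H414.DF

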