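import Pool.Agent.H414.DF.Spec

set_option autoImplicit false

namespace Pool.Agent.H414.DF

open Finset
open Pool.Agent.H414.LT (primesUpTo blk kk)

namespace Tot

theorem box_mono (r : ℕ) {n n' : ℕ} (h : n ≤ n') : box r n ⊆ box r n' := by
  unfold box
  apply Fintype.piFinset_subset
  intro _
  have h1 : (Nat.sqrt n : ℤ) ≤ Nat.sqrt n' := by exact_mod_cast Nat.sqrt_le_sqrt h
  exact Finset.Icc_subset_Icc (by omega) h1

theorem sum_kap {r : ℕ} {w : ℕ → (Fin r → ℤ) → ℝ} {C : ℝ} (hw : IsW r w C) (k n : ℕ)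
    (t : Fin r → ℤ) (ht : t ∈ box r (2 ^ k)) (hn : 2 ^ k ≤ n) :
    ∑ b ∈ box r n, kap w k t b = 0 := by
  have hsub := box_mono r hn
  unfold kap
  rw [sum_sub_distrib, sum_ite_eq', if_pos (hsub ht)]
  have h1 : ∑ x ∈ box r n, w k x * (Kr r (Q r k) (x - t) - Lt w k t) =
      ∑ x ∈ box r (2 ^ k), w k x * (Kr r (Q r k) (x - t) - Lt w k t) := by
    symm
    apply sum_subset hsub
    intro x _ hx
    rw [hw.supp k x hx, zero_mul]
  rw [h1]
  simp only [mul_sub]
  rw [sum_sub_distrib, ← sum_mul, hw.sum k, one_mul]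
  unfold Lt
  ring

end Tot

theorem tot : S_TOT := by
  intro r μ w C m k₁ hμ hw hT p hp
  unfold nu
  rw [sum_add_distrib, hμ.sum p hp]
  by_cases hk : k₁ ≤ kk p
  · simp only [if_pos hk]
    rw [sum_comm]
    have h2 : ∑ t ∈ T r (kk p), ∑ b ∈ box r (4 * p), m (kk p) t * kap w (kk p) t b = 0 := by
      apply sum_eq_zero
      intro t ht
      rw [← mul_sum, Tot.sum_kap hw (kk p) (4 * p) t (hT (kk p) hk ht) (by
        have := (Pool.Agent.H414.LT.two_le_kk hp.two_le).1
        omega), mul_zero]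
    rw [h2, add_zero]
  · simp only [if_neg hk, sum_const_zero, add_zero]

end Pool.Agent.H414.DF
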