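import Pool.Agent.H414.DF.Spec

/-!
The uniform laws are reference laws.
-/

set_option autoImplicit false

namespace Pool.Agent.H414.DF

open Finset
open Pool.Agent.H414.LT (primesUpTo blk kk)

namespace Uni

theorem card_box (r n : ℕ) : (box r n).card = (2 * Nat.sqrt n + 1) ^ r := by
  unfold box
  rw [Fintype.card_piFinset, Finset.prod_const, Finset.card_univ, Fintype.card_fin, Int.card_Icc]
  congr 1
  omega

theorem box_mono {r m n : ℕ} (h : m ≤ n) : box r m ⊆ box r n := by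
  unfold box
  refine Fintype.piFinset_subset _ _ fun _ => Icc_subset_Icc ?_ ?_
  · exact neg_le_neg (by exact_mod_cast Nat.sqrt_le_sqrt h)
  · exact_mod_cast Nat.sqrt_le_sqrt h

theorem pow_half {r : ℕ} {x : ℝ} (hx : 0 ≤ x) : x ^ ((r : ℝ) / 2) = (√x) ^ r := by
  rw [Real.sqrt_eq_rpow, ← Real.rpow_natCast, ← Real.rpow_mul hx]
  congr 1
  ring

theorem card_ge {r p : ℕ} : (p : ℝ) ^ ((r : ℝ) / 2) ≤ ((box r (4 * p)).card : ℝ) := by
  rw [card_box, pow_half (Nat.cast_nonneg p)]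
  push_cast
  refine pow_le_pow_left₀ (Real.sqrt_nonneg _) ?_ r
  rw [Real.sqrt_le_left (by positivity)]
  have h1 : 4 * p < (Nat.sqrt (4 * p) + 1) * (Nat.sqrt (4 * p) + 1) := Nat.lt_succ_sqrt _
  have h2 : (4 : ℝ) * p < ((Nat.sqrt (4 * p) : ℝ) + 1) * ((Nat.sqrt (4 * p) : ℝ) + 1) := by
    exact_mod_cast h1
  have h3 : (0 : ℝ) ≤ (Nat.sqrt (4 * p) : ℝ) := Nat.cast_nonneg _
  have h4 : (0 : ℝ) ≤ (p : ℝ) := Nat.cast_nonneg _
  nlinarith

theorem card_le {r p : ℕ} (hp : 1 ≤ p) :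
    ((box r (4 * p)).card : ℝ) ≤ 5 ^ r * (p : ℝ) ^ ((r : ℝ) / 2) := by
  rw [card_box, pow_half (Nat.cast_nonneg p), ← mul_pow]
  push_cast
  refine pow_le_pow_left₀ (by positivity) ?_ r
  have h1 : Nat.sqrt (4 * p) * Nat.sqrt (4 * p) ≤ 4 * p := Nat.sqrt_le _
  have h2 : (Nat.sqrt (4 * p) : ℝ) * (Nat.sqrt (4 * p) : ℝ) ≤ 4 * p := by exact_mod_cast h1
  have h3 : (0 : ℝ) ≤ (Nat.sqrt (4 * p) : ℝ) := Nat.cast_nonneg _
  have h4 : (1 : ℝ) ≤ √(p : ℝ) := by
    rw [Real.one_le_sqrt]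
    exact_mod_cast hp
  have h5 : √(p : ℝ) * √(p : ℝ) = p := Real.mul_self_sqrt (Nat.cast_nonneg p)
  have h6 : (Nat.sqrt (4 * p) : ℝ) ≤ 2 * √(p : ℝ) := by
    refine abs_le_of_sq_le_sq' ?_ (by positivity) |>.2
    nlinarith
  linarith

end Uni

theorem uni : S_UNI := by
  intro r
  have hcard : ∀ p : ℕ, (0 : ℝ) < ((box r (4 * p)).card : ℝ) := by
    intro p
    rw [Uni.card_box]
    positivity
  refine ⟨?_, ?_, ?_, ?_⟩
  · intro p _ b
    split_ifs
    · exact div_nonneg zero_le_one (hcard p).le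
    · exact le_rfl
  · intro p _
    rw [Finset.sum_congr rfl (fun b hb => if_pos hb), Finset.sum_const, nsmul_eq_mul,
      mul_one_div, div_self (hcard p).ne']
  · intro ε hε
    refine ⟨1, fun p hp b => ?_⟩
    have hp1 : (1 : ℝ) ≤ p := by exact_mod_cast hp.one_le
    have hp0 : (0 : ℝ) < p := by linarith
    have h1 : (0 : ℝ) < (p : ℝ) ^ (ε - (r : ℝ) / 2) := Real.rpow_pos_of_pos hp0 _
    split_ifs
    · rw [one_mul]
      calc 1 / ((box r (4 * p)).card : ℝ) ≤ 1 / (p : ℝ) ^ ((r : ℝ) / 2) :=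
            one_div_le_one_div_of_le (Real.rpow_pos_of_pos hp0 _) Uni.card_ge
        _ = (p : ℝ) ^ (-((r : ℝ) / 2)) := by rw [Real.rpow_neg hp0.le, one_div]
        _ ≤ _ := Real.rpow_le_rpow_of_exponent_le hp1 (by linarith)
    · rw [one_mul]
      exact h1.le
  · intro ε hε
    refine ⟨1 / 5 ^ r, by positivity, fun p hp b hb => ?_⟩
    have hp1 : (1 : ℝ) ≤ p := by exact_mod_cast hp.one_le
    have hp0 : (0 : ℝ) < p := by linarith
    rw [if_pos (Uni.box_mono (by omega) hb)]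
    calc 1 / 5 ^ r * (p : ℝ) ^ (-ε - (r : ℝ) / 2) ≤ 1 / 5 ^ r * (p : ℝ) ^ (-((r : ℝ) / 2)) := by
          refine mul_le_mul_of_nonneg_left ?_ (by positivity)
          exact Real.rpow_le_rpow_of_exponent_le hp1 (by linarith)
      _ = 1 / (5 ^ r * (p : ℝ) ^ ((r : ℝ) / 2)) := by
          rw [Real.rpow_neg hp0.le]
          field_simp
      _ ≤ _ := one_div_le_one_div_of_le (hcard p) (Uni.card_le hp.one_le)

end Pool.Agent.H414.DF
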