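import Pool.Agent.H414.DF.Spec

/-!
The upper bound from the division fields (`S_UP`).
-/

set_option autoImplicit false

namespace Pool.Agent.H414.DF

open Finset
open Pool.Agent.H414.LT (primesUpTo blk kk)

namespace Upp

lemma e2_add (x y : ℝ) : e2 (x + y) = e2 x * e2 y := Real.rpow_add (by norm_num) x y

lemma e2_pos (x : ℝ) : 0 < e2 x := Real.rpow_pos_of_pos (by norm_num) x

lemma e2_mono {x y : ℝ} (h : x ≤ y) : e2 x ≤ e2 y :=
  Real.rpow_le_rpow_of_exponent_le (by norm_num) h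

lemma e2_nat (k : ℕ) : e2 k = 2 ^ k := Real.rpow_natCast 2 k

lemma e2_pow (x : ℝ) (n : ℕ) : e2 x ^ n = e2 (x * n) := by
  unfold e2
  rw [Real.rpow_mul (by norm_num), Real.rpow_natCast]

lemma e2_rpow (x y : ℝ) : e2 x ^ y = e2 (x * y) := by
  unfold e2
  rw [Real.rpow_mul (by norm_num)]

lemma one_le_e2 {x : ℝ} (h : 0 ≤ x) : 1 ≤ e2 x := by
  have := e2_mono h
  have h0 : e2 0 = 1 := Real.rpow_zero 2
  linarith

lemma cls_card (q N : ℕ) (hq : 0 < q) (t : ℤ) :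
    (((Icc (-(N : ℤ)) N).filter fun b : ℤ => (b : ZMod q) = (t : ZMod q)).card : ℝ) ≤
      (2 * N + 1) / q + 1 := by
  have h1 : (Icc (-(N : ℤ)) N).filter (fun b : ℤ => (b : ZMod q) = (t : ZMod q)) =
      (Ico (-(N : ℤ)) (N + 1)).filter (fun b => b ≡ t [ZMOD q]) := by
    ext b
    rw [mem_filter, mem_filter, mem_Icc, mem_Ico, ZMod.intCast_eq_intCast_iff,
      Int.lt_add_one_iff]
  rw [h1]
  have h2 := Int.Ico_filter_modEq_card (-(N : ℤ)) (N + 1) (r := q) (by exact_mod_cast hq) t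
  have hq' : (0 : ℚ) < (q : ℚ) := by exact_mod_cast hq
  have h3 : ((((Ico (-(N : ℤ)) (N + 1)).filter (fun b => b ≡ t [ZMOD q])).card : ℤ) : ℚ) ≤
      (2 * N + 1) / q + 1 := by
    rw [h2]
    have a3 : (0 : ℚ) ≤ (2 * N + 1) / q + 1 := by positivity
    have a1 := Int.ceil_lt_add_one ((((N + 1 : ℤ) : ℚ) - (t : ℚ)) / ((q : ℤ) : ℚ))
    have a2 := Int.le_ceil ((((-(N : ℤ) : ℤ) : ℚ) - (t : ℚ)) / ((q : ℤ) : ℚ))
    have a4 : (((N + 1 : ℤ) : ℚ) - (t : ℚ)) / ((q : ℤ) : ℚ) -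
        (((-(N : ℤ) : ℤ) : ℚ) - (t : ℚ)) / ((q : ℤ) : ℚ) = (2 * N + 1) / q := by
      push_cast
      rw [← sub_div]
      congr 1
      ring
    rw [Int.cast_max, max_le_iff]
    constructor
    · rw [Int.cast_sub]
      linarith
    · rw [Int.cast_zero]
      exact a3
  have h4 : ((((Ico (-(N : ℤ)) (N + 1)).filter (fun b => b ≡ t [ZMOD q])).card : ℕ) : ℚ) ≤
      (2 * N + 1) / q + 1 := by
    rw [Int.cast_natCast] at h3
    exact h3
  have h5 := (Rat.cast_le (K := ℝ)).mpr h4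
  rw [Rat.cast_natCast, Rat.cast_add, Rat.cast_div, Rat.cast_add, Rat.cast_mul, Rat.cast_natCast,
    Rat.cast_natCast, Rat.cast_one, Rat.cast_ofNat] at h5
  exact h5

lemma box_card (r n q : ℕ) (hq : 0 < q) (t : Fin r → ℤ) :
    (((box r n).filter fun b => red q b = red q t).card : ℝ) ≤
      ((2 * (Nat.sqrt n : ℝ) + 1) / q + 1) ^ r := by
  have h1 : ((box r n).filter fun b => red q b = red q t) ⊆
      Fintype.piFinset fun i => (Icc (-(Nat.sqrt n : ℤ)) (Nat.sqrt n)).filter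
        fun b : ℤ => (b : ZMod q) = (t i : ZMod q) := by
    intro b hb
    rw [mem_filter, box, Fintype.mem_piFinset] at hb
    rw [Fintype.mem_piFinset]
    intro i
    rw [mem_filter]
    exact ⟨hb.1 i, congrFun hb.2 i⟩
  have h2 := card_le_card h1
  rw [Fintype.card_piFinset] at h2
  calc (((box r n).filter fun b => red q b = red q t).card : ℝ)
      ≤ ((∏ i, ((Icc (-(Nat.sqrt n : ℤ)) (Nat.sqrt n)).filter
          fun b : ℤ => (b : ZMod q) = (t i : ZMod q)).card : ℕ) : ℝ) := by exact_mod_cast h2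
    _ = ∏ i, (((Icc (-(Nat.sqrt n : ℤ)) (Nat.sqrt n)).filter
          fun b : ℤ => (b : ZMod q) = (t i : ZMod q)).card : ℝ) := by rw [Nat.cast_prod]
    _ ≤ ∏ _i : Fin r, ((2 * (Nat.sqrt n : ℝ) + 1) / q + 1) :=
        prod_le_prod (fun _ _ => Nat.cast_nonneg _) (fun i _ => cls_card q _ hq (t i))
    _ = _ := by rw [prod_const, card_univ, Fintype.card_fin]

lemma mass (r : ℕ) (μ : ℕ → (Fin r → ℤ) → ℝ) (hμ : IsRef r μ) (ε C : ℝ) (hε : 0 < ε)
    (hC : 0 ≤ C) (hup : ∀ p : ℕ, p.Prime → ∀ b, μ p b ≤ C * (p : ℝ) ^ (ε - r / 2))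
    (q : ℕ) (hq : 0 < q) (t : Fin r → ℤ) (p x : ℕ) (hp : p.Prime) (hpx : p ≤ x) :
    ∑ b ∈ box r (4 * p), μ p b * (if red q b = red q t then 1 else 0) ≤
      (if p ≤ q ^ 2 then 1 else 0) + C * 6 ^ r * (x : ℝ) ^ ε / (q : ℝ) ^ r := by
  have hq' : (0 : ℝ) < q := by exact_mod_cast hq
  have hD : 0 ≤ C * 6 ^ r * (x : ℝ) ^ ε / (q : ℝ) ^ r := by positivity
  by_cases h : p ≤ q ^ 2
  · rw [if_pos h]
    have h1 : ∑ b ∈ box r (4 * p), μ p b * (if red q b = red q t then 1 else 0) ≤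
        ∑ b ∈ box r (4 * p), μ p b := by
      refine sum_le_sum fun b _ => ?_
      have := hμ.nonneg p hp b
      split_ifs
      · rw [mul_one]
      · rw [mul_zero]
        exact this
    rw [hμ.sum p hp] at h1
    linarith
  · rw [if_neg h, zero_add]
    push Not at h
    have hp1 : (1 : ℝ) ≤ p := by exact_mod_cast hp.one_lt.le
    have hp0 : (0 : ℝ) < p := by linarith
    have hs1 : 1 ≤ √(p : ℝ) := by
      rw [Real.one_le_sqrt]
      exact hp1
    have hs2 : (q : ℝ) ≤ √(p : ℝ) := by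
      apply Real.le_sqrt_of_sq_le
      exact_mod_cast h.le
    have hs3 : ((Nat.sqrt (4 * p) : ℕ) : ℝ) ≤ 2 * √(p : ℝ) := by
      have e1 := Real.nat_sqrt_le_real_sqrt (a := 4 * p)
      have e2 : √((4 * p : ℕ) : ℝ) = 2 * √(p : ℝ) := by
        push_cast
        rw [Real.sqrt_mul (by norm_num)]
        have : √(4 : ℝ) = 2 := by
          rw [show (4 : ℝ) = 2 ^ 2 by norm_num]
          exact Real.sqrt_sq (by norm_num)
        rw [this]
      linarith
    have h1 : ∑ b ∈ box r (4 * p), μ p b * (if red q b = red q t then 1 else 0) =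
        ∑ b ∈ (box r (4 * p)).filter (fun b => red q b = red q t), μ p b := by
      rw [sum_filter]
      refine sum_congr rfl fun b _ => ?_
      split_ifs
      · rw [mul_one]
      · rw [mul_zero]
    rw [h1]
    have h2 : ∑ b ∈ (box r (4 * p)).filter (fun b => red q b = red q t), μ p b ≤
        (((box r (4 * p)).filter (fun b => red q b = red q t)).card : ℝ) *
          (C * (p : ℝ) ^ (ε - r / 2)) := by
      have := sum_le_card_nsmul ((box r (4 * p)).filter (fun b => red q b = red q t)) (μ p)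
        (C * (p : ℝ) ^ (ε - r / 2)) (fun b _ => hup p hp b)
      rw [nsmul_eq_mul] at this
      exact this
    have h3 := box_card r (4 * p) q hq t
    have h4 : ((2 * (Nat.sqrt (4 * p) : ℝ) + 1) / q + 1) ≤ 6 * √(p : ℝ) / q := by
      rw [div_add_one hq'.ne']
      apply div_le_div_of_nonneg_right _ hq'.le
      linarith
    have h5 : ((2 * (Nat.sqrt (4 * p) : ℝ) + 1) / q + 1) ^ r ≤ (6 * √(p : ℝ) / q) ^ r :=
      pow_le_pow_left₀ (by positivity) h4 r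
    have h6 : (p : ℝ) ^ (ε - r / 2) * √(p : ℝ) ^ r = (p : ℝ) ^ ε := by
      rw [Real.sqrt_eq_rpow, ← Real.rpow_natCast, ← Real.rpow_mul hp0.le, ← Real.rpow_add hp0]
      congr 1
      ring
    have hpos : 0 ≤ C * (p : ℝ) ^ (ε - r / 2) := by positivity
    calc ∑ b ∈ (box r (4 * p)).filter (fun b => red q b = red q t), μ p b
        ≤ (((box r (4 * p)).filter (fun b => red q b = red q t)).card : ℝ) *
          (C * (p : ℝ) ^ (ε - r / 2)) := h2
      _ ≤ (6 * √(p : ℝ) / q) ^ r * (C * (p : ℝ) ^ (ε - r / 2)) :=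
          mul_le_mul_of_nonneg_right (h3.trans h5) hpos
      _ = C * 6 ^ r * ((p : ℝ) ^ (ε - r / 2) * √(p : ℝ) ^ r) / (q : ℝ) ^ r := by
          rw [div_pow, mul_pow]
          ring
      _ = C * 6 ^ r * (p : ℝ) ^ ε / (q : ℝ) ^ r := by rw [h6]
      _ ≤ C * 6 ^ r * (x : ℝ) ^ ε / (q : ℝ) ^ r := by
          apply div_le_div_of_nonneg_right _ (by positivity)
          apply mul_le_mul_of_nonneg_left _ (by positivity)
          exact Real.rpow_le_rpow hp0.le (by exact_mod_cast hpx) hε.le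

lemma l2F (r q : ℕ) [NeZero q] (t : Fin r → ℤ) :
    l2 (fun y : ZMod q × (Fin r → ZMod q) => if y.2 = red q t then (1 : ℂ) else 0) = √(q : ℝ) := by
  unfold l2
  congr 1
  rw [Fintype.sum_prod_type]
  have h1 : ∀ u : ZMod q, ∑ y : Fin r → ZMod q,
      ‖(if ((u, y) : ZMod q × (Fin r → ZMod q)).2 = red q t then (1 : ℂ) else 0)‖ ^ 2 = 1 := by
    intro u
    rw [sum_eq_single (red q t)]
    · rw [if_pos rfl, norm_one, one_pow]
    · intro y _ hy
      rw [if_neg hy, norm_zero]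
      norm_num
    · intro h
      exact absurd (mem_univ _) h
  rw [sum_congr rfl fun u _ => h1 u, sum_const, card_univ, ZMod.card, nsmul_eq_mul, mul_one]

lemma sum_mass (r : ℕ) (μ : ℕ → (Fin r → ℤ) → ℝ) (hμ : IsRef r μ) (ε C : ℝ) (hε : 0 < ε)
    (hC : 0 ≤ C) (hup : ∀ p : ℕ, p.Prime → ∀ b, μ p b ≤ C * (p : ℝ) ^ (ε - r / 2))
    (q : ℕ) (hq : 0 < q) (t : Fin r → ℤ) (x : ℕ) :
    ∑ p ∈ primesUpTo x, ∑ b ∈ box r (4 * p), μ p b * (if red q b = red q t then 1 else 0) ≤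
      (q : ℝ) ^ 2 + ((x : ℝ) + 1) * (C * 6 ^ r * (x : ℝ) ^ ε / (q : ℝ) ^ r) := by
  have hq' : (0 : ℝ) < q := by exact_mod_cast hq
  have hD : 0 ≤ C * 6 ^ r * (x : ℝ) ^ ε / (q : ℝ) ^ r := by positivity
  have h1 : ∑ p ∈ primesUpTo x, ∑ b ∈ box r (4 * p),
      μ p b * (if red q b = red q t then 1 else 0) ≤
      ∑ p ∈ primesUpTo x, ((if p ≤ q ^ 2 then (1 : ℝ) else 0) +
        C * 6 ^ r * (x : ℝ) ^ ε / (q : ℝ) ^ r) := by
    refine sum_le_sum fun p hp => ?_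
    unfold primesUpTo at hp
    rw [mem_filter, mem_range] at hp
    exact mass r μ hμ ε C hε hC hup q hq t p x hp.2 (by omega)
  refine h1.trans ?_
  rw [sum_add_distrib, sum_const, nsmul_eq_mul]
  have h2 : ∑ p ∈ primesUpTo x, (if p ≤ q ^ 2 then (1 : ℝ) else 0) ≤ (q : ℝ) ^ 2 := by
    rw [← sum_filter, sum_const, nsmul_eq_mul, mul_one]
    have : ((primesUpTo x).filter fun p => p ≤ q ^ 2) ⊆ Icc 1 (q ^ 2) := by
      intro p hp
      rw [mem_filter] at hp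
      unfold primesUpTo at hp
      rw [mem_filter] at hp
      rw [mem_Icc]
      exact ⟨hp.1.2.one_lt.le, hp.2⟩
    have h3 := card_le_card this
    rw [Nat.card_Icc] at h3
    have h4 : ((primesUpTo x).filter fun p => p ≤ q ^ 2).card ≤ q ^ 2 := by omega
    exact_mod_cast h4
  have h5 : (((primesUpTo x).card : ℕ) : ℝ) ≤ (x : ℝ) + 1 := by
    have : (primesUpTo x).card ≤ x + 1 := by
      unfold primesUpTo
      refine (card_filter_le _ _).trans ?_
      rw [card_range]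
    exact_mod_cast this
  have h6 := mul_le_mul_of_nonneg_right h5 hD
  linarith

lemma num_le (r q k : ℕ) (a : ℕ → Fin r → ℤ) (t : Fin r → ℤ) :
    (((blk k).filter fun p => a p = t).card : ℝ) ≤
      ∑ p ∈ primesUpTo (2 ^ (k + 1)), (if red q (a p) = red q t then (1 : ℝ) else 0) := by
  rw [← sum_filter, sum_const, nsmul_eq_mul, mul_one]
  have : ((blk k).filter fun p => a p = t) ⊆
      (primesUpTo (2 ^ (k + 1))).filter fun p => red q (a p) = red q t := by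
    intro p hp
    unfold blk at hp
    rw [mem_filter, mem_filter, Finset.mem_Ioc] at hp
    unfold primesUpTo
    rw [mem_filter, mem_filter, mem_range]
    exact ⟨⟨by omega, hp.1.2⟩, by rw [hp.2]⟩
  exact_mod_cast card_le_card this

lemma real_part (r q : ℕ) (μ : ℕ → (Fin r → ℤ) → ℝ) (a : ℕ → Fin r → ℤ) (t : Fin r → ℤ)
    (x : ℕ) :
    ∑ p ∈ primesUpTo x, (if red q (a p) = red q t then (1 : ℝ) else 0) -
      ∑ p ∈ primesUpTo x, ∑ b ∈ box r (4 * p), μ p b * (if red q b = red q t then 1 else 0) ≤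
    ‖∑ p ∈ primesUpTo x, (1 : ℂ) * ((if red q (a p) = red q t then (1 : ℂ) else 0) -
      ∑ b ∈ box r (4 * p), (μ p b : ℂ) * (if red q b = red q t then (1 : ℂ) else 0))‖ := by
  have h1 : ∑ p ∈ primesUpTo x, (1 : ℂ) * ((if red q (a p) = red q t then (1 : ℂ) else 0) -
      ∑ b ∈ box r (4 * p), (μ p b : ℂ) * (if red q b = red q t then (1 : ℂ) else 0)) =
      ((∑ p ∈ primesUpTo x, (if red q (a p) = red q t then (1 : ℝ) else 0) -
      ∑ p ∈ primesUpTo x, ∑ b ∈ box r (4 * p),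
        μ p b * (if red q b = red q t then 1 else 0) : ℝ) : ℂ) := by
    rw [← sum_sub_distrib, Complex.ofReal_sum]
    refine sum_congr rfl fun p _ => ?_
    rw [one_mul, Complex.ofReal_sub, Complex.ofReal_sum]
    congr 1
    · split_ifs
      · rw [Complex.ofReal_one]
      · rw [Complex.ofReal_zero]
    · refine sum_congr rfl fun b _ => ?_
      rw [Complex.ofReal_mul]
      congr 1
      split_ifs
      · rw [Complex.ofReal_one]
      · rw [Complex.ofReal_zero]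
  rw [h1, Complex.norm_real]
  exact le_abs_self _

end Upp

open Upp in
/-- **UP.** -/
theorem upp : S_UP := by
  intro r μ hr hμ a _ hb ε hε
  obtain ⟨C₁, hC₁⟩ := hb 0 ε hε
  obtain ⟨C₂, hC₂⟩ := hμ.upper ε hε
  refine ⟨|C₁| * (2 ^ r * 2 * 4 ^ (1 / 2 + ε)) + 4 + 4 * (|C₂| * 6 ^ r * 2 ^ ε), fun k t => ?_⟩
  have hr' : (1 : ℝ) ≤ r := by exact_mod_cast hr
  have hθ0 : 0 < th r := by unfold th; positivity
  have hθ1 : th r * (4 * (r : ℝ) + 1) = 1 := by
    unfold th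
    have : 4 * (r : ℝ) + 1 ≠ 0 := by positivity
    field_simp
  have hk0 : (0 : ℝ) ≤ k := Nat.cast_nonneg k
  have hkθ : 0 ≤ (k : ℝ) * th r := mul_nonneg hk0 hθ0.le
  obtain ⟨q, hqdef⟩ : ∃ q : ℕ, q = ⌈e2 (k * th r)⌉₊ := ⟨_, rfl⟩
  have hq0 : 0 < q := by rw [hqdef]; exact Nat.ceil_pos.mpr (e2_pos _)
  have : NeZero q := ⟨hq0.ne'⟩
  have hq' : (0 : ℝ) < q := by exact_mod_cast hq0
  have hq1 : e2 (k * th r) ≤ q := by rw [hqdef]; exact Nat.le_ceil _
  have hq2 : (q : ℝ) ≤ 2 * e2 (k * th r) := by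
    have h1 := Nat.ceil_lt_add_one (e2_pos (k * th r)).le
    rw [← hqdef] at h1
    have h2 := one_le_e2 hkθ
    linarith
  have hup : ∀ p : ℕ, p.Prime → ∀ b, μ p b ≤ |C₂| * (p : ℝ) ^ (ε - r / 2) := by
    intro p hp b
    refine (hC₂ p hp b).trans ?_
    exact mul_le_mul_of_nonneg_right (le_abs_self _) (Real.rpow_nonneg (Nat.cast_nonneg p) _)
  have A1 := num_le r q k a t
  have A2 := real_part r q μ a t (2 ^ (k + 1))
  have A3 := sum_mass r μ hμ ε |C₂| hε (abs_nonneg _) hup q hq0 t (2 ^ (k + 1))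
  have A4 := hC₁ q (fun y : ZMod q × (Fin r → ZMod q) => if y.2 = red q t then (1 : ℂ) else 0)
    (2 ^ (k + 1))
  rw [l2F] at A4
  have hx : ((2 ^ (k + 1) : ℕ) : ℝ) = 2 * e2 k := by
    rw [e2_nat]
    push_cast
    ring
  have hek : 1 ≤ e2 (k : ℝ) := one_le_e2 hk0
  have hx1 : ((2 ^ (k + 1) : ℕ) : ℝ) + 1 ≤ 4 * e2 k := by rw [hx]; linarith
  -- the exponent
  have hE : 0 ≤ (k : ℝ) * ε := mul_nonneg hk0 hε.le
  -- first term
  have B1 : C₁ * (q : ℝ) ^ r * √(q : ℝ) * (((2 ^ (k + 1) : ℕ) : ℝ) + 1) ^ (1 / 2 + ε) ≤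
      |C₁| * (2 ^ r * 2 * 4 ^ (1 / 2 + ε)) * e2 (k * (1 - r * th r + ε)) := by
    have c1 : (q : ℝ) ^ r ≤ 2 ^ r * e2 (k * th r * r) := by
      rw [← e2_pow, ← mul_pow]
      exact pow_le_pow_left₀ hq'.le hq2 r
    have c2 : √(q : ℝ) ≤ 2 * e2 (k * th r * (1 / 2)) := by
      rw [Real.sqrt_le_left (by have := e2_pos (k * th r * (1 / 2)); positivity), mul_pow, e2_pow]
      have : (k : ℝ) * th r * (1 / 2) * ((2 : ℕ) : ℝ) = k * th r := by push_cast; ring
      rw [this]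
      have := e2_pos (k * th r)
      linarith
    have c3 : (((2 ^ (k + 1) : ℕ) : ℝ) + 1) ^ (1 / 2 + ε) ≤
        4 ^ (1 / 2 + ε) * e2 (k * (1 / 2 + ε)) := by
      rw [← e2_rpow, ← Real.mul_rpow (by norm_num) (e2_pos _).le]
      exact Real.rpow_le_rpow (by positivity) hx1 (by positivity)
    have c4 : e2 (k * th r * r) * e2 (k * th r * (1 / 2)) * e2 (k * (1 / 2 + ε)) =
        e2 (k * (1 - r * th r + ε)) := by
      rw [← e2_add, ← e2_add]
      congr 1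
      have : (k : ℝ) * th r * r + k * th r * (1 / 2) + k * (1 / 2 + ε) =
          k * (th r * (4 * r + 1) * (1 / 2) - r * th r + 1 / 2 + ε) := by ring
      rw [this, hθ1]
      ring
    have p1 := e2_pos (k * th r * r)
    have p2 := e2_pos (k * th r * (1 / 2))
    have p3 := e2_pos (k * (1 / 2 + ε))
    have d1 : (q : ℝ) ^ r * √(q : ℝ) * (((2 ^ (k + 1) : ℕ) : ℝ) + 1) ^ (1 / 2 + ε) ≤
        (2 ^ r * e2 (k * th r * r)) * (2 * e2 (k * th r * (1 / 2))) *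
          (4 ^ (1 / 2 + ε) * e2 (k * (1 / 2 + ε))) := by
      refine mul_le_mul (mul_le_mul c1 c2 (Real.sqrt_nonneg _) (by positivity)) c3
        (by positivity) (by positivity)
    have d2 : C₁ * (q : ℝ) ^ r * √(q : ℝ) * (((2 ^ (k + 1) : ℕ) : ℝ) + 1) ^ (1 / 2 + ε) ≤
        |C₁| * ((q : ℝ) ^ r * √(q : ℝ) * (((2 ^ (k + 1) : ℕ) : ℝ) + 1) ^ (1 / 2 + ε)) := by
      have : C₁ * (q : ℝ) ^ r * √(q : ℝ) * (((2 ^ (k + 1) : ℕ) : ℝ) + 1) ^ (1 / 2 + ε) =
          C₁ * ((q : ℝ) ^ r * √(q : ℝ) * (((2 ^ (k + 1) : ℕ) : ℝ) + 1) ^ (1 / 2 + ε)) := by ring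
      rw [this]
      exact mul_le_mul_of_nonneg_right (le_abs_self _) (by positivity)
    refine d2.trans ((mul_le_mul_of_nonneg_left d1 (abs_nonneg _)).trans (le_of_eq ?_))
    rw [← c4]
    ring
  -- second term
  have B2 : (q : ℝ) ^ 2 ≤ 4 * e2 (k * (1 - r * th r + ε)) := by
    have c1 : (q : ℝ) ^ 2 ≤ 4 * e2 (k * th r * 2) := by
      have h1 := pow_le_pow_left₀ hq'.le hq2 2
      rw [mul_pow, e2_pow] at h1
      have h2 : (k : ℝ) * th r * ((2 : ℕ) : ℝ) = k * th r * 2 := by norm_num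
      rw [h2] at h1
      norm_num at h1
      exact h1
    have c2 : (k : ℝ) * th r * 2 ≤ k * (1 - r * th r + ε) := by
      have h1 : th r * 2 ≤ 1 - r * th r + ε := by
        have : 1 - r * th r - th r * 2 = th r * (3 * r - 1) := by
          have : (1 : ℝ) - r * th r - th r * 2 = th r * (4 * r + 1) - r * th r - th r * 2 := by
            rw [hθ1]
          rw [this]
          ring
        have h2 : 0 ≤ th r * (3 * r - 1) := mul_nonneg hθ0.le (by linarith)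
        linarith
      have h3 := mul_le_mul_of_nonneg_left h1 hk0
      linarith
    have c3 := e2_mono c2
    linarith
  -- third term
  have B3 : (((2 ^ (k + 1) : ℕ) : ℝ) + 1) *
      (|C₂| * 6 ^ r * ((2 ^ (k + 1) : ℕ) : ℝ) ^ ε / (q : ℝ) ^ r) ≤
      4 * (|C₂| * 6 ^ r * 2 ^ ε) * e2 (k * (1 - r * th r + ε)) := by
    have c1 : ((2 ^ (k + 1) : ℕ) : ℝ) ^ ε = 2 ^ ε * e2 (k * ε) := by
      rw [hx, Real.mul_rpow (by norm_num) (e2_pos _).le, e2_rpow]
    have c2 : e2 (k * th r * r) ≤ (q : ℝ) ^ r := by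
      rw [← e2_pow]
      exact pow_le_pow_left₀ (e2_pos _).le hq1 r
    rw [c1]
    have p1 := e2_pos (k * th r * r)
    have p2 := e2_pos (k * ε)
    have c3 : |C₂| * 6 ^ r * (2 ^ ε * e2 (k * ε)) / (q : ℝ) ^ r ≤
        |C₂| * 6 ^ r * (2 ^ ε * e2 (k * ε)) / e2 (k * th r * r) :=
      div_le_div_of_nonneg_left (by positivity) p1 c2
    have c4 : e2 k * e2 (k * ε) / e2 (k * th r * r) = e2 (k * (1 - r * th r + ε)) := by
      rw [div_eq_iff p1.ne', ← e2_add, ← e2_add]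
      congr 1
      ring
    calc (((2 ^ (k + 1) : ℕ) : ℝ) + 1) * (|C₂| * 6 ^ r * (2 ^ ε * e2 (k * ε)) / (q : ℝ) ^ r)
        ≤ (4 * e2 k) * (|C₂| * 6 ^ r * (2 ^ ε * e2 (k * ε)) / e2 (k * th r * r)) :=
          mul_le_mul hx1 c3 (by positivity) (by positivity)
      _ = 4 * (|C₂| * 6 ^ r * 2 ^ ε) * (e2 k * e2 (k * ε) / e2 (k * th r * r)) := by ring
      _ = _ := by rw [c4]
  have hfin : (((blk k).filter fun p => a p = t).card : ℝ) ≤
      C₁ * (q : ℝ) ^ r * √(q : ℝ) * (((2 ^ (k + 1) : ℕ) : ℝ) + 1) ^ (1 / 2 + ε) +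
      ((q : ℝ) ^ 2 + (((2 ^ (k + 1) : ℕ) : ℝ) + 1) *
      (|C₂| * 6 ^ r * ((2 ^ (k + 1) : ℕ) : ℝ) ^ ε / (q : ℝ) ^ r)) := by
    linarith
  have : (|C₁| * (2 ^ r * 2 * 4 ^ (1 / 2 + ε)) + 4 + 4 * (|C₂| * 6 ^ r * 2 ^ ε)) *
      e2 (k * (1 - r * th r + ε)) =
      |C₁| * (2 ^ r * 2 * 4 ^ (1 / 2 + ε)) * e2 (k * (1 - r * th r + ε)) +
      4 * e2 (k * (1 - r * th r + ε)) +
      4 * (|C₂| * 6 ^ r * 2 ^ ε) * e2 (k * (1 - r * th r + ε)) := by ring
  rw [this]
  linarith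

end Pool.Agent.H414.DF
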