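import Pool.Agent.H414.DF.Spec

/-!
# Existence of the one-dimensional weights
-/

set_option autoImplicit false

namespace Pool.Agent.H414.DF

open Finset

namespace W1

section field

variable {E : Type} [Field E]

/-- the average over an interval -/
noncomputable def av (h : ℕ) (G : ℤ → E) (y : ℤ) : E :=
  (∑ v ∈ Icc (-(h : ℤ)) h, G (y + v)) / (2 * (h : E) + 1)

theorem iter_sum {ι : Type} (h : ℕ) (s : Finset ι) (c : ι → E) (G : ι → ℤ → E) (n : ℕ) :
    (av h)^[n] (fun z => ∑ i ∈ s, c i * G i z) = fun z => ∑ i ∈ s, c i * (av h)^[n] (G i) z := by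
  induction n with
  | zero => rfl
  | succ n ih =>
    rw [Function.iterate_succ_apply', ih]
    funext z
    simp only [Function.iterate_succ_apply', av]
    rw [Finset.sum_comm, Finset.sum_div]
    refine Finset.sum_congr rfl fun i _ => ?_
    rw [← Finset.mul_sum, mul_div_assoc]

theorem iter_local (h n : ℕ) (G G' : ℤ → E) (y : ℤ) (hG : ∀ z : ℤ, |z - y| ≤ n * h → G z = G' z) :
    (av h)^[n] G y = (av h)^[n] G' y := by
  induction n generalizing y with
  | zero => exact hG y (by simp)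
  | succ n ih =>
    rw [Function.iterate_succ_apply', Function.iterate_succ_apply']
    unfold av
    congr 1
    refine Finset.sum_congr rfl fun v hv => ?_
    rw [mem_Icc] at hv
    refine ih (y + v) fun z hz => hG z ?_
    have h1 : |z - y| ≤ |z - (y + v)| + |v| := by
      have e : z - y = (z - (y + v)) + v := by ring
      rw [e]
      exact abs_add_le _ _
    have h2 : |v| ≤ h := abs_le.2 hv
    push_cast
    linarith

theorem card_I (h : ℕ) : (Icc (-(h : ℤ)) h).card = 2 * h + 1 := by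
  rw [Int.card_Icc]
  omega

end field

theorem pos_L (h : ℕ) : (0 : ℝ) < 2 * (h : ℝ) + 1 := by positivity

theorem av_nonneg (h : ℕ) (G : ℤ → ℝ) (hG : ∀ z, 0 ≤ G z) (y : ℤ) : 0 ≤ av h G y :=
  div_nonneg (Finset.sum_nonneg fun v _ => hG _) (pos_L h).le

theorem iter_nonneg (h : ℕ) (G : ℤ → ℝ) (hG : ∀ z, 0 ≤ G z) (n : ℕ) (y : ℤ) : 0 ≤ (av h)^[n] G y := by
  induction n generalizing y with
  | zero => exact hG y
  | succ n ih =>
    rw [Function.iterate_succ_apply']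
    exact av_nonneg h _ ih y

theorem av_le (h : ℕ) (G : ℤ → ℝ) (B : ℝ) (hG : ∀ z, G z ≤ B) (y : ℤ) : av h G y ≤ B := by
  unfold av
  rw [div_le_iff₀ (pos_L h)]
  refine (Finset.sum_le_card_nsmul _ _ B fun _ _ => hG _).trans (le_of_eq ?_)
  rw [card_I, nsmul_eq_mul]
  push_cast
  ring

theorem iter_le (h : ℕ) (G : ℤ → ℝ) (B : ℝ) (hG : ∀ z, G z ≤ B) (n : ℕ) (y : ℤ) : (av h)^[n] G y ≤ B := by
  induction n generalizing y with
  | zero => exact hG y
  | succ n ih =>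
    rw [Function.iterate_succ_apply']
    exact av_le h _ B ih y

theorem iter_cast (h : ℕ) (G : ℤ → ℝ) (n : ℕ) (y : ℤ) :
    (((av h)^[n] G y : ℝ) : ℂ) = (av h)^[n] (fun z => (G z : ℂ)) y := by
  induction n generalizing y with
  | zero => rfl
  | succ n ih =>
    rw [Function.iterate_succ_apply', Function.iterate_succ_apply']
    unfold av
    push_cast
    congr 1
    exact Finset.sum_congr rfl fun v _ => ih _

theorem pos_LC (h : ℕ) : (2 * (h : ℂ) + 1) ≠ 0 := by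
  have h1 := (pos_L h).ne'
  intro h2
  apply h1
  exact_mod_cast h2

theorem iter_const (h : ℕ) (c : ℂ) (n : ℕ) (y : ℤ) : (av h)^[n] (fun _ => c) y = c := by
  induction n generalizing y with
  | zero => rfl
  | succ n ih =>
    rw [Function.iterate_succ_apply']
    show (∑ v ∈ Icc (-(h : ℤ)) h, ((av h)^[n] fun _ => c) (y + v)) / (2 * (h : ℂ) + 1) = c
    rw [Finset.sum_congr rfl fun v _ => ih _, Finset.sum_const, card_I, nsmul_eq_mul, div_eq_iff (pos_LC h)]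
    push_cast
    ring

theorem iter_constR (h : ℕ) (c : ℝ) (n : ℕ) (y : ℤ) : (av h)^[n] (fun _ => c) y = c := by
  have h1 := iter_cast h (fun _ => c) n y
  rw [iter_const] at h1
  exact_mod_cast h1

/-- the delta functions give all the functions -/
theorem iter_delta {E : Type} [Field E] (h n M : ℕ) (hM : n * h ≤ M) (G : ℤ → E) :
    ∑ a ∈ Icc (-(M : ℤ)) M, (av h)^[n] (fun z => if z = a then (1 : E) else 0) 0 * G a = (av h)^[n] G 0 := by
  have h1 : (av h)^[n] G 0 = (av h)^[n] (fun z => ∑ a ∈ Icc (-(M : ℤ)) M, G a * (if z = a then (1 : E) else 0)) 0 := by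
    refine iter_local h n _ _ 0 fun z hz => ?_
    have hz' : z ∈ Icc (-(M : ℤ)) M := by
      rw [sub_zero, abs_le] at hz
      have : (n * h : ℤ) ≤ M := by exact_mod_cast hM
      rw [mem_Icc]
      constructor <;> linarith [hz.1, hz.2]
    simp only [mul_ite, mul_one, mul_zero]
    rw [Finset.sum_ite_eq, if_pos hz']
  rw [h1, iter_sum]
  exact Finset.sum_congr rfl fun a _ => mul_comm _ _

/-- sums over full periods -/
theorem sum_range_zmod (D : ℕ) [NeZero D] (g : ZMod D → ℂ) : ∑ i ∈ range D, g (i : ZMod D) = ∑ γ, g γ := by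
  refine Finset.sum_nbij' (fun i => (i : ZMod D)) (fun γ => γ.val) (fun _ _ => mem_univ _)
    (fun γ _ => mem_range.2 (ZMod.val_lt γ)) (fun i hi => ZMod.val_cast_of_lt (mem_range.1 hi))
    (fun γ _ => ZMod.natCast_zmod_val γ) (fun _ _ => rfl)

theorem sum_per (D : ℕ) [NeZero D] (g : ZMod D → ℂ) (hg : ∑ γ, g γ = 0) (x : ZMod D) (m : ℕ) :
    ∑ i ∈ range (D * m), g (x + (i : ZMod D)) = 0 := by
  induction m with
  | zero => simp
  | succ m ih =>
    rw [Nat.mul_succ, Finset.sum_range_add, ih, zero_add]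
    have h1 : ∀ i ∈ range D, g (x + ((D * m + i : ℕ) : ZMod D)) = g (x + (i : ZMod D)) := by
      intro i _
      push_cast
      rw [ZMod.natCast_self, zero_mul, zero_add]
    rw [Finset.sum_congr rfl h1, sum_range_zmod D (fun γ => g (x + γ)), ← hg]
    exact Fintype.sum_equiv (Equiv.addLeft x) _ _ fun _ => rfl

theorem sum_bd (D : ℕ) [NeZero D] (g : ZMod D → ℂ) (hg : ∑ γ, g γ = 0) (B : ℝ) (hB : ∀ γ, ‖g γ‖ ≤ B)
    (x : ZMod D) (L : ℕ) : ‖∑ i ∈ range L, g (x + (i : ZMod D))‖ ≤ D * B := by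
  have hB0 : 0 ≤ B := (norm_nonneg _).trans (hB 0)
  have e : L = D * (L / D) + L % D := (Nat.div_add_mod L D).symm
  rw [e, Finset.sum_range_add, sum_per D g hg x, zero_add]
  refine (norm_sum_le _ _).trans ?_
  refine (Finset.sum_le_card_nsmul _ _ B fun i _ => hB _).trans ?_
  rw [card_range, nsmul_eq_mul]
  have h1 : ((L % D : ℕ) : ℝ) ≤ D := by exact_mod_cast (Nat.mod_lt L (NeZero.pos D)).le
  exact mul_le_mul_of_nonneg_right h1 hB0

theorem sum_I {E : Type} [AddCommMonoid E] (h : ℕ) (f : ℤ → E) :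
    ∑ v ∈ Icc (-(h : ℤ)) h, f v = ∑ i ∈ range (2 * h + 1), f (-(h : ℤ) + i) := by
  refine Finset.sum_nbij' (fun v => (v + h).toNat) (fun i => -(h : ℤ) + i) ?_ ?_ ?_ ?_ ?_
  · intro v hv; rw [mem_Icc] at hv; rw [mem_range]; omega
  · intro i hi; rw [mem_range] at hi; rw [mem_Icc]; omega
  · intro v hv; rw [mem_Icc] at hv; omega
  · intro i hi; rw [mem_range] at hi; omega
  · intro v hv
    rw [mem_Icc] at hv
    congr 1
    omega

/-- decay of the averages of a function with mean zero -/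
theorem decay (h D : ℕ) [NeZero D] (n : ℕ) (g : ZMod D → ℂ) (hg : ∑ γ, g γ = 0) (B : ℝ) (hB : ∀ γ, ‖g γ‖ ≤ B) :
    ∃ g' : ZMod D → ℂ, ∑ γ, g' γ = 0 ∧ (∀ γ, ‖g' γ‖ ≤ B * ((D : ℝ) / (2 * h + 1)) ^ n) ∧
      (av h)^[n] (fun z : ℤ => g (z : ZMod D)) = fun z : ℤ => g' (z : ZMod D) := by
  induction n with
  | zero => exact ⟨g, hg, fun γ => by rw [pow_zero, mul_one]; exact hB γ, rfl⟩
  | succ n ih =>
    obtain ⟨g₁, h1, h2, h3⟩ := ih
    refine ⟨fun γ => (∑ v ∈ Icc (-(h : ℤ)) h, g₁ (γ + (v : ZMod D))) / (2 * (h : ℂ) + 1), ?_, ?_, ?_⟩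
    · rw [← Finset.sum_div, Finset.sum_comm]
      have h4 : ∀ v ∈ Icc (-(h : ℤ)) (h : ℤ), ∑ γ, g₁ (γ + (v : ZMod D)) = 0 := by
        intro v _
        rw [← h1]
        exact Fintype.sum_equiv (Equiv.addRight (v : ZMod D)) _ _ fun _ => rfl
      rw [Finset.sum_eq_zero h4, zero_div]
    · intro γ
      rw [norm_div, div_le_iff₀ (norm_pos_iff.2 (pos_LC h))]
      have h4 : ‖(2 * (h : ℂ) + 1)‖ = 2 * h + 1 := by
        have : (2 * (h : ℂ) + 1) = ((2 * h + 1 : ℝ) : ℂ) := by push_cast; ring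
        rw [this, Complex.norm_real, Real.norm_of_nonneg (pos_L h).le]
      rw [h4, sum_I]
      have h5 := sum_bd D g₁ h1 _ h2 (γ + ((-(h : ℤ) : ℤ) : ZMod D)) (2 * h + 1)
      have h6 : ∀ i ∈ range (2 * h + 1), g₁ (γ + ((-(h : ℤ) + (i : ℤ) : ℤ) : ZMod D)) =
          g₁ (γ + ((-(h : ℤ) : ℤ) : ZMod D) + (i : ZMod D)) := by
        intro i _
        congr 1
        push_cast
        ring
      rw [Finset.sum_congr rfl h6]
      refine h5.trans (le_of_eq ?_)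
      rw [pow_succ]
      have := (pos_L h).ne'
      field_simp
    · rw [Function.iterate_succ_apply', h3]
      funext z
      unfold av
      push_cast
      rfl

/-- the half length of the intervals -/
def hh (k : ℕ) : ℕ := Nat.sqrt (2 ^ k) / 60

theorem hh_le (k : ℕ) : 60 * hh k ≤ Nat.sqrt (2 ^ k) := by
  rw [hh, mul_comm]
  exact Nat.div_mul_le_self _ _

theorem e2_pos (x : ℝ) : 0 < e2 x := Real.rpow_pos_of_pos (by norm_num) x

theorem e2_half (k : ℕ) : e2 (k / 2) ≤ 60 * (2 * (hh k : ℝ) + 1) := by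
  have h1 : e2 (k / 2) ^ 2 = ((2 ^ k : ℕ) : ℝ) := by
    rw [e2, ← Real.rpow_natCast, ← Real.rpow_mul (by norm_num)]
    push_cast
    rw [div_mul_cancel₀ _ (by norm_num : (2 : ℝ) ≠ 0), Real.rpow_natCast]
  have h2 : (2 ^ k : ℕ) < (Nat.sqrt (2 ^ k) + 1) ^ 2 := Nat.lt_succ_sqrt' _
  have h3 : ((2 ^ k : ℕ) : ℝ) < ((Nat.sqrt (2 ^ k) : ℝ) + 1) ^ 2 := by exact_mod_cast h2
  have h4 : e2 (k / 2) < (Nat.sqrt (2 ^ k) : ℝ) + 1 := by
    rw [← h1] at h3
    exact lt_of_pow_lt_pow_left₀ 2 (by positivity) h3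
  have h5 : Nat.sqrt (2 ^ k) + 1 ≤ 60 * (hh k + 1) := by
    rw [hh]; omega
  have h6 : (Nat.sqrt (2 ^ k) : ℝ) + 1 ≤ 60 * ((hh k : ℝ) + 1) := by exact_mod_cast h5
  have h7 : (0 : ℝ) ≤ hh k := Nat.cast_nonneg _
  linarith

/-- the weights -/
noncomputable def wn (n h : ℕ) (a : ℤ) : ℝ := (av h)^[n] (fun z => if z = a then (1 : ℝ) else 0) 0

theorem wn_sumR (n h M : ℕ) (hM : n * h ≤ M) (G : ℤ → ℝ) :
    ∑ a ∈ Icc (-(M : ℤ)) M, wn n h a * G a = (av h)^[n] G 0 := iter_delta h n M hM G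

theorem wn_sumC (n h M : ℕ) (hM : n * h ≤ M) (G : ℤ → ℂ) :
    ∑ a ∈ Icc (-(M : ℤ)) M, (wn n h a : ℂ) * G a = (av h)^[n] G 0 := by
  rw [← iter_delta h n M hM G]
  refine Finset.sum_congr rfl fun a _ => ?_
  have e : (fun z : ℤ => (((if z = a then (1 : ℝ) else 0) : ℝ) : ℂ)) = fun z => if z = a then (1 : ℂ) else 0 := by
    funext z
    split_ifs <;> simp
  rw [wn, iter_cast, e]

theorem av_delta_le (h : ℕ) (a y : ℤ) : av h (fun z => if z = a then (1 : ℝ) else 0) y ≤ 1 / (2 * h + 1) := by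
  unfold av
  refine div_le_div_of_nonneg_right ?_ (pos_L h).le
  have h1 : ∀ v ∈ Icc (-(h : ℤ)) (h : ℤ), (if y + v = a then (1 : ℝ) else 0) = if v = a - y then 1 else 0 := by
    intro v _
    have : y + v = a ↔ v = a - y := by omega
    simp only [this]
  rw [Finset.sum_congr rfl h1, Finset.sum_ite_eq']
  split_ifs
  · exact le_rfl
  · exact zero_le_one

theorem count_cls (h q : ℕ) [NeZero q] (c : ZMod q) (y : ℤ) :
    ∑ v ∈ Icc (-(h : ℤ)) h, (if ((y + v : ℤ) : ZMod q) = c then (1 : ℝ) else 0) ≤ (2 * h + 1) / q + 1 := by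
  have hq : (0 : ℤ) < q := by exact_mod_cast NeZero.pos q
  obtain ⟨t, rfl⟩ := ZMod.intCast_surjective c
  rw [← Finset.sum_filter, Finset.sum_const, nsmul_eq_mul, mul_one]
  have h1 : (Icc (-(h : ℤ)) h).filter (fun v => ((y + v : ℤ) : ZMod q) = (t : ZMod q)) =
      (Ioc (-(h : ℤ) - 1) h).filter (fun v => v ≡ t - y [ZMOD q]) := by
    ext v
    rw [mem_filter, mem_filter, mem_Icc, mem_Ioc]
    have e : (((y + v : ℤ) : ZMod q) = (t : ZMod q)) ↔ v ≡ t - y [ZMOD q] := by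
      rw [← ZMod.intCast_eq_intCast_iff]
      push_cast
      constructor
      · intro h; rw [← h]; ring
      · intro h; rw [h]; ring
    rw [e]
    constructor
    · rintro ⟨⟨h1, h2⟩, h3⟩
      exact ⟨⟨by omega, h2⟩, h3⟩
    · rintro ⟨⟨h1, h2⟩, h3⟩
      exact ⟨⟨by omega, h2⟩, h3⟩
  rw [h1]
  have h2 := Int.Ioc_filter_modEq_card (-(h : ℤ) - 1) h hq (t - y)
  have h3 : (((Ioc (-(h : ℤ) - 1) (h : ℤ)).filter (fun v => v ≡ t - y [ZMOD q])).card : ℚ) ≤
      (2 * h + 1) / q + 1 := by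
    have h4 : ((((Ioc (-(h : ℤ) - 1) (h : ℤ)).filter (fun v => v ≡ t - y [ZMOD q])).card : ℤ) : ℚ) ≤
        (2 * h + 1) / q + 1 := by
      rw [h2]
      rw [Int.cast_max]
      refine max_le ?_ ?_
      · push_cast
        have h5 := Int.floor_le ((((h : ℤ) : ℚ) - ((t - y : ℤ) : ℚ)) / ((q : ℤ) : ℚ))
        have h6 := Int.lt_floor_add_one ((((-(h : ℤ) - 1 : ℤ) : ℚ) - ((t - y : ℤ) : ℚ)) / ((q : ℤ) : ℚ))
        have hq' : (0 : ℚ) < q := by exact_mod_cast NeZero.pos q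
        have h7 : (((h : ℤ) : ℚ) - ((t - y : ℤ) : ℚ)) / ((q : ℤ) : ℚ) -
            (((-(h : ℤ) - 1 : ℤ) : ℚ) - ((t - y : ℤ) : ℚ)) / ((q : ℤ) : ℚ) = (2 * h + 1) / q := by
          push_cast
          field_simp
          ring
        push_cast at h5 h6 h7
        linarith
      · push_cast
        positivity
    exact_mod_cast h4
  have h8 := (Rat.cast_le (K := ℝ)).2 h3
  push_cast at h8
  exact h8

theorem wn_nonneg (n h : ℕ) (a : ℤ) : 0 ≤ wn n h a :=
  iter_nonneg h _ (fun z => by split_ifs <;> norm_num) n 0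

theorem wn_supp (n h M : ℕ) (hM : n * h ≤ M) (a : ℤ) (ha : a ∉ Icc (-(M : ℤ)) M) : wn n h a = 0 := by
  have h1 : wn n h a = (av h)^[n] (fun _ => (0 : ℝ)) 0 := by
    refine iter_local h n _ _ 0 fun z hz => ?_
    rw [if_neg]
    rintro rfl
    apply ha
    rw [sub_zero, abs_le] at hz
    have : (n * h : ℤ) ≤ M := by exact_mod_cast hM
    rw [mem_Icc]
    constructor <;> linarith [hz.1, hz.2]
  rw [h1, iter_constR]

theorem wn_le (n h : ℕ) (a : ℤ) : wn (n + 1) h a ≤ 1 / (2 * h + 1) := by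
  rw [wn, Function.iterate_succ_apply]
  exact iter_le h _ _ (av_delta_le h a) n 0

theorem wn_cls (n h M q : ℕ) [NeZero q] (hM : (n + 1) * h ≤ M) (c : ZMod q) :
    ∑ a ∈ (Icc (-(M : ℤ)) M).filter (fun a : ℤ => (a : ZMod q) = c), wn (n + 1) h a ≤ 1 / q + 1 / (2 * h + 1) := by
  have h1 : ∑ a ∈ (Icc (-(M : ℤ)) M).filter (fun a : ℤ => (a : ZMod q) = c), wn (n + 1) h a =
      (av h)^[n + 1] (fun z : ℤ => if (z : ZMod q) = c then (1 : ℝ) else 0) 0 := by
    rw [← wn_sumR (n + 1) h M hM, Finset.sum_filter]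
    refine Finset.sum_congr rfl fun a _ => ?_
    split_ifs <;> simp
  rw [h1, Function.iterate_succ_apply]
  refine iter_le h _ _ (fun y => ?_) n 0
  unfold av
  rw [div_le_iff₀ (pos_L h)]
  refine (count_cls h q c y).trans (le_of_eq ?_)
  have hq : (q : ℝ) ≠ 0 := by exact_mod_cast NeZero.ne q
  have := (pos_L h).ne'
  field_simp

theorem wn_equi (n h M D : ℕ) [NeZero D] (hM : n * h ≤ M) (G : ZMod D → ℂ) (hG : ∀ γ, ‖G γ‖ ≤ 1) :
    ‖∑ a ∈ Icc (-(M : ℤ)) M, (wn n h a : ℂ) * G (a : ZMod D) - (∑ γ, G γ) / (D : ℂ)‖ ≤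
      2 * ((D : ℝ) / (2 * h + 1)) ^ n := by
  have hD : (D : ℂ) ≠ 0 := by exact_mod_cast NeZero.ne D
  obtain ⟨μ, hμ⟩ : ∃ μ : ℂ, μ = (∑ γ, G γ) / (D : ℂ) := ⟨_, rfl⟩
  have hμ1 : ‖μ‖ ≤ 1 := by
    rw [hμ, norm_div, Complex.norm_natCast, div_le_one (by exact_mod_cast NeZero.pos D)]
    refine (norm_sum_le _ _).trans ?_
    refine (Finset.sum_le_card_nsmul _ _ 1 fun γ _ => hG γ).trans ?_
    rw [card_univ, ZMod.card, nsmul_eq_mul, mul_one]
  obtain ⟨g', h1, h2, h3⟩ := decay h D n (fun γ => G γ - μ) (by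
      rw [Finset.sum_sub_distrib, Finset.sum_const, card_univ, ZMod.card, nsmul_eq_mul, hμ]
      field_simp
      ring) 2 (fun γ => (norm_sub_le _ _).trans (by linarith [hG γ]))
  have h4 := wn_sumC n h M hM (fun z : ℤ => G (z : ZMod D) - μ)
  have h5 := wn_sumC n h M hM (fun _ : ℤ => (1 : ℂ))
  rw [iter_const] at h5
  have h6 : ∑ a ∈ Icc (-(M : ℤ)) M, (wn n h a : ℂ) * G (a : ZMod D) - μ =
      ∑ a ∈ Icc (-(M : ℤ)) M, (wn n h a : ℂ) * (G (a : ZMod D) - μ) := by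
    simp only [mul_sub, Finset.sum_sub_distrib, mul_one] at h5 ⊢
    rw [← Finset.sum_mul, h5, one_mul]
  rw [← hμ, h6, h4, h3]
  exact h2 _

end W1

theorem wex1 : S_W1 := by
  refine ⟨fun k => W1.wn (59 + 1) (W1.hh k), 2 * 60 ^ 60, ?_⟩
  have hM : ∀ k, (59 + 1) * W1.hh k ≤ Nat.sqrt (2 ^ k) := fun k => W1.hh_le k
  have hL : ∀ k : ℕ, 1 / (2 * (W1.hh k : ℝ) + 1) ≤ 60 * e2 (-(k / 2)) := by
    intro k
    have h1 := W1.e2_half k
    have h2 : e2 (-((k : ℝ) / 2)) = (e2 (k / 2))⁻¹ := by rw [e2, e2, Real.rpow_neg (by norm_num)]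
    rw [h2, div_le_iff₀ (W1.pos_L _)]
    have h3 := W1.e2_pos ((k : ℝ) / 2)
    rw [mul_assoc, mul_comm, mul_assoc, inv_mul_eq_div, le_div_iff₀ h3]
    linarith
  have hbig : (61 : ℝ) ≤ 2 * 60 ^ 60 := by norm_num
  refine ⟨fun k a => W1.wn_nonneg _ _ a, fun k a ha => W1.wn_supp _ _ _ (hM k) a ha, fun k => ?_, fun k a => ?_,
    fun k q _ hq c => ?_, fun k D _ hD G hG => ?_⟩
  · have h1 := W1.wn_sumR (59 + 1) (W1.hh k) (Nat.sqrt (2 ^ k)) (hM k) (fun _ => 1)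
    rw [W1.iter_constR] at h1
    simpa using h1
  · refine (W1.wn_le 59 _ a).trans ((hL k).trans ?_)
    exact mul_le_mul_of_nonneg_right (by linarith) (W1.e2_pos _).le
  · refine (W1.wn_cls 59 _ _ q (hM k) c).trans ?_
    have hq0 : (0 : ℝ) < q := by exact_mod_cast NeZero.pos q
    have h1 : 1 / (2 * (W1.hh k : ℝ) + 1) ≤ 60 / q := by
      rw [div_le_div_iff₀ (W1.pos_L _) hq0, one_mul]
      exact hq.trans (W1.e2_half k)
    calc 1 / (q : ℝ) + 1 / (2 * (W1.hh k : ℝ) + 1) ≤ 1 / q + 60 / q := by linarith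
      _ = 61 / q := by ring
      _ ≤ 2 * 60 ^ 60 / q := div_le_div_of_nonneg_right hbig hq0.le
  · refine (W1.wn_equi (59 + 1) _ _ D (hM k) G hG).trans ?_
    have h1 : (D : ℝ) / (2 * (W1.hh k : ℝ) + 1) ≤ 60 * e2 (-(k / 20)) := by
      have h2 : (D : ℝ) / (2 * (W1.hh k : ℝ) + 1) ≤ e2 (9 * k / 20) * (60 * e2 (-(k / 2))) := by
        rw [div_eq_mul_one_div]
        exact mul_le_mul hD (hL k) (by positivity) (W1.e2_pos _).le
      refine h2.trans (le_of_eq ?_)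
      rw [mul_left_comm, e2, e2, e2, ← Real.rpow_add (by norm_num)]
      congr 2
      ring
    have h3 : ((D : ℝ) / (2 * (W1.hh k : ℝ) + 1)) ^ (59 + 1) ≤ (60 * e2 (-(k / 20))) ^ (59 + 1) :=
      pow_le_pow_left₀ (by positivity) h1 _
    have h4 : (60 * e2 (-((k : ℝ) / 20))) ^ (59 + 1) = 60 ^ 60 * e2 (-(3 * k)) := by
      rw [mul_pow]
      congr 1
      rw [e2, e2, ← Real.rpow_natCast, ← Real.rpow_mul (by norm_num)]
      congr 1
      push_cast
      ring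
    rw [h4] at h3
    linarith

end Pool.Agent.H414.DF
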