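import Pool.Agent.H414.DF.Spec

/-!
# The product weights (helper807)
-/

set_option autoImplicit false

namespace Pool.Agent.H414.DF

open Finset
open Pool.Agent.H414.LT (primesUpTo blk kk)

namespace Wt

/-- the interval -/
noncomputable def J (k : ℕ) : Finset ℤ := Icc (-(Nat.sqrt (2 ^ k) : ℤ)) (Nat.sqrt (2 ^ k))

/-- the mass of a class -/
noncomputable def mass (w : ℕ → ℤ → ℝ) (k q : ℕ) (c : ZMod q) : ℝ :=
  ∑ a ∈ (J k).filter (fun a : ℤ => (a : ZMod q) = c), w k a

theorem box_eq (r k : ℕ) : box r (2 ^ k) = Fintype.piFinset fun _ => J k := rfl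

theorem e2_pos (x : ℝ) : 0 < e2 x := Real.rpow_pos_of_pos (by norm_num) _

theorem C_nonneg {w : ℕ → ℤ → ℝ} {C : ℝ} (h : IsW1 w C) : 0 ≤ C := by
  have h1 := (h.nonneg 0 0).trans (h.sup 0 0)
  by_contra hC
  push Not at hC
  have := mul_neg_of_neg_of_pos hC (e2_pos (-(((0 : ℕ) : ℝ) / 2)))
  linarith

/-- the product formula for the classes -/
theorem cls_eq (w : ℕ → ℤ → ℝ) (r k q : ℕ) (c : Fin r → ZMod q) :
    ∑ a ∈ (box r (2 ^ k)).filter (fun a => red q a = c), ∏ i, w k (a i) =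
      ∏ i, mass w k q (c i) := by
  unfold mass
  rw [Finset.prod_univ_sum]
  refine Finset.sum_congr ?_ fun _ _ => rfl
  ext a
  rw [Finset.mem_filter, box_eq, Fintype.mem_piFinset, Fintype.mem_piFinset]
  constructor
  · rintro ⟨h1, h2⟩ i
    rw [Finset.mem_filter]
    exact ⟨h1 i, congrFun h2 i⟩
  · intro h
    refine ⟨fun i => (Finset.mem_filter.1 (h i)).1, funext fun i => (Finset.mem_filter.1 (h i)).2⟩

/-- sums over the interval -/
theorem sum_J (w : ℕ → ℤ → ℝ) (k D : ℕ) [NeZero D] (G : ZMod D → ℂ) :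
    ∑ a ∈ J k, (w k a : ℂ) * G (a : ZMod D) = ∑ c, (mass w k D c : ℂ) * G c := by
  rw [← Finset.sum_fiberwise (J k) (fun a : ℤ => (a : ZMod D))]
  refine Finset.sum_congr rfl fun c _ => ?_
  unfold mass
  rw [Complex.ofReal_sum, Finset.sum_mul]
  refine Finset.sum_congr rfl fun a ha => ?_
  rw [(Finset.mem_filter.1 ha).2]

/-- sums over the box -/
theorem sum_box (w : ℕ → ℤ → ℝ) (r k D : ℕ) [NeZero D] (G : (Fin r → ZMod D) → ℂ) :
    ∑ a ∈ box r (2 ^ k), ((∏ i, w k (a i) : ℝ) : ℂ) * G (red D a) =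
      ∑ γ, ((∏ i, mass w k D (γ i) : ℝ) : ℂ) * G γ := by
  rw [← Finset.sum_fiberwise (box r (2 ^ k)) (fun a => red D a)]
  refine Finset.sum_congr rfl fun c _ => ?_
  rw [← cls_eq, Complex.ofReal_sum, Finset.sum_mul]
  refine Finset.sum_congr rfl fun a ha => ?_
  rw [(Finset.mem_filter.1 ha).2]

theorem mass_nonneg {w : ℕ → ℤ → ℝ} {C : ℝ} (h : IsW1 w C) (k q : ℕ) (c : ZMod q) :
    0 ≤ mass w k q c := Finset.sum_nonneg fun a _ => h.nonneg k a

theorem mass_sum {w : ℕ → ℤ → ℝ} {C : ℝ} (h : IsW1 w C) (k D : ℕ) [NeZero D] :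
    ∑ c, mass w k D c = 1 := by
  unfold mass
  rw [Finset.sum_fiberwise (J k) (fun a : ℤ => (a : ZMod D)) (fun a => w k a)]
  exact h.sum k

/-- the total variation distance in one dimension -/
theorem tv_one {w : ℕ → ℤ → ℝ} {C : ℝ} (h : IsW1 w C) (k D : ℕ) [NeZero D]
    (hD : (D : ℝ) ≤ e2 (9 * k / 20)) :
    ∑ c, |mass w k D c - 1 / (D : ℝ)| ≤ C * e2 (-(3 * k)) := by
  set G : ZMod D → ℂ := fun c => if 1 / (D : ℝ) ≤ mass w k D c then 1 else -1 with hG
  have hG1 : ∀ c, ‖G c‖ ≤ 1 := by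
    intro c
    rw [hG]
    simp only
    split_ifs
    · rw [norm_one]
    · rw [norm_neg, norm_one]
  have h1 := h.equi k D hD G hG1
  have h2 : ∑ a ∈ Icc (-(Nat.sqrt (2 ^ k) : ℤ)) (Nat.sqrt (2 ^ k) : ℤ),
      (w k a : ℂ) * G (a : ZMod D) = ∑ c, (mass w k D c : ℂ) * G c := sum_J w k D G
  have h3 : ∑ c, (mass w k D c : ℂ) * G c - (∑ c, G c) / (D : ℂ) =
      ((∑ c, |mass w k D c - 1 / (D : ℝ)| : ℝ) : ℂ) := by
    rw [Finset.sum_div, ← Finset.sum_sub_distrib, Complex.ofReal_sum]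
    refine Finset.sum_congr rfl fun c _ => ?_
    rw [hG]
    simp only
    split_ifs with hc
    · rw [abs_of_nonneg (by linarith)]
      push_cast
      ring
    · rw [abs_of_neg (by linarith)]
      push_cast
      ring
  rw [h2, h3, Complex.norm_real, Real.norm_of_nonneg (Finset.sum_nonneg fun c _ => abs_nonneg _)]
    at h1
  exact h1

/-- the total variation distance of products -/
theorem tv_prod {X : Type} [Fintype X] {P U : X → ℝ} {δ : ℝ} (hP : ∀ x, 0 ≤ P x)
    (hU : ∀ x, 0 ≤ U x) (hP1 : ∑ x, P x = 1) (hU1 : ∑ x, U x = 1)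
    (hd : ∑ x, |P x - U x| ≤ δ) (r : ℕ) :
    ∑ γ : Fin r → X, |∏ i, P (γ i) - ∏ i, U (γ i)| ≤ r * δ := by
  induction r with
  | zero => simp
  | succ r ih =>
    have h1 : ∑ γ : Fin (r + 1) → X, |∏ i, P (γ i) - ∏ i, U (γ i)| =
        ∑ x : X, ∑ γ : Fin r → X, |P x * ∏ i, P (γ i) - U x * ∏ i, U (γ i)| := by
      rw [← (Fin.consEquiv fun _ => X).sum_comp, Fintype.sum_prod_type]
      refine Finset.sum_congr rfl fun x _ => Finset.sum_congr rfl fun γ _ => ?_
      rw [Fin.prod_univ_succ, Fin.prod_univ_succ]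
      rfl
    have hprod : ∑ γ : Fin r → X, ∏ i, U (γ i) = 1 := by
      have := Finset.prod_univ_sum (fun _ : Fin r => (Finset.univ : Finset X)) (fun _ x => U x)
      rw [Fintype.piFinset_univ] at this
      rw [← this]
      simp only [hU1, Finset.prod_const_one]
    rw [h1]
    have h2 : ∀ x : X, ∑ γ : Fin r → X, |P x * ∏ i, P (γ i) - U x * ∏ i, U (γ i)| ≤
        P x * (r * δ) + |P x - U x| := by
      intro x
      have h3 : ∀ γ : Fin r → X, |P x * ∏ i, P (γ i) - U x * ∏ i, U (γ i)| ≤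
          P x * |∏ i, P (γ i) - ∏ i, U (γ i)| + |P x - U x| * ∏ i, U (γ i) := by
        intro γ
        have h4 : P x * ∏ i, P (γ i) - U x * ∏ i, U (γ i) =
            P x * (∏ i, P (γ i) - ∏ i, U (γ i)) + (P x - U x) * ∏ i, U (γ i) := by ring
        rw [h4]
        refine (abs_add_le _ _).trans (le_of_eq ?_)
        rw [abs_mul, abs_mul, abs_of_nonneg (hP x),
          abs_of_nonneg (Finset.prod_nonneg fun i _ => hU (γ i))]
      refine (Finset.sum_le_sum fun γ _ => h3 γ).trans ?_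
      rw [Finset.sum_add_distrib, ← Finset.mul_sum, ← Finset.mul_sum, hprod, mul_one]
      exact add_le_add (mul_le_mul_of_nonneg_left ih (hP x)) le_rfl
    refine (Finset.sum_le_sum fun x _ => h2 x).trans ?_
    rw [Finset.sum_add_distrib, ← Finset.sum_mul, hP1]
    push_cast
    linarith

end Wt

open Wt in
theorem wex (h1 : S_W1) : S_W := by
  obtain ⟨w, C, hw⟩ := h1
  intro r
  have hC := C_nonneg hw
  have hC1 : C ^ r ≤ C ^ r + r * C := le_add_of_nonneg_right (by positivity)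
  have hC2 : r * C ≤ C ^ r + r * C := le_add_of_nonneg_left (by positivity)
  refine ⟨fun k a => ∏ i, w k (a i), C ^ r + r * C, ?_, ?_, ?_, ?_, ?_, ?_⟩
  · exact fun k a => Finset.prod_nonneg fun i _ => hw.nonneg k _
  · intro k a ha
    rw [box_eq, Fintype.mem_piFinset] at ha
    push Not at ha
    obtain ⟨i, hi⟩ := ha
    exact Finset.prod_eq_zero (Finset.mem_univ i) (hw.supp k _ hi)
  · intro k
    have := Finset.prod_univ_sum (fun _ : Fin r => J k) (fun _ x => w k x)
    rw [box_eq, ← this]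
    have h2 : ∑ x ∈ J k, w k x = 1 := hw.sum k
    simp only [h2, Finset.prod_const_one]
  · intro k a
    refine (Finset.prod_le_prod (fun i _ => hw.nonneg k _) fun i _ => hw.sup k _).trans ?_
    rw [Finset.prod_const, Finset.card_univ, Fintype.card_fin, mul_pow]
    have h2 : e2 (-(k / 2)) ^ r = e2 (-(k * r / 2)) := by
      unfold e2
      rw [← Real.rpow_natCast, ← Real.rpow_mul (by norm_num)]
      congr 1
      ring
    rw [h2]
    exact mul_le_mul_of_nonneg_right hC1 (e2_pos _).le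
  · intro k q _ hq c
    rw [cls_eq]
    have hq0 : (0 : ℝ) < q := by exact_mod_cast Nat.pos_of_ne_zero (NeZero.ne q)
    have h2 : ∀ i, mass w k q (c i) ≤ C / q := fun i => hw.cls k q hq (c i)
    refine (Finset.prod_le_prod (fun i _ => mass_nonneg hw k q _) fun i _ => h2 i).trans ?_
    rw [Finset.prod_const, Finset.card_univ, Fintype.card_fin, div_pow]
    exact div_le_div_of_nonneg_right hC1 (by positivity)
  · intro k D _ hD G hG
    have hD0 : (0 : ℝ) < D := by exact_mod_cast Nat.pos_of_ne_zero (NeZero.ne D)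
    have h2 := tv_prod (P := fun c => mass w k D c) (U := fun _ => 1 / (D : ℝ))
      (fun c => mass_nonneg hw k D c) (fun _ => by positivity) (mass_sum hw k D)
      (by
        rw [Finset.sum_const, Finset.card_univ, ZMod.card, nsmul_eq_mul, mul_one_div,
          div_self hD0.ne'])
      (tv_one hw k D hD) r
    rw [sum_box]
    have h3 : ∑ γ, ((∏ i, mass w k D (γ i) : ℝ) : ℂ) * G γ - (∑ γ, G γ) / (D : ℂ) ^ r =
        ∑ γ : Fin r → ZMod D, ((∏ i, mass w k D (γ i) - ∏ _i : Fin r, 1 / (D : ℝ) : ℝ) : ℂ) * G γ := by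
      rw [Finset.sum_div, ← Finset.sum_sub_distrib]
      refine Finset.sum_congr rfl fun γ _ => ?_
      rw [Finset.prod_const, Finset.card_univ, Fintype.card_fin]
      push_cast
      rw [one_div, inv_pow]
      ring
    rw [h3]
    refine (norm_sum_le _ _).trans ?_
    have h4 : ∀ γ : Fin r → ZMod D,
        ‖((∏ i, mass w k D (γ i) - ∏ _i : Fin r, 1 / (D : ℝ) : ℝ) : ℂ) * G γ‖ ≤
        |∏ i, mass w k D (γ i) - ∏ _i : Fin r, 1 / (D : ℝ)| := by
      intro γ
      rw [norm_mul, Complex.norm_real, Real.norm_eq_abs]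
      exact mul_le_of_le_one_right (abs_nonneg _) (hG γ)
    refine (Finset.sum_le_sum fun γ _ => h4 γ).trans (h2.trans ?_)
    rw [← mul_assoc]
    exact mul_le_mul_of_nonneg_right hC2 (e2_pos _).le

end Pool.Agent.H414.DF
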